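import Pool.Agent.P.MP_6a2a35_pr.Meas

/-! Almost sure properties and moment bounds for the clocks. -/

namespace Pool.Agent.P.MP_6a2a35_pr

open MeasureTheory ProbabilityTheory Filter Function Topology
open scoped ENNReal NNReal Classical

variable {V : Type*} [MeasurableSpace V] (K : V → PMF V)

theorem exists_theta : ∃ θ : ℝ≥0, θ < 1 ∧ ∀ n (a : ℝ),
    futLaw K {d | arr d n ≤ a} ≤ ENNReal.ofReal (Real.exp a) * (θ : ℝ≥0∞) ^ n := by
  set t := ∫⁻ h, ENNReal.ofReal (Real.exp (-h.1)) ∂jumpLaw K with ht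
  have hm : Measurable fun h : ℝ × (V → V) => ENNReal.ofReal (Real.exp (-h.1)) := by fun_prop
  have hlt : ∀ᵐ h ∂jumpLaw K, ENNReal.ofReal (Real.exp (-h.1)) < 1 :=
    (ae_jump_pos K).mono fun h hh => by simpa using hh
  have hle : t ≤ 1 := by
    refine (lintegral_mono_ae (g := fun _ => 1) (hlt.mono fun h hh => hh.le)).trans (by simp)
  have ht1 : t < 1 := by
    refine (lintegral_strict_mono (g := fun _ => 1) (IsProbabilityMeasure.ne_zero _)
      aemeasurable_const (ne_top_of_le_ne_top ENNReal.one_ne_top hle) hlt).trans_le (by simp)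
  have hE : ∀ n, ∫⁻ d, ENNReal.ofReal (Real.exp (-arr d n)) ∂futLaw K = t ^ (n + 1) := by
    intro n
    induction n with
    | zero =>
      simp only [arr_zero, zero_add, pow_one]
      exact (measurePreserving_eval_infinitePi (fun _ : ℕ => jumpLaw K) 0).lintegral_comp hm
    | succ n ih =>
      have hm2 : Measurable fun d : Fut V => ENNReal.ofReal (Real.exp (-arr d n)) :=
        (measurable_arr n).neg.exp.ennreal_ofReal
      have := lintegral_head_tail (jumpLaw K) (F := fun q : (ℝ × (V → V)) × Fut V =>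
        ENNReal.ofReal (Real.exp (-q.1.1)) * ENNReal.ofReal (Real.exp (-arr q.2 n)))
        ((hm.comp measurable_fst).mul (hm2.comp measurable_snd))
      change ∫⁻ d, _ ∂futLaw K = ∫⁻ a, ∫⁻ f, _ ∂futLaw K ∂jumpLaw K at this
      simp only [lintegral_const_mul _ hm2, ih, lintegral_mul_const _ hm] at this
      rw [pow_succ' t (n + 1), ← this]
      refine lintegral_congr fun d => ?_
      rw [← ENNReal.ofReal_mul (Real.exp_pos _).le, ← Real.exp_add, arr_tail]
      congr 2; ring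
  refine ⟨t.toNNReal, ?_, fun n a => ?_⟩
  · rw [← ENNReal.coe_lt_coe, ENNReal.coe_toNNReal ht1.ne_top]; exact ht1
  · rw [ENNReal.coe_toNNReal ht1.ne_top]
    have hm2 : Measurable fun d : Fut V => ENNReal.ofReal (Real.exp (-arr d n)) :=
      (measurable_arr n).neg.exp.ennreal_ofReal
    calc futLaw K {d | arr d n ≤ a}
        ≤ ∫⁻ d, ENNReal.ofReal (Real.exp a) * ENNReal.ofReal (Real.exp (-arr d n)) ∂futLaw K := by
          refine meas_le_lintegral₀ (hm2.const_mul _).aemeasurable fun d hd => ?_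
          rw [← ENNReal.ofReal_mul (Real.exp_pos _).le, ← Real.exp_add]
          simpa using hd
      _ = _ := by rw [lintegral_const_mul _ hm2, hE]
      _ ≤ _ := mul_le_mul_right (pow_le_pow_of_le_one zero_le hle (Nat.le_succ n)) _

theorem tsum_theta {θ : ℝ≥0} (hθ : θ < 1) :
    ∑' n : ℕ, ((2 * n + 3 : ℕ) : ℝ≥0∞) * (θ : ℝ≥0∞) ^ n ≠ ⊤ := by
  have h1 : ‖(θ : ℝ)‖ < 1 := by simpa using hθ
  have h2 : Summable fun n : ℕ => ((2 * n + 3 : ℕ) : ℝ≥0) * θ ^ n := by
    rw [← NNReal.summable_coe]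
    refine (((summable_pow_mul_geometric_of_norm_lt_one 1 h1).mul_left 2).add
      ((summable_pow_mul_geometric_of_norm_lt_one 0 h1).mul_left 3)).congr fun n => ?_
    push_cast; ring
  simpa using ENNReal.tsum_coe_ne_top_iff_summable.2 h2

theorem ae_goodF : ∀ᵐ d ∂futLaw K, GoodF d := by
  obtain ⟨θ, hθ, h⟩ := exists_theta K
  have h1 : ∀ a : ℕ, ∀ᵐ d ∂futLaw K, {n | d ∈ {d | arr d n ≤ a}}.Finite := by
    intro a
    refine ae_finite_setOfPred_mem (ne_top_of_le_ne_top (ENNReal.mul_ne_top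
      (ENNReal.ofReal_ne_top (r := Real.exp a)) (tsum_theta hθ)) ?_)
    rw [← ENNReal.tsum_mul_left]
    refine ENNReal.tsum_le_tsum fun n => (h n a).trans ?_
    gcongr
    exact le_mul_of_one_le_left' (by exact_mod_cast (by omega))
  filter_upwards [ae_fut_pos K, ae_all_iff.2 h1] with d h2 h3
  exact ⟨h2, fun a => (h3 ⌈a⌉₊).subset fun n hn => le_trans hn (Nat.le_ceil a)⟩

theorem lintegral_cnt_sq (a : ℝ) : ∫⁻ d, ((cnt d a + 1 : ℕ) : ℝ≥0∞) ^ 2 ∂futLaw K ≠ ⊤ := by
  obtain ⟨θ, hθ, h⟩ := exists_theta K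
  have hs : ∀ n, MeasurableSet {d : Fut V | arr d n ≤ a} :=
    fun n => measurableSet_le (measurable_arr n) measurable_const
  have h1 : ∀ᵐ d ∂futLaw K, ((cnt d a + 1 : ℕ) : ℝ≥0∞) ^ 2 ≤
      1 + ∑' n : ℕ, {d : Fut V | arr d n ≤ a}.indicator (fun _ => ((2 * n + 3 : ℕ) : ℝ≥0∞)) d := by
    filter_upwards [ae_goodF K] with d hd
    have h2 : ∀ c : ℕ, (c + 1) ^ 2 = 1 + ∑ n ∈ Finset.range c, (2 * n + 3) := by
      intro c
      induction c with
      | zero => simp
      | succ c ih => rw [Finset.sum_range_succ, ← add_assoc, ← ih]; ring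
    rw [← Nat.cast_pow, h2, Nat.cast_add, Nat.cast_one, Nat.cast_sum]
    gcongr
    refine le_trans (Finset.sum_le_sum fun n hn => ?_) (ENNReal.sum_le_tsum (Finset.range (cnt d a)))
    rw [Set.indicator_of_mem (s := {d : Fut V | arr d n ≤ a}) (hd.lt_cnt.1 (Finset.mem_range.1 hn))]
  refine ne_top_of_le_ne_top ?_ (lintegral_mono_ae h1)
  rw [lintegral_add_left measurable_const, lintegral_tsum
    fun n => (measurable_const.indicator (hs n)).aemeasurable]
  refine ENNReal.add_ne_top.2 ⟨by simp, ne_top_of_le_ne_top (ENNReal.mul_ne_top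
      (ENNReal.ofReal_ne_top (r := Real.exp a)) (tsum_theta hθ)) ?_⟩
  rw [← ENNReal.tsum_mul_left]
  refine ENNReal.tsum_le_tsum fun n => ?_
  rw [lintegral_indicator_const (hs n), mul_left_comm]
  gcongr
  exact h n a

omit [MeasurableSpace V] in
theorem arr_update (d : Fut V) (n : ℕ) (h : ℝ × (V → V)) :
    arr (update d n h) n = ∑ k ∈ Finset.range n, (d k).1 + h.1 := by
  rw [arr, Finset.sum_range_succ, update_self]
  congr 1
  exact Finset.sum_congr rfl fun k hk => by rw [update_of_ne (Finset.mem_range.1 hk).ne]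

theorem futLaw_arr_le (n : ℕ) {s : Set ℝ} (hs : MeasurableSet s) :
    futLaw K {d | arr d n ∈ s} ≤ volume s := by
  have h1 : MeasurableSet {d : Fut V | arr d n ∈ s} := measurable_arr n hs
  rw [← lintegral_indicator_one h1]
  have e := lintegral_resample' (jumpLaw K) n (measurable_one.indicator h1)
  change ∫⁻ d, _ ∂futLaw K = ∫⁻ a, ∫⁻ f, _ ∂jumpLaw K ∂futLaw K at e
  rw [e]
  refine (lintegral_mono (g := fun _ => volume s) fun d => ?_).trans (by simp)
  set c := ∑ k ∈ Finset.range n, (d k).1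
  have h2 : MeasurableSet ((fun e : ℝ => c + e) ⁻¹' s) := measurable_const_add c hs
  calc ∫⁻ h, {d : Fut V | arr d n ∈ s}.indicator 1 (update d n h) ∂jumpLaw K
      = ∫⁻ h, (Prod.fst ⁻¹' ((fun e : ℝ => c + e) ⁻¹' s)).indicator 1 h ∂jumpLaw K := by
        refine lintegral_congr fun h => ?_
        simp only [Set.indicator, Set.mem_ofPred_eq, arr_update, Set.mem_preimage]
        rfl
    _ = expMeasure 1 ((fun e : ℝ => c + e) ⁻¹' s) := by
        rw [lintegral_indicator_one (measurable_fst h2)]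
        exact (measurePreserving_fst (μ := expMeasure 1) (ν := mapLaw K)).measure_preimage
          h2.nullMeasurableSet
    _ ≤ volume s := (exp_le_volume _ h2).trans_eq (measure_preimage_add _ _ _)

theorem ae_arr_ne {x y : V} (hxy : x ≠ y) {a : ℝ} (ha : 0 < a) (b : ℝ) (n k : ℕ) :
    ∀ᵐ φ ∂nu K, arr (φ x) n / a ≠ arr (φ y) k / b := by
  have hm : MeasurableSet {q : Fut V × Fut V | arr q.1 n / a = arr q.2 k / b} :=
    measurableSet_eq_fun (((measurable_arr n).comp measurable_fst).div_const _)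
      (((measurable_arr k).comp measurable_snd).div_const _)
  have h1 : (futLaw K).prod (futLaw K) {q | arr q.1 n / a = arr q.2 k / b} = 0 := by
    rw [Measure.prod_apply_symm hm]
    refine lintegral_eq_zero_of_ae_eq_zero (ae_of_all _ fun d => le_antisymm ?_ zero_le)
    refine le_trans (measure_mono fun d' hd' => ?_)
      ((futLaw_arr_le K n (measurableSet_singleton (arr d k / b * a))).trans (by simp))
    exact (div_eq_iff ha.ne').1 hd'
  rw [← Measure.infinitePi_map_eval_prod (P := fun _ : V => futLaw K) hxy,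
    Measure.map_apply (by fun_prop) hm] at h1
  simpa [ae_iff, nu] using h1

theorem ae_good [Countable V] {R : Set ℝ} (hR : R.Countable) :
    ∀ᵐ φ ∂nu K, ∀ r : V → ℝ, (∀ x, r x ∈ R) → ∀ W, Good r φ W := by
  have h1 : ∀ᵐ φ ∂nu K, ∀ x, GoodF (φ x) := ae_all_iff.2 fun x =>
    (measurePreserving_eval_infinitePi (fun _ : V => futLaw K) x).quasiMeasurePreserving.ae
      (ae_goodF K)
  have h2 : ∀ᵐ φ ∂nu K, ∀ x y, ∀ a ∈ R, ∀ b ∈ R, ∀ n k, x ≠ y → 0 < a →
      arr (φ x) n / a ≠ arr (φ y) k / b := by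
    refine ae_all_iff.2 fun x => ae_all_iff.2 fun y => (ae_ball_iff hR).2 fun a _ =>
      (ae_ball_iff hR).2 fun b _ => ae_all_iff.2 fun n => ae_all_iff.2 fun k => ?_
    by_cases hxy : x = y
    · simp [hxy]
    by_cases ha : 0 < a
    · exact (ae_arr_ne K hxy ha b n k).mono fun φ h _ _ => h
    · simp [ha]
  filter_upwards [h1, h2] with φ a1 a2 r hr W
  exact ⟨fun x _ => a1 x, fun x _ y _ hxy hx _ n k => a2 x y _ (hr x) _ (hr y) n k hxy hx⟩

theorem ae_good' [Countable V] (r : V → ℝ) (W : Finset V) : ∀ᵐ φ ∂nu K, Good r φ W :=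
  (ae_good K (Set.countable_range r)).mono fun _ h => h r (fun x => ⟨x, rfl⟩) W

/-- In a short window a jump is unlikely, uniformly on bounded time intervals. -/
theorem exists_window (A : ℝ) {ε : ℝ≥0∞} (hε : ε ≠ 0) : ∃ δ : ℝ, 0 < δ ∧ ∀ a b : ℝ, b ≤ A →
    b ≤ a + δ → futLaw K {d | cnt d a < cnt d b} < ε := by
  obtain ⟨θ, hθ, h⟩ := exists_theta K
  have h0 : (0 : ℝ≥0∞) < ε / 2 := ENNReal.half_pos hε
  have h1 : Tendsto (fun n : ℕ => ENNReal.ofReal (Real.exp A) * (θ : ℝ≥0∞) ^ n) atTop (𝓝 0) := by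
    simpa using ENNReal.Tendsto.const_mul (a := ENNReal.ofReal (Real.exp A))
      (ENNReal.tendsto_pow_atTop_nhds_zero_of_lt_one (r := θ) (by exact_mod_cast hθ))
      (Or.inr ENNReal.ofReal_ne_top)
  obtain ⟨N, hN⟩ := (h1.eventually (gt_mem_nhds h0)).exists
  have h2 : Tendsto (fun δ : ℝ => (N : ℝ≥0∞) * ENNReal.ofReal δ) (𝓝[>] 0) (𝓝 0) := by
    have : Tendsto (fun δ : ℝ => ENNReal.ofReal δ) (𝓝[>] 0) (𝓝 0) := by
      simpa using (ENNReal.continuous_ofReal.tendsto 0).mono_left nhdsWithin_le_nhds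
    simpa using ENNReal.Tendsto.const_mul (a := (N : ℝ≥0∞)) this (Or.inr (by simp))
  obtain ⟨δ, h3, h4⟩ := ((h2.eventually (gt_mem_nhds h0)).and self_mem_nhdsWithin).exists
  refine ⟨δ, h4, fun a b hb hab => ?_⟩
  calc futLaw K {d | cnt d a < cnt d b}
      ≤ futLaw K ((⋃ n ∈ Finset.range N, {d | arr d n ∈ Set.Ioc a (a + δ)}) ∪
          {d | arr d N ≤ A}) := by
        refine measure_mono_ae ((ae_goodF K).mono fun d hd h5 => ?_)
        have h6 := hd.lt_cnt.1 h5
        have h7 : a < arr d (cnt d a) := not_le.1 fun h8 => lt_irrefl _ (hd.lt_cnt.2 h8)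
        rcases lt_or_ge (cnt d a) N with h8 | h8
        · exact Or.inl (Set.mem_biUnion (Finset.mem_range.2 h8) ⟨h7, h6.trans hab⟩)
        · exact Or.inr (((arr_strictMono hd.pos).monotone h8).trans (h6.trans hb))
    _ ≤ ∑ n ∈ Finset.range N, ENNReal.ofReal δ + futLaw K {d | arr d N ≤ A} := by
        refine (measure_union_le _ _).trans (add_le_add ((measure_biUnion_finset_le _ _).trans
          (Finset.sum_le_sum fun n _ => ?_)) le_rfl)
        simpa using futLaw_arr_le K n (measurableSet_Ioc (a := a) (b := a + δ))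
    _ < ε / 2 + ε / 2 := by
        refine ENNReal.add_lt_add (by simpa using h3) ((h N A).trans_lt hN)
    _ = ε := ENNReal.add_halves ε

end Pool.Agent.P.MP_6a2a35_pr
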