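import Pool.Agent.P.MP_6a2a35_pr.AE

/-! First jump recursion, comparison of two machines, Markov property. -/

namespace Pool.Agent.P.MP_6a2a35_pr

open MeasureTheory ProbabilityTheory Filter Function Topology
open scoped ENNReal NNReal Classical

variable {V : Type*} [MeasurableSpace V] [Countable V] (K : V → PMF V) {r : V → ℝ} {W : Finset V}
  {A A' : Type*} [MeasurableSpace A] [MeasurableSpace A']

structure Fam (r : V → ℝ) (W : Finset V) (stp : A → V → (V → V) → A)
    (Ψ : A → ℝ → (V → Fut V) → ℝ≥0∞) : Prop where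
  mstp : ∀ x, Measurable fun q : A × (V → V) => stp q.1 x q.2
  mΨ : Measurable fun q : A × ℝ × (V → Fut V) => Ψ q.1 q.2.1 q.2.2
  shift : ∀ σ T φ x, Good r φ W → x ∈ W → 0 < r x → First W r x φ → (φ x 0).1 / r x ≤ T →
    Ψ σ T φ = Ψ (stp σ x (φ x 0).2) (T - (φ x 0).1 / r x) (theta W r x φ)

noncomputable def Fn (r : V → ℝ) (W : Finset V) (Ψ : A → ℝ → (V → Fut V) → ℝ≥0∞) (n : ℕ) (σ : A)
    (T : ℝ) : ℝ≥0∞ := ∫⁻ φ, (if (word r φ W T).length = n then Ψ σ T φ else 0) ∂nu K

theorem Fn_succ (hr : ∀ y, 0 ≤ r y) {stp : A → V → (V → V) → A}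
    {Ψ : A → ℝ → (V → Fut V) → ℝ≥0∞} (h : Fam r W stp Ψ) (n : ℕ) (σ : A) (T : ℝ) :
    Fn K r W Ψ (n + 1) σ T = ∑ x ∈ W, if 0 < r x then
      ∫⁻ j, ENNReal.ofReal (Real.exp (-((∑ y ∈ W, r y - r x) * (j.1 / r x)))) *
        (if j.1 / r x ≤ T then Fn K r W Ψ n (stp σ x j.2) (T - j.1 / r x) else 0) ∂jumpLaw K
      else 0 := by
  set F : V → (ℝ × (V → V)) × (V → Fut V) → ℝ≥0∞ := fun x q =>
    if q.1.1 / r x ≤ T then (if (word r q.2 W (T - q.1.1 / r x)).length = n then
      Ψ (stp σ x q.1.2) (T - q.1.1 / r x) q.2 else 0) else 0 with hFdef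
  have hF : ∀ x, Measurable (F x) := by
    intro x
    refine Measurable.ite (measurableSet_le (by fun_prop) measurable_const)
      (Measurable.ite (measurable_length measurable_const measurable_snd (by fun_prop) W n)
        ?_ measurable_const) measurable_const
    exact h.mΨ.comp (Measurable.prodMk ((h.mstp x).comp (measurable_const.prodMk (by fun_prop)))
      (Measurable.prodMk (by fun_prop) measurable_snd))
  have e1 : ∀ᵐ φ ∂nu K, (if (word r φ W T).length = n + 1 then Ψ σ T φ else 0) =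
      ∑ x ∈ W, if 0 < r x then (if First W r x φ then F x (φ x 0, theta W r x φ) else 0)
        else 0 := by
    filter_upwards [ae_good' K r W] with φ hG
    by_cases hw : word r φ W T = []
    · rw [hw, if_neg (by simp)]
      refine (Finset.sum_eq_zero fun x hx => ?_).symm
      simp only [hFdef]
      split_ifs with a1 a2 a3 <;> try rfl
      exact absurd (hw.symm.trans (word_theta hr hG hx a1 a2 a3)) (by simp)
    · obtain ⟨x, hx, a1, a2, a3⟩ := exists_first hr hG hw
      have e2 := word_theta hr hG hx a1 a2 a3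
      rw [Finset.sum_eq_single_of_mem x hx]
      · simp only [hFdef, a1, a2, a3, if_true]
        rw [e2, h.shift σ T φ x hG hx a1 a2 a3]
        simp
      · intro y hy hyx
        simp only [hFdef]
        split_ifs with b1 b2 b3 <;> try rfl
        have := e2.symm.trans (word_theta hr hG hy b1 b2 b3)
        exact absurd (congrArg Prod.fst (List.cons.inj this).1).symm hyx
  rw [Fn, lintegral_congr_ae e1, lintegral_finsetSum]
  · refine Finset.sum_congr rfl fun x hx => ?_
    split_ifs with a1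
    · rw [lintegral_theta K W hr x (hF x)]
      refine lintegral_congr fun j => ?_
      rw [← Finset.sum_mul, Finset.sum_erase_eq_sub hx]
      congr 1
      simp only [hFdef, Fn]
      split_ifs <;> simp
    · simp
  · intro x _
    split_ifs
    · exact Measurable.ite (measurableSet_first W r x)
        ((hF x).comp (Measurable.prodMk (by fun_prop) (measurable_theta W r x))) measurable_const
    · exact measurable_const

theorem lintegral_eq_tsum_Fn {stp : A → V → (V → V) → A}
    {Ψ : A → ℝ → (V → Fut V) → ℝ≥0∞} (h : Fam r W stp Ψ) (σ : A) (T : ℝ) :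
    ∫⁻ φ, Ψ σ T φ ∂nu K = ∑' n, Fn K r W Ψ n σ T := by
  unfold Fn
  rw [← lintegral_tsum]
  · refine lintegral_congr fun φ => ?_
    rw [tsum_eq_single (word r φ W T).length fun n hn => if_neg hn.symm, if_pos rfl]
  · intro n
    exact (Measurable.ite (measurable_length measurable_const measurable_id measurable_const W n)
      (h.mΨ.comp (measurable_const.prodMk (measurable_const.prodMk measurable_id)))
      measurable_const).aemeasurable

theorem compare (hr : ∀ y, 0 ≤ r y) {stp : A → V → (V → V) → A} {stp' : A' → V → (V → V) → A'}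
    {Ψ : A → ℝ → (V → Fut V) → ℝ≥0∞} {Ψ' : A' → ℝ → (V → Fut V) → ℝ≥0∞}
    (h : Fam r W stp Ψ) (h' : Fam r W stp' Ψ') {R : A → A' → Prop}
    (hR : ∀ σ σ', R σ σ' → ∃ π : Equiv.Perm V, (∀ x, x ∈ W ↔ π x ∈ W) ∧ (∀ x ∈ W, r (π x) = r x) ∧
      ∀ x ∈ W, 0 < r x → ∀ η, R (stp σ x η) (stp' σ' (π x) η))
    (h0 : ∀ σ σ', R σ σ' → ∀ T, 0 ≤ T → Fn K r W Ψ 0 σ T ≤ Fn K r W Ψ' 0 σ' T)
    {σ : A} {σ' : A'} (hσ : R σ σ') {T : ℝ} (hT : 0 ≤ T) :
    ∫⁻ φ, Ψ σ T φ ∂nu K ≤ ∫⁻ φ, Ψ' σ' T φ ∂nu K := by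
  rw [lintegral_eq_tsum_Fn K h, lintegral_eq_tsum_Fn K h']
  refine ENNReal.tsum_le_tsum fun n => ?_
  induction n generalizing σ σ' T with
  | zero => exact h0 σ σ' hσ T hT
  | succ n ih =>
    obtain ⟨π, p1, p2, p3⟩ := hR σ σ' hσ
    rw [Fn_succ K hr h, Fn_succ K hr h']
    refine le_trans ?_ (Finset.sum_equiv π (s := W) (t := W) p1 (fun _ _ => rfl)).le
    refine Finset.sum_le_sum fun x hx => ?_
    rw [p2 x hx]
    split_ifs with a1
    · refine lintegral_mono fun j => ?_
      dsimp only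
      split_ifs with a2
      · exact mul_le_mul_right (ih (p3 x hx a1 _) (sub_nonneg.2 a2)) _
      · exact le_rfl
    · exact le_rfl

theorem fam_final (hr : ∀ y, 0 ≤ r y) {stp : A → V → (V → V) → A}
    (hs : ∀ x, Measurable fun q : A × (V → V) => stp q.1 x q.2) {H : A → ℝ≥0∞}
    (hH : Measurable H) : Fam r W stp fun σ T φ => H (fold stp σ (word r φ W T)) := by
  refine ⟨hs, hH.comp (measurable_fold (stp := fun _ => stp)
    (fun x σ η a b => (hs x).comp (a.prodMk b)) measurable_const (by fun_prop) (by fun_prop)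
    measurable_fst W), fun σ T φ x hG hx a1 a2 a3 => ?_⟩
  rw [word_theta hr hG hx a1 a2 a3, fold_cons]

/-- Comparison of the final states of two coupled machines. -/
theorem compare_final (hr : ∀ y, 0 ≤ r y) {stp : A → V → (V → V) → A}
    {stp' : A' → V → (V → V) → A'}
    (hs : ∀ x, Measurable fun q : A × (V → V) => stp q.1 x q.2)
    (hs' : ∀ x, Measurable fun q : A' × (V → V) => stp' q.1 x q.2)
    {H : A → ℝ≥0∞} (hH : Measurable H) {H' : A' → ℝ≥0∞} (hH' : Measurable H') {R : A → A' → Prop}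
    (hR : ∀ σ σ', R σ σ' → ∃ π : Equiv.Perm V, (∀ x, x ∈ W ↔ π x ∈ W) ∧ (∀ x ∈ W, r (π x) = r x) ∧
      ∀ x ∈ W, 0 < r x → ∀ η, R (stp σ x η) (stp' σ' (π x) η))
    (h0 : ∀ σ σ', R σ σ' → H σ ≤ H' σ') {σ : A} {σ' : A'} (hσ : R σ σ') {T : ℝ} (hT : 0 ≤ T) :
    ∫⁻ φ, H (fold stp σ (word r φ W T)) ∂nu K ≤ ∫⁻ φ, H' (fold stp' σ' (word r φ W T)) ∂nu K := by
  refine compare K hr (fam_final hr hs hH) (fam_final hr hs' hH') hR ?_ hσ hT
  intro τ τ' hτ T _
  refine lintegral_mono fun φ => ?_
  dsimp only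
  split_ifs with a1
  · rw [List.length_eq_zero_iff.1 a1]
    exact h0 τ τ' hτ
  · exact le_rfl

/-- The Markov property (one inequality suffices). -/
theorem markov (hr : ∀ y, 0 ≤ r y) {stp : A → V → (V → V) → A}
    (hs : ∀ x, Measurable fun q : A × (V → V) => stp q.1 x q.2) {H : A × A → ℝ≥0∞}
    (hH : Measurable H) (σ : A) {t : ℝ} (ht : 0 ≤ t) {s : ℝ} (hs0 : 0 ≤ s) :
    ∫⁻ φ, ∫⁻ ψ, H (fold stp σ (word r φ W t), fold stp (fold stp σ (word r φ W t))
        (word r ψ W s)) ∂nu K ∂nu K ≤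
      ∫⁻ φ, H (fold stp σ (word r φ W t), fold stp σ (word r φ W (t + s))) ∂nu K := by
  have hf : ∀ {Z : Type _} [MeasurableSpace Z] {φ : Z → V → Fut V} {T : Z → ℝ} {σ : Z → A},
      Measurable φ → Measurable T → Measurable σ →
      Measurable fun z => fold stp (σ z) (word r (φ z) W (T z)) :=
    fun a b c => measurable_fold (stp := fun _ => stp)
      (fun x σ η a b => (hs x).comp (a.prodMk b)) measurable_const a b c W
  have h1 : Measurable fun q : A × (V → Fut V) => H (q.1, fold stp q.1 (word r q.2 W s)) :=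
    hH.comp (measurable_fst.prodMk (measurable_fold (stp := fun _ => stp)
      (fun x σ η a b => (hs x).comp (a.prodMk b)) measurable_const measurable_snd
      measurable_const measurable_fst W))
  have h2 : Fam r W stp fun σ T φ =>
      H (fold stp σ (word r φ W T), fold stp σ (word r φ W (T + s))) := by
    refine ⟨hs, hH.comp ((hf (by fun_prop) (by fun_prop) measurable_fst).prodMk
      (hf (by fun_prop) (by fun_prop) measurable_fst)), fun σ T φ x hG hx a1 a2 a3 => ?_⟩
    rw [word_theta hr hG hx a1 a2 a3, word_theta hr hG hx a1 a2 (a3.trans (le_add_of_nonneg_right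
      hs0)), fold_cons, fold_cons, add_sub_right_comm]
  refine compare K hr (fam_final hr hs (H := fun τ => ∫⁻ ψ, H (τ, fold stp τ (word r ψ W s)) ∂nu K)
    h1.lintegral_prod_right') h2 (R := Eq) ?_ ?_ rfl ht
  · rintro τ _ rfl
    exact ⟨1, fun _ => Iff.rfl, fun _ _ => rfl, fun _ _ _ _ => rfl⟩
  · rintro τ _ rfl T hT
    have ha : ∀ y, 0 ≤ r y * T := fun y => mul_nonneg (hr y) hT
    have e1 := lintegral_subAll K W ha
      (F := fun _ => ∫⁻ ψ, H (τ, fold stp τ (word r ψ W s)) ∂nu K) measurable_const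
    have e2 := lintegral_subAll K W ha
      (F := fun ψ => H (τ, fold stp τ (word r ψ W s))) (h1.comp measurable_prodMk_left)
    rw [lintegral_const, measure_univ, mul_one, ← e2] at e1
    refine le_of_eq ((lintegral_congr_ae ?_).trans (e1.trans (lintegral_congr_ae ?_)))
    · filter_upwards [ae_good' K r W] with φ hG
      simp only [List.length_eq_zero_iff, ← word_eq_nil_iff hr hG hT]
      split_ifs with a1
      · rw [a1, fold_nil]
      · rfl
    · filter_upwards [ae_good' K r W] with φ hG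
      simp only [List.length_eq_zero_iff, word_eq_nil_iff hr hG hT]
      split_ifs with a1
      · rw [(word_eq_nil_iff hr hG hT).2 a1, fold_nil, word_subAll hr hG hT a1]
      · rfl

end Pool.Agent.P.MP_6a2a35_pr
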