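import Pool.Agent.P.MP_6a2a35_pr.Step

/-! Monotone coupling of the system with infinite cap and the system with arbitrary cap when the
`B` particles do not coalesce. -/

namespace Pool.Agent.P.MP_6a2a35_pr

open Function
open scoped ENNReal NNReal Classical

variable {V : Type*} {ty : V → Bool} {br : V → ℝ} {cap capX capG : Bool → ℝ≥0∞} {σ : V → Loc V}
  {m : V} {η : V → V} {W : Finset V}

theorem Stab.uniq (h : Stab ty cap σ) (hc : cap true = ⊤) {z z' : V} (hz : (σ z).Active)
    (hz' : (σ z').Active) (hp : (σ z).pos = (σ z').pos) (ht : ty z = true) : z = z' := by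
  by_contra hne
  exact (h z z' hz hz' hne hp).2 (by simp [ht, hc])

theorem foe_ann (hbr : Injective br) (hI : Inv ty cap W σ) {z0 : V}
    (h : Foe ty σ m (η (σ m).pos) z0) :
    ∃ z, Foe ty σ m (η (σ m).pos) z ∧ (∀ y, Foe ty σ m (η (σ m).pos) y → y ≠ z → br y < br z) ∧
      step ty br cap σ m η = ann (mov σ m (η (σ m).pos)) m z := by
  rcases step_spec (ty := ty) (br := br) (cap := cap) (σ := σ) (m := m) (η := η) with
    h1 | ⟨f, -⟩ | ⟨f, -⟩
  · exact h1
  all_goals exact absurd h (bravest_none hbr (hI.finite fun z hz => hz.2.1) f z0)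

theorem Mate.ty_true (hc : cap false < 1) {v z : V} (h : Mate ty cap σ m v z) : ty m = true := by
  by_contra hm
  have h1 := h.2.2.2.2.2.2
  rw [Bool.not_eq_true] at hm
  rw [hm] at h1
  have h2 : (1 : ℝ≥0∞) ≤ (σ m).cl.card := by exact_mod_cast h.1.1.card_pos
  exact absurd (h2.trans h1) (not_le.2 hc)

theorem Foe.dead {v z : V} (h : Foe ty σ m v z) (y : V) :
    (ann (mov σ m v) m z y).Active ↔ (σ y).Active ∧ y ≠ m ∧ y ≠ z := by
  simpa using ann_active (σ := mov σ m v) (by simpa using h.1) (by simpa using h.2.1) y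

structure Rel (ty : V → Bool) (capX capG : Bool → ℝ≥0∞) (W : Finset V) (o : V)
    (π : Equiv.Perm V) (X G : V → Loc V) : Prop where
  iX : Inv ty capX W X
  iG : Inv ty capG W G
  sX : Stab ty capX X
  sG : Stab ty capG G
  mem : ∀ x, x ∈ W ↔ π x ∈ W
  typ : ∀ x, ty (π x) = ty x
  fixB : ∀ x, ty x = false → π x = x
  pos : ∀ x, (G (π x)).pos = (X x).pos
  actA : ∀ x, ty x = true → (X x).Active → (G (π x)).Active
  actB : ∀ y, ty y = false → (G y).Active → (X y).Active
  trk : ∀ x, ty x = true → (X x).Active → o ∈ (X x).cl → o ∈ (G (π x)).cl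

theorem Rel.step {o : V} {π : Equiv.Perm V} {X G : V → Loc V} (hbr : Injective br)
    (c1 : capX true = ⊤) (c2 : capX false < 1) (h : Rel ty capX capG W o π X G) (x : V)
    (η : V → V) :
    ∃ π', Rel ty capX capG W o π' (step ty br capX X x η) (step ty br capG G (π x) η) := by
  set X' := MP_6a2a35_pr.step ty br capX X x η with hX'
  set G' := MP_6a2a35_pr.step ty br capG G (π x) η with hG'
  set v := η (X x).pos with hv
  have hv' : η (G (π x)).pos = v := by rw [h.pos]
  have iX' : Inv ty capX W X' := h.iX.step br _ _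
  have iG' : Inv ty capG W G' := h.iG.step br _ _
  have sX' : Stab ty capX X' := h.sX.step hbr h.iX _ _
  have sG' : Stab ty capG G' := h.sG.step hbr h.iG _ _
  have pX : ∀ y, (X' y).pos = if y = x then v else (X y).pos := fun y => step_pos y
  have hP : ∀ y, (G' (π y)).pos = (X' y).pos := by
    intro y
    rw [hG', step_pos, pX, hv', h.pos]
    simp
  have posB : ∀ y, ty y = false → (G y).pos = (X y).pos := fun y hy => by
    rw [← h.pos, h.fixB y hy]
  have hB : ∀ y, ty y = false → (G' y).Active → (X' y).Active := by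
    intro y hy a1
    have a2 := step_active a1
    have a3 := h.actB y hy a2
    rcases step_spec (ty := ty) (br := br) (cap := capX) (σ := X) (m := x) (η := η) with
      ⟨z, a, b, e⟩ | ⟨-, z, a, e | e⟩ | ⟨-, -, e⟩ <;> rw [hX', e]
    · refine (a.dead y).2 ⟨a3, ?_, ?_⟩
      · rintro rfl
        have t1 : ty z = true := by simpa [hy] using a.2.2.2
        have : Foe ty G (π y) (η (G (π y)).pos) (π z) :=
          ⟨by rwa [h.fixB y hy], h.actA z t1 a.2.1, by rw [h.pos, hv', a.2.2.1],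
            by rw [h.typ, h.typ]; exact a.2.2.2⟩
        obtain ⟨z', f1, -, f2⟩ := foe_ann hbr h.iG this
        rw [hG', f2, f1.dead] at a1
        exact a1.2.1 (h.fixB y hy).symm
      · rintro rfl
        have t1 : ty x = true := by simpa [hy] using a.2.2.2
        have f0 : Foe ty G (π x) (η (G (π x)).pos) y :=
          ⟨h.actA x t1 a.1, a2, by rw [posB y hy, hv', a.2.2.1],
            by rw [h.typ]; exact a.2.2.2⟩
        obtain ⟨z', f1, f3, f2⟩ := foe_ann hbr h.iG f0
        rw [hG', f2, f1.dead] at a1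
        have t2 : ty z' = false := by simpa [h.typ, t1] using f1.2.2.2
        have f4 : Foe ty X x v z' :=
          ⟨a.1, h.actB z' t2 f1.2.1, by rw [← posB z' t2, f1.2.2.1, hv'], by simp [t1, t2]⟩
        exact lt_asymm (b z' f4 (Ne.symm a1.2.2)) (f3 y f0 a1.2.2)
    · refine (mer_active (by simpa using a.1) a.2.2.2.2.1.symm y).2 ⟨by simpa using a3, ?_⟩
      rintro rfl
      simpa [hy, a.ty_true c2] using a.2.2.2.1
    · refine (mer_active (by simpa using a.2.1) a.2.2.2.2.1 y).2 ⟨by simpa using a3, ?_⟩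
      rintro rfl
      simpa [hy] using a.ty_true c2
    · simpa using a3
  have hfar : ∀ y, (X' y).pos ≠ v → X' y = X y ∧ G' (π y) = G (π y) := by
    intro y hy
    have a1 : y ≠ x := fun e => hy (by rw [pX, if_pos e])
    rw [pX, if_neg a1] at hy
    exact ⟨step_far a1 hy, step_far (π.injective.ne a1) (by rwa [h.pos, hv'])⟩
  have hnear : ∀ t, ty t = true → (X' t).Active → (X' t).pos = v →
      ∃ a, ty a = true ∧ (G' a).Active ∧ (G' a).pos = v ∧ (o ∈ (X' t).cl → o ∈ (G' a).cl) := by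
    intro t t1 t2 t3
    have t4 := step_active t2
    obtain ⟨l, l1, l2, l3, l4⟩ : ∃ l, ty l = true ∧ (X l).Active ∧ (X' l).pos = v ∧
        (o ∈ (X' t).cl → o ∈ (X l).cl) := by
      by_cases ho : o ∈ (X t).cl
      · exact ⟨t, t1, t4, t3, fun _ => ho⟩
      rcases step_spec (ty := ty) (br := br) (cap := capX) (σ := X) (m := x) (η := η) with
        ⟨z, a, b, e⟩ | ⟨-, z, a, e | e⟩ | ⟨-, -, e⟩
      · exact ⟨t, t1, t4, t3, by simp [hX', e]⟩
      · refine ⟨z, a.2.2.2.1.trans (a.ty_true c2), a.2.1,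
          by rw [pX, if_neg a.2.2.2.2.1, a.2.2.1], ?_⟩
        rw [hX', e, mer_cl]
        split_ifs with d1 <;> simp_all
      · refine ⟨x, a.ty_true c2, a.1, by rw [pX, if_pos rfl], ?_⟩
        rw [hX', e, mer_cl]
        split_ifs with d1 <;> simp_all
      · exact ⟨t, t1, t4, t3, by simp [hX', e]⟩
    have g1 : ty (π l) = true := by rw [h.typ, l1]
    have g2 := h.actA l l1 l2
    have g3 : (G' (π l)).pos = v := by rw [hP, l3]
    have g4 : o ∈ (X' t).cl → o ∈ (G (π l)).cl := fun ho => h.trk l l1 l2 (l4 ho)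
    have hmer : ∀ a b, (G a).Active → a ≠ b → ty a = ty b → (G' a).pos = v →
        G' = mer (mov G (π x) (η (G (π x)).pos)) a b →
        ∃ a, ty a = true ∧ (G' a).Active ∧ (G' a).pos = v ∧ (o ∈ (X' t).cl → o ∈ (G' a).cl) := by
      intro a b a1 a2 a3 a4 e
      by_cases d : π l = b
      · refine ⟨a, by rw [a3, ← d, g1], ?_, a4, fun ho => ?_⟩
        · rw [e]; exact (mer_active (by simpa using a1) a2 a).2 ⟨by simpa using a1, a2⟩
        · rw [e, mer_cl, if_pos rfl]; simp [← d, g4 ho]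
      · refine ⟨π l, g1, ?_, g3, fun ho => ?_⟩
        · rw [e]; exact (mer_active (by simpa using a1) a2 _).2 ⟨by simpa using g2, d⟩
        · have := g4 ho
          rw [e, mer_cl]
          split_ifs with d1 <;> simp_all
    rcases step_spec (ty := ty) (br := br) (cap := capG) (σ := G) (m := π x) (η := η) with
      ⟨z, a, b, e⟩ | ⟨-, z, a, e | e⟩ | ⟨-, -, e⟩
    · refine ⟨π l, g1, ?_, g3, fun ho => by simpa [hG', e] using g4 ho⟩
      rw [hG', e, a.dead]
      refine ⟨g2, fun d => ?_, fun d => ?_⟩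
      · have d' : l = x := π.injective d
        subst d'
        have t5 : ty z = false := by simpa [g1] using a.2.2.2
        have f4 : Foe ty X l v z :=
          ⟨l2, h.actB z t5 a.2.1, by rw [← posB z t5, a.2.2.1, hv'], by simp [l1, t5]⟩
        obtain ⟨z', f1, -, f2⟩ := foe_ann hbr h.iX f4
        rw [hX', f2, f1.dead] at t2
        rw [pX, if_neg t2.2.1] at t3
        have := h.sX.uniq c1 t4 f4.2.1 (t3.trans f4.2.2.1.symm) t1
        simp [this, t5] at t1
      · have t5 : ty x = false := by simpa [← d, g1, h.typ] using a.2.2.2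
        have lx : l ≠ x := fun e => by simp [e, t5] at l1
        have tx : t ≠ x := fun e => by simp [e, t5] at t1
        rw [pX, if_neg lx] at l3
        rw [pX, if_neg tx] at t3
        have f4 : Foe ty X x v l :=
          ⟨h.actB x t5 (h.fixB x t5 ▸ a.1), l2, l3, by simp [l1, t5]⟩
        obtain ⟨z', f1, -, f2⟩ := foe_ann hbr h.iX f4
        rw [hX', f2, f1.dead] at t2
        exact t2.2.2 (h.sX.uniq c1 t4 f1.2.1 (t3.trans f1.2.2.1.symm) t1)
    · exact hmer _ _ a.1 a.2.2.2.2.1.symm a.2.2.2.1.symm (by rw [hP, pX, if_pos rfl]) e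
    · exact hmer _ _ a.2.1 a.2.2.2.2.1 a.2.2.2.1
        (by rw [hG', step_pos, if_neg a.2.2.2.2.1, a.2.2.1, hv']) e
    · exact ⟨π l, g1, by simpa [hG', e] using g2, g3, fun ho => by simpa [hG', e] using g4 ho⟩
  by_cases ht : ∃ t, ty t = true ∧ (X' t).Active ∧ (X' t).pos = v
  · obtain ⟨t, t1, t2, t3⟩ := ht
    obtain ⟨a, a1, a2, a3, a4⟩ := hnear t t1 t2 t3
    obtain ⟨s, rfl⟩ := π.surjective a
    have s1 : ty s = true := by rw [← h.typ, a1]
    have s2 : (X' s).pos = v := by rw [← hP, a3]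
    have s3 : s ∈ W := (h.mem s).2 (iG'.mem a2.1)
    have t4 : t ∈ W := iX'.mem t2.1
    have hsw : ∀ y, (y = t ∧ Equiv.swap t s y = s) ∨ (y = s ∧ Equiv.swap t s y = t) ∨
        (y ≠ t ∧ y ≠ s ∧ Equiv.swap t s y = y) := by
      intro y
      by_cases d1 : y = t
      · simp [d1]
      by_cases d2 : y = s
      · simp [d2]
      · simp [d1, d2, Equiv.swap_apply_of_ne_of_ne d1 d2]
    have hA : ∀ y, ty y = true → (X' y).Active → (G' (π (Equiv.swap t s y))).Active ∧
        (o ∈ (X' y).cl → o ∈ (G' (π (Equiv.swap t s y))).cl) := by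
      intro y y1 y2
      by_cases d : (X' y).pos = v
      · have := sX'.uniq c1 y2 t2 (d.trans t3.symm) y1
        subst this
        simpa using And.intro a2 a4
      · have d1 : y ≠ t := fun e => d (e ▸ t3)
        have d2 : y ≠ s := fun e => d (e ▸ s2)
        obtain ⟨e1, e2⟩ := hfar y d
        rw [Equiv.swap_apply_of_ne_of_ne d1 d2, e2]
        rw [e1] at y2 ⊢
        exact ⟨h.actA y y1 y2, h.trk y y1 y2⟩
    refine ⟨π * Equiv.swap t s, iX', iG', sX', sG', fun y => ?_, fun y => ?_, fun y hy => ?_,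
      fun y => ?_, fun y y1 y2 => (hA y y1 y2).1, hB, fun y y1 y2 => (hA y y1 y2).2⟩ <;>
      rw [Equiv.Perm.mul_apply]
    · rw [← h.mem]
      rcases hsw y with ⟨d, e⟩ | ⟨d, e⟩ | ⟨-, -, e⟩ <;> simp [*]
    · rw [h.typ]
      rcases hsw y with ⟨d, e⟩ | ⟨d, e⟩ | ⟨-, -, e⟩ <;> simp [*]
    · rcases hsw y with ⟨d, e⟩ | ⟨d, e⟩ | ⟨-, -, e⟩
      · simp [d, t1] at hy
      · simp [d, s1] at hy
      · rw [e, h.fixB y hy]
    · rw [hP]
      rcases hsw y with ⟨d, e⟩ | ⟨d, e⟩ | ⟨-, -, e⟩ <;> rw [e]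
      · rw [d, s2, t3]
      · rw [d, s2, t3]
  · push Not at ht
    refine ⟨π, iX', iG', sX', sG', h.mem, h.typ, h.fixB, hP, fun y y1 y2 => ?_, hB,
      fun y y1 y2 => ?_⟩ <;> obtain ⟨e1, e2⟩ := hfar y (ht y y1 y2) <;> rw [e2] <;>
      rw [e1] at y2
    · exact h.actA y y1 y2
    · rw [e1]; exact h.trk y y1 y2

theorem rel_init (o : V) : Rel ty capX capG W o 1 (init W) (init W) :=
  ⟨inv_init, inv_init, stab_init, stab_init, fun _ => Iff.rfl, fun _ => rfl, fun _ _ => rfl,
    fun _ => rfl, fun _ _ h => h, fun _ _ h => h, fun _ _ _ h => h⟩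

/-- The cluster of `o` is alive. -/
def Alive (σ : V → Loc V) (o : V) : Prop := ∃ z, o ∈ (σ z).cl ∧ (σ z).kil = ∅

theorem Inv.single (h : Inv ty cap W σ) (c : cap false < 1) {x z : V} (hx : x ∈ (σ z).cl)
    (ht : ty x = false) : z = x := by
  have h1 := h.size z
  rw [← h.hom x z hx, ht] at h1
  have h2 : ((σ z).cl.card : ℝ≥0∞) < 2 := h1.trans_lt (max_lt ENNReal.one_lt_two
    (by simpa using ENNReal.mul_lt_mul_right two_ne_zero ENNReal.ofNat_ne_top c))
  exact Finset.card_le_one.1 (Nat.lt_succ_iff.1 (by exact_mod_cast h2)) _ (h.self z ⟨x, hx⟩) _ hx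

theorem Rel.aliveA {o : V} {π : Equiv.Perm V} {X G : V → Loc V} (h : Rel ty capX capG W o π X G)
    (ho : ty o = true) : Alive X o → Alive G o := by
  rintro ⟨z, h1, h2⟩
  have h3 : ty z = true := by rw [← h.iX.hom o z h1, ho]
  exact ⟨π z, h.trk z h3 ⟨⟨o, h1⟩, h2⟩ h1, (h.actA z h3 ⟨⟨o, h1⟩, h2⟩).2⟩

theorem Rel.aliveB {o : V} {π : Equiv.Perm V} {X G : V → Loc V} (h : Rel ty capX capG W o π X G)
    (c : capG false < 1) (ho : ty o = false) : Alive G o → Alive X o := by
  rintro ⟨z, h1, h2⟩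
  obtain rfl := h.iG.single c h1 ho
  have := h.actB z ho ⟨⟨z, h1⟩, h2⟩
  exact ⟨z, h.iX.self z this.1, this.2⟩

end Pool.Agent.P.MP_6a2a35_pr
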