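import Pool.Agent.P.MP_6a2a35_pr.Dens
import Pool.Agent.P.MP_6a2a35_pr.Cmp

/-! With infinite cap the density of `A` clusters tends to zero. -/

namespace Pool.Agent.P.MP_6a2a35_pr

open MeasureTheory ProbabilityTheory Filter Function Topology
open scoped ENNReal NNReal Classical

variable {V : Type*}

theorem cnt_tail {d : Fut V} (hd : GoodF d) {a : ℝ} (h : (d 0).1 ≤ a) :
    cnt d a = cnt (tail d) (a - (d 0).1) + 1 := by
  refine eq_of_forall_lt_iff fun n => ?_
  rcases n with _ | n
  · simpa [hd.lt_cnt, arr_zero] using h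
  · rw [Nat.succ_lt_succ_iff, hd.lt_cnt, hd.tail.lt_cnt, arr_tail, sub_le_sub_iff_right]

theorem path_tail (d : Fut V) (u : V) (n : ℕ) :
    path d u (n + 1) = path (tail d) ((d 0).2 u) n := by
  induction n with
  | zero => rfl
  | succ n ih => rw [path, ih]; rfl

theorem cnt_eq_zero {d : Fut V} (hd : GoodF d) {a : ℝ} (h : a < (d 0).1) : cnt d a = 0 := by
  by_contra h0
  have := hd.lt_cnt.1 (Nat.pos_of_ne_zero h0)
  rw [arr_zero] at this
  linarith

theorem exp_Ioi {a : ℝ} (ha : 0 ≤ a) : expMeasure 1 (Set.Ioi a) = ENNReal.ofReal (Real.exp (-a)) := by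
  have := lintegral_exp_sub (F := fun _ => 1) measurable_const ha
  rw [lintegral_const, measure_univ, mul_one, mul_one] at this
  rw [← this, ← lintegral_indicator_one measurableSet_Ioi]
  simp [Set.indicator]

theorem exp_Iic {a : ℝ} (ha : 0 < a) : expMeasure 1 (Set.Iic a) ≠ 0 := by
  intro h
  have := measure_add_measure_compl (μ := expMeasure 1) (measurableSet_Iic (a := a))
  rw [h, Set.compl_Iic, exp_Ioi ha.le, zero_add, measure_univ, ENNReal.ofReal_eq_one,
    Real.exp_eq_one_iff] at this
  linarith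

variable [MeasurableSpace V] [Countable V] [DiscreteMeasurableSpace V] {G : SimpleGraph V}
  {K : V → PMF V} {Γ : Subgroup (Equiv.Perm V)}

theorem dm_posAt {Z : Type*} [MeasurableSpace Z] {d : Z → Fut V} {a : Z → ℝ} (hd : Measurable d)
    (ha : Measurable a) (u : V) : DM fun z => path (d z) u (cnt (d z) (a z)) :=
  (DM.of_measurable (measurable_cnt hd ha)).dm (g := fun n z => path (d z) u n)
    fun n => dm_path hd u n

omit [Countable V] in
theorem jump_box {s : Set ℝ} (u w : V) :
    jumpLaw K (s ×ˢ {η | η u = w}) = expMeasure 1 s * K u w := by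
  rw [jumpLaw, Measure.prod_prod, ← PMF.toMeasure_apply_singleton _ _ (measurableSet_singleton w)]
  congr 1
  exact (measurePreserving_eval_infinitePi (fun v : V => (K v).toMeasure) u).measure_preimage
    (measurableSet_singleton w).nullMeasurableSet

omit [Countable V] [DiscreteMeasurableSpace V] in
theorem stay_pos (K : V → PMF V) {a : ℝ} (ha : 0 ≤ a) : futLaw K {d | a < (d 0).1} ≠ 0 := by
  have h1 := ((measurePreserving_fst (μ := expMeasure 1) (ν := mapLaw K)).comp
    (measurePreserving_eval_infinitePi (fun _ : ℕ => jumpLaw K) 0)).measure_preimage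
    (measurableSet_Ioi (a := a)).nullMeasurableSet
  rw [exp_Ioi ha] at h1
  exact ne_of_eq_of_ne h1 (by simpa using Real.exp_pos _)

theorem reach_pos {u v : V} (h : Relation.ReflTransGen (fun a b => K a b ≠ 0) u v) {a : ℝ}
    (ha : 0 < a) : futLaw K {d | path d u (cnt d a) = v} ≠ 0 := by
  induction h using Relation.ReflTransGen.head_induction_on generalizing a with
  | refl =>
    refine fun h => stay_pos K ha.le (le_antisymm (le_trans (measure_mono_ae ?_) h.le) zero_le)
    filter_upwards [ae_goodF K] with d hd h1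
    change path d v (cnt d a) = v
    rw [cnt_eq_zero hd h1, path]
  | @head u w huw _ ih =>
    intro h
    have hs : MeasurableSet (Set.Iic (a / 2) ×ˢ {η : V → V | η u = w}) :=
      measurableSet_Iic.prod ((measurableSet_singleton w).preimage
        (measurable_pi_apply (X := fun _ : V => V) u))
    have hm : MeasurableSet {q : (ℝ × (V → V)) × Fut V |
        q.1 ∈ Set.Iic (a / 2) ×ˢ {η : V → V | η u = w} ∧ path q.2 w (cnt q.2 (a - q.1.1)) = v} :=
      (measurable_fst hs).inter (dm_posAt measurable_snd (by fun_prop) w v)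
    have e := lintegral_head_tail (jumpLaw K) (measurable_one.indicator hm)
    change ∫⁻ d, _ ∂futLaw K = ∫⁻ a, ∫⁻ f, _ ∂futLaw K ∂jumpLaw K at e
    have e0 : ∫⁻ d, Set.indicator {q : (ℝ × (V → V)) × Fut V |
        q.1 ∈ Set.Iic (a / 2) ×ˢ {η : V → V | η u = w} ∧ path q.2 w (cnt q.2 (a - q.1.1)) = v}
        (fun _ => (1 : ℝ≥0∞)) (d 0, tail d) ∂futLaw K = 0 := by
      refine lintegral_eq_zero_of_ae_eq_zero ?_
      filter_upwards [ae_goodF K, measure_eq_zero_iff_ae_notMem.1 h] with d hd h1
      refine Set.indicator_of_notMem (fun b => h1 ?_) _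
      obtain ⟨⟨b1, b2⟩, b3⟩ := b
      rw [cnt_tail hd (le_trans b1 (by linarith)), path_tail, show (d 0).2 u = w from b2]
      exact b3
    replace e := (e0.symm.trans e).symm
    rw [lintegral_eq_zero_iff (measurable_one.indicator hm).lintegral_prod_right'] at e
    have : jumpLaw K (Set.Iic (a / 2) ×ˢ {η : V → V | η u = w}) = 0 := by
      refine measure_eq_zero_iff_ae_notMem.2 (e.mono fun j hj b => ih (a := a - j.1) ?_ ?_)
      · linarith [show j.1 ≤ a / 2 from b.1]
      · have m1 : MeasurableSet {d : Fut V | path d w (cnt d (a - j.1)) = v} :=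
          dm_posAt measurable_id measurable_const w v
        rw [← lintegral_indicator_one m1]
        refine Eq.trans (lintegral_congr fun d => ?_) hj
        simp only [Set.indicator, Set.mem_ofPred_eq, b, true_and, Pi.one_apply]
    rw [jump_box] at this
    exact mul_ne_zero (exp_Iic (by linarith)) huw this

theorem measurable_step' (ty : V → Bool) (br : V → ℝ) (cap : Bool → ℝ≥0∞) (x : V) :
    Measurable fun q : (V → Loc V) × (V → V) => step ty br cap q.1 x q.2 :=
  measurable_step cap measurable_const measurable_const x _ _ measurable_fst measurable_snd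

theorem collide_fin {ty : V → Bool} {br : V → ℝ} (hbr : Injective br) {cap : Bool → ℝ≥0∞}
    (hc : cap true = ⊤) {r : V → ℝ} (hr : ∀ y, 0 ≤ r y) {W : Finset V} {x y : V} (hxy : x ≠ y)
    (hx : x ∈ W) (hy : y ∈ W) (tx : ty x = true) {T : ℝ} (hT : 0 ≤ T) (u v : V) :
    futLaw K {d | path d u (cnt d (r x)) = v} * futLaw K {d | r y < (d 0).1} *
      nu K {φ | let σ := fold (step ty br cap) (init W) (word r φ W T)
        ((σ x).Active ∧ (σ x).pos = u) ∧ (σ y).Active ∧ (σ y).pos = v} ≤
    nu K {φ | let σ := fold (step ty br cap) (init W) (word r φ W T)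
        let τ := fold (step ty br cap) (init W) (word r φ W (T + 1))
        (((σ x).Active ∧ (σ x).pos = u) ∧ (σ y).Active ∧ (σ y).pos = v) ∧
          (¬ (τ x).Active ∨ ¬ (τ y).Active)} := by
  have d1 : ∀ z, DM fun q : (V → Loc V) × (V → Loc V) => q.1 z :=
    fun z => .of_measurable (by fun_prop)
  have d2 : ∀ z, DM fun q : (V → Loc V) × (V → Loc V) => q.2 z :=
    fun z => .of_measurable (by fun_prop)
  have hE : MeasurableSet {q : (V → Loc V) × (V → Loc V) |
      ((q.1 x).Active ∧ (q.1 x).pos = u) ∧ (q.1 y).Active ∧ (q.1 y).pos = v} :=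
    ((d1 x).prop fun l => l.Active ∧ l.pos = u).inter ((d1 y).prop fun l => l.Active ∧ l.pos = v)
  have hH : MeasurableSet {q : (V → Loc V) × (V → Loc V) |
      (((q.1 x).Active ∧ (q.1 x).pos = u) ∧ (q.1 y).Active ∧ (q.1 y).pos = v) ∧
        (¬ (q.2 x).Active ∨ ¬ (q.2 y).Active)} :=
    hE.inter (((d2 x).prop fun l => ¬ l.Active).union ((d2 y).prop fun l => ¬ l.Active))
  have hf : ∀ T, Measurable fun φ => fold (step ty br cap) (init W) (word r φ W T) := fun T =>
    measurable_fold (stp := fun _ => step ty br cap)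
      (fun x σ η a b => (measurable_step' ty br cap x).comp (a.prodMk b)) measurable_const
      measurable_id measurable_const measurable_const W
  have := markov K (W := W) hr (measurable_step' ty br cap) (measurable_one.indicator hH)
    (init W) hT zero_le_one
  refine le_trans (le_of_eq (lintegral_indicator_const (((hf T).prodMk (hf T)) hE) _).symm)
    (le_trans (lintegral_mono fun φ => ?_) (this.trans (le_of_eq
      (lintegral_indicator_one (((hf T).prodMk (hf (T + 1))) hH)))))
  refine Set.indicator_apply_le' (fun a => ?_) fun _ => zero_le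
  have i1 : Inv ty cap W (fold (step ty br cap) (init W) (word r φ W T)) := inv_init.fold _ _
  have i2 : Stab ty cap (fold (step ty br cap) (init W) (word r φ W T)) :=
    stab_init.fold hbr inv_init _
  change (_ ∧ _) ∧ _ ∧ _ at a
  dsimp only at a ⊢
  generalize fold (step ty br cap) (init W) (word r φ W T) = σ at a i1 i2
  have m1 : MeasurableSet {d : Fut V | path d u (cnt d (r x)) = v} :=
    dm_posAt measurable_id measurable_const u v
  have m2 : MeasurableSet {d : Fut V | r y < (d 0).1} :=
    measurableSet_lt measurable_const (by fun_prop)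
  rw [← Measure.prod_prod, ← Measure.infinitePi_map_eval_prod (P := fun _ : V => futLaw K) hxy,
    Measure.map_apply (by fun_prop) (m1.prod m2),
    ← lintegral_indicator_one ((by fun_prop : Measurable fun ψ : V → Fut V => (ψ x, ψ y))
      (m1.prod m2))]
  refine lintegral_mono_ae ((ae_good' K r W).mono fun ψ hG => ?_)
  refine Set.indicator_apply_le' (fun ⟨b1, b2⟩ => ?_) fun _ => zero_le
  rw [Set.indicator_of_mem]
  · rfl
  refine ⟨a, not_and_or.1 fun ⟨c1, c2⟩ => hxy ((i2.fold hbr i1 _).uniq hc c1 c2 ?_ tx)⟩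
  rw [run_pos hr hG zero_le_one hx, run_pos hr hG zero_le_one hy, mul_one, mul_one, a.1.2, a.2.2,
    cnt_eq_zero (hG.gf y hy) b2, path]
  exact b1

theorem tendsto_law (h : Setting G K Γ) (c : Par) {P : Finset V → Omega V → Prop}
    {Q : Omega V → Prop} (hP : ∀ W, MeasurableSet {ω | P W ω}) (hQ : MeasurableSet {ω | Q ω})
    (he : ∀ ω, GoodO c ω → ∀ᶠ W in atTop, P W ω ↔ Q ω) :
    Tendsto (fun W => law K {ω | P W ω}) atTop (𝓝 (law K {ω | Q ω})) :=
  tendsto_measure_of_ae_tendsto_indicator_of_isFiniteMeasure atTop hQ hP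
    ((ae_good1 h c).mono he)

theorem ae_inj (h : Setting G K Γ) : ∀ᵐ m ∂markLaw V, Injective fun x => ((m x).2 : ℝ) := by
  have := Measure.ae_ae_of_ae_prod (ae_good1 h ⟨0, 0, 0, 0, 0⟩)
  exact this.mono fun m hm => hm.exists.choose_spec.inj

/-- `x` leads a living `A` cluster at `u` at time `T`. -/
def At (c : Par) (T : ℝ) (x u : V) (ω : Omega V) : Prop :=
  ω ∈ Lead c T x ∧ (lim c ω T x).pos = u

theorem measurableSet_at (c : Par) (T : ℝ) (x u : V) : MeasurableSet {ω | At c T x u ω} :=
  (measurableSet_lead c T x).inter ((dm_lim c T x).prop fun l => l.pos = u)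

theorem collide (h : Setting G K Γ) {c : Par} (hc : c.capA = ⊤) {x y : V} (hxy : x ≠ y) {T : ℝ}
    (hT : 0 ≤ T) (u v : V) :
    futLaw K {d | path d u (cnt d c.lamA) = v} * futLaw K {d | c.lamA < (d 0).1} *
      law K {ω | At c T x u ω ∧ At c T y v ω} ≤
    law K {ω | (At c T x u ω ∧ At c T y v ω) ∧
      (ω ∉ Lead c (T + 1) x ∨ ω ∉ Lead c (T + 1) y)} := by
  have ds : ∀ W T z, DM fun ω : Omega V => state c ω W T z := fun W T z =>
    .of_measurable ((measurable_pi_apply z).comp (measurable_state c W T))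
  have m1 : ∀ W, MeasurableSet {ω : Omega V | (isA c ω x = true ∧ isA c ω y = true) ∧
      ((state c ω W T x).Active ∧ (state c ω W T x).pos = u) ∧ (state c ω W T y).Active ∧
      (state c ω W T y).pos = v} := fun W => ((dm_isA c x _).inter (dm_isA c y _)).inter
    (((ds W T x).prop fun l => l.Active ∧ l.pos = u).inter
      ((ds W T y).prop fun l => l.Active ∧ l.pos = v))
  have m2 : ∀ W, MeasurableSet {ω : Omega V | ((isA c ω x = true ∧ isA c ω y = true) ∧
      ((state c ω W T x).Active ∧ (state c ω W T x).pos = u) ∧ (state c ω W T y).Active ∧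
      (state c ω W T y).pos = v) ∧ (¬ (state c ω W (T + 1) x).Active ∨
        ¬ (state c ω W (T + 1) y).Active)} := fun W => (m1 W).inter
    (((ds W _ x).prop fun l => ¬ l.Active).union ((ds W _ y).prop fun l => ¬ l.Active))
  have m3 := (measurableSet_at c T x u).inter (measurableSet_at c T y v)
  refine le_of_tendsto_of_tendsto (ENNReal.Tendsto.const_mul (tendsto_law h c m1 m3 ?_)
    (Or.inr (ENNReal.mul_ne_top (measure_ne_top _ _) (measure_ne_top _ _))))
    (tendsto_law h c m2 (m3.inter ((measurableSet_lead c _ x).compl.union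
      (measurableSet_lead c _ y).compl)) ?_) ?_
  · intro ω hω
    filter_upwards [hω.ev T x, hω.ev T y] with W a b
    simp only [a, b, At, Lead, Set.mem_ofPred_eq]
    tauto
  · intro ω hω
    filter_upwards [hω.ev T x, hω.ev T y, hω.ev (T + 1) x, hω.ev (T + 1) y] with W a b a' b'
    simp only [a, b, a', b', At, Lead, Set.mem_ofPred_eq]
    tauto
  · filter_upwards [eventually_ge_atTop {x, y}] with W hW
    rw [law_eq, Measure.prod_apply (m1 W), Measure.prod_apply (m2 W), ← lintegral_const_mul' _ _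
      (ENNReal.mul_ne_top (measure_ne_top _ _) (measure_ne_top _ _))]
    refine lintegral_mono_ae ((ae_inj h).mono fun m hm => ?_)
    obtain ⟨φ0⟩ : Nonempty (V → Fut V) := ⟨fun _ _ => (0, id)⟩
    by_cases a : isA c (m, φ0) x = true ∧ isA c (m, φ0) y = true
    · have := collide_fin (K := K) (ty := isA c (m, φ0)) hm (cap := capO c) hc
        (rO_nonneg c (m, φ0)) hxy (hW (by simp)) (hW (by simp)) a.1 hT u v
      have e1 : rO c (m, φ0) x = c.lamA := if_pos a.1
      have e2 : rO c (m, φ0) y = c.lamA := if_pos a.2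
      rw [e1, e2] at this
      refine le_trans (mul_le_mul_right (measure_mono fun φ b => ?_) _)
        (this.trans (measure_mono fun φ b => ?_))
      · have := b.2
        simp only [state_eq, run_eq] at this
        exact this
      · simp only [Set.mem_preimage, Set.mem_ofPred_eq, state_eq, run_eq]
        exact ⟨⟨a, b.1⟩, b.2⟩
    · refine le_trans (mul_le_mul_right (measure_mono (t := ∅) fun φ b => a b.1) _) (by simp)

theorem pair_le (h : Setting G K Γ) {c : Par} (hc : c.capA = ⊤) {T : ℝ} (hT : 0 ≤ T) {u v : V}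
    (huv : u ≠ v) (o : V) :
    futLaw K {d | path d u (cnt d c.lamA) = v} * futLaw K {d | c.lamA < (d 0).1} *
      law K {ω | (∃ x, At c T x u ω) ∧ ∃ y, At c T y v ω} ≤
    2 * law K (Lead c T o \ Lead c (T + 1) o) := by
  have mA := measurableSet_at (V := V) c T
  have mL := measurableSet_lead (V := V) c (T + 1)
  have key : ∀ u v : V, ∑' x, ∑' y, law K {ω | (At c T x u ω ∧ At c T y v ω) ∧
      ω ∉ Lead c (T + 1) x} ≤ law K (Lead c T o \ Lead c (T + 1) o) := by
    intro u v
    have m : ∀ x y, MeasurableSet {ω | (At c T x u ω ∧ At c T y v ω) ∧ ω ∉ Lead c (T + 1) x} :=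
      fun x y => ((mA x u).inter (mA y v)).inter (mL x).compl
    have := lead_transport h c T (Q := fun x ω => ω ∈ Lead c T x \ Lead c (T + 1) x)
      (fun x => (measurableSet_lead c T x).diff (mL x))
      (fun g _ ω hω x => by simp [Lead, hω.lim_act]) o u
    rw [← ENNReal.tsum_prod, ← Set.ofPred_mem_eq (s := Lead c T o \ Lead c (T + 1) o), ← this]
    simp only [← lintegral_indicator_one (m _ _)]
    rw [← lintegral_tsum fun p : V × V => (measurable_one.indicator (m p.1 p.2)).aemeasurable]
    refine lintegral_mono_ae ((ae_good1 h c).mono fun ω hω => ?_)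
    have e := tsum_ite_set {p : V × V | (At c T p.1 u ω ∧ At c T p.2 v ω) ∧
      ω ∉ Lead c (T + 1) p.1} 1
    rw [mul_one] at e
    refine le_trans (le_of_eq (Eq.trans (tsum_congr fun p => ?_) e)) (ENat.toENNReal_le.2 ?_)
    · by_cases a : (At c T p.1 u ω ∧ At c T p.2 v ω) ∧ ω ∉ Lead c (T + 1) p.1
      · simp only [Set.indicator, Set.mem_ofPred_eq, a, Pi.one_apply]
      · simp only [Set.indicator, Set.mem_ofPred_eq, a, Pi.one_apply]
    refine Set.encard_le_encard_of_injOn (f := Prod.fst) (fun p a => ⟨⟨a.1.1.1, a.2⟩, a.1.1.2⟩)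
      fun p a q b e => Prod.ext e ?_
    exact (hω.stab T).uniq hc a.1.2.1.2 b.1.2.1.2 (a.1.2.2.trans b.1.2.2.symm) a.1.2.1.1
  have e : {ω | (∃ x, At c T x u ω) ∧ ∃ y, At c T y v ω} =
      ⋃ x, ⋃ y, {ω | At c T x u ω ∧ At c T y v ω} := by ext; simp
  rw [e]
  refine (mul_le_mul_right ((measure_iUnion_le _).trans
    (ENNReal.tsum_le_tsum fun x => measure_iUnion_le _)) _).trans ?_
  simp only [← ENNReal.tsum_mul_left]
  have k2 := key v u
  rw [ENNReal.tsum_comm] at k2
  rw [two_mul]
  refine le_trans ?_ (add_le_add (key u v) k2)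
  simp only [← ENNReal.tsum_add]
  refine ENNReal.tsum_le_tsum fun x => ENNReal.tsum_le_tsum fun y => ?_
  by_cases hxy : x = y
  · have : {ω | At c T x u ω ∧ At c T y v ω} = ∅ := Set.eq_empty_of_forall_notMem
      fun ω ⟨a, b⟩ => huv (by rw [← a.2, ← b.2, hxy])
    simp [this]
  refine (collide h hc hxy hT u v).trans (le_trans (measure_mono fun ω a => ?_)
    (measure_union_le _ _))
  exact a.2.imp (fun b => ⟨a.1, b⟩) fun b => ⟨a.1.symm, b⟩

omit [MeasurableSpace V] [Countable V] [DiscreteMeasurableSpace V] in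
theorem exists_sites (h : Setting G K Γ) (L : ℕ) : ∃ t : Finset V, t.card = L ∧
    ∀ u ∈ t, ∀ v ∈ t, Relation.ReflTransGen (fun a b => K a b ≠ 0) u v ∨
      Relation.ReflTransGen (fun a b => K a b ≠ 0) v u := by
  obtain ⟨g, hg, u, h1, h2⟩ := h.access
  obtain ⟨t, t1, t2⟩ := h1.exists_subset_card_eq L
  have a1 : ∀ n : ℕ, Relation.ReflTransGen (fun a b => K a b ≠ 0) ((g ^ (n + 1)) u) ((g ^ n) u) :=
    fun n => by
      rw [pow_succ, Equiv.Perm.mul_apply]
      exact h2.lift (g ^ n) fun a b e => by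
        show K _ _ ≠ 0
        rwa [h.ker _ (Γ.pow_mem hg n)]
  have a2 : ∀ n k : ℕ, n ≤ k →
      Relation.ReflTransGen (fun a b => K a b ≠ 0) ((g ^ k) u) ((g ^ n) u) := by
    intro n k hk
    induction k, hk using Nat.le_induction with
    | base => exact .refl
    | succ k _ ih => exact (a1 k).trans ih
  refine ⟨t, t2, fun a ha b hb => ?_⟩
  obtain ⟨n, rfl⟩ := t1 ha
  obtain ⟨k, rfl⟩ := t1 hb
  exact (le_total k n).imp (a2 k n) (a2 n k)

theorem lead_small (h : Setting G K Γ) {c : Par} (hc : c.capA = ⊤) (hA : 0 < c.lamA) (o : V)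
    {ε : ℝ≥0∞} (hε : ε ≠ 0) : ∀ᶠ n : ℕ in atTop, law K (Lead c n o) < ε := by
  have mL := fun T => measurableSet_lead (V := V) c T o
  have mO : ∀ T u, MeasurableSet {ω : Omega V | ∃ x, At c T x u ω} := fun T u => by
    rw [Set.ofPred_exists]; exact MeasurableSet.iUnion fun x => measurableSet_at c T x u
  have h1 : Tendsto (fun n : ℕ => law K (Lead c n o \ Lead c (n + 1) o)) atTop (𝓝 0) := by
    refine ENNReal.tendsto_atTop_zero_of_tsum_ne_top ?_
    rw [← measure_iUnion₀ _ fun n => ((mL _).diff (mL _)).nullMeasurableSet]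
    · exact measure_ne_top _ _
    have : ∀ n k : ℕ, n < k → AEDisjoint (law K) (Lead c n o \ Lead c (n + 1) o)
        (Lead c k o \ Lead c (k + 1) o) := by
      intro n k hk
      refine measure_eq_zero_iff_ae_notMem.2
        ((ae_good1 h c).mono fun ω hω ⟨a, b⟩ => a.2 ⟨a.1.1, ?_⟩)
      exact (hω.mono (by positivity) (by exact_mod_cast hk) o).1 b.1.2
    exact fun n k hk => (lt_or_gt_of_ne hk).elim (this n k) fun a => (this k n a).symm
  have h2 : ∀ u v, u ≠ v → Relation.ReflTransGen (fun a b => K a b ≠ 0) u v →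
      Tendsto (fun n : ℕ => law K {ω | (∃ x, At c n x u ω) ∧ ∃ y, At c n y v ω}) atTop (𝓝 0) := by
    intro u v huv hr
    have h0 := mul_ne_zero (reach_pos hr (a := c.lamA) hA) (stay_pos K c.lamA.coe_nonneg)
    have h3 := ENNReal.Tendsto.const_mul (a := (futLaw K {d | path d u (cnt d c.lamA) = v} *
      futLaw K {d | c.lamA < (d 0).1})⁻¹ * 2) h1
      (Or.inr (ENNReal.mul_ne_top (ENNReal.inv_ne_top.2 h0) (by simp)))
    rw [mul_zero] at h3
    refine tendsto_of_tendsto_of_tendsto_of_le_of_le tendsto_const_nhds h3 (fun _ => zero_le)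
      fun n => ?_
    dsimp only
    rw [mul_assoc]
    refine le_trans (le_of_eq ?_) (mul_le_mul_right (pair_le h hc (Nat.cast_nonneg n) huv o) _)
    rw [← mul_assoc, ENNReal.inv_mul_cancel h0 (ENNReal.mul_ne_top (measure_ne_top _ _)
      (measure_ne_top _ _)), one_mul]
  obtain ⟨L, hL⟩ := ENNReal.exists_nat_mul_gt hε (b := 2) (by simp)
  obtain ⟨t, t1, t2⟩ := exists_sites h L
  have h3 : Tendsto (fun n : ℕ => ∑ p ∈ t.offDiag,
      law K {ω | (∃ x, At c n x p.1 ω) ∧ ∃ y, At c n y p.2 ω}) atTop (𝓝 0) := by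
    have := tendsto_finsetSum t.offDiag (f := fun p (n : ℕ) =>
      law K {ω | (∃ x, At c n x p.1 ω) ∧ ∃ y, At c n y p.2 ω}) (a := fun _ => 0) (x := atTop) ?_
    · simpa using this
    intro p hp
    obtain ⟨a1, a2, a3⟩ := Finset.mem_offDiag.1 hp
    rcases t2 _ a1 _ a2 with a | a
    · exact h2 _ _ a3 a
    · simpa only [and_comm] using h2 _ _ a3.symm a
  filter_upwards [h3.eventually (gt_mem_nhds zero_lt_one)] with n hn
  have h4 : ∀ v, law K (Lead c n o) = law K {ω | ∃ x, At c n x v ω} := by
    intro v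
    rw [← Set.ofPred_mem_eq (s := Lead c n o), ← lead_transport h c n
      (Q := fun x ω => ω ∈ Lead c n x) (fun x => measurableSet_lead c n x)
      (fun g _ ω hω x => by simp [Lead, hω.lim_act]) o v, ← lintegral_indicator_one (mO n v)]
    refine lintegral_congr_ae ((ae_good1 h c).mono fun ω hω => ?_)
    by_cases a : ∃ x, At c n x v ω
    · obtain ⟨x, hx⟩ := id a
      have : {x | ω ∈ Lead c n x ∧ (lim c ω n x).pos = v} = {x} :=
        Set.eq_singleton_iff_unique_mem.2 ⟨hx, fun y hy =>
          (hω.stab n).uniq hc hy.1.2 hx.1.2 (hy.2.trans hx.2.symm) hy.1.1⟩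
      simp [this, a]
    · have : {x | ω ∈ Lead c n x ∧ (lim c ω n x).pos = v} = ∅ :=
        Set.eq_empty_of_forall_notMem fun x hx => a ⟨x, hx⟩
      simp [this, a]
  have h5 : L * law K (Lead c n o) ≤ 1 + ∑ p ∈ t.offDiag,
      law K {ω | (∃ x, At c n x p.1 ω) ∧ ∃ y, At c n y p.2 ω} := by
    have m2 : ∀ p : V × V, MeasurableSet {ω | (∃ x, At c n x p.1 ω) ∧ ∃ y, At c n y p.2 ω} :=
      fun p => (mO n p.1).inter (mO n p.2)
    rw [← t1, ← nsmul_eq_mul, ← Finset.sum_const, Finset.sum_congr rfl fun v _ => h4 v]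
    simp only [← lintegral_indicator_one (mO _ _), ← lintegral_indicator_one (m2 _)]
    rw [← lintegral_finsetSum _ fun v _ => measurable_one.indicator (mO n v),
      ← lintegral_finsetSum _ fun p _ => measurable_one.indicator (m2 p)]
    have e1 : (1 : ℝ≥0∞) = ∫⁻ _, 1 ∂law K := by simp
    rw [e1, ← lintegral_add_left measurable_const]
    refine lintegral_mono fun ω => ?_
    simp only [Set.indicator, Set.mem_ofPred_eq, Pi.one_apply, Finset.sum_boole]
    have : (t.offDiag.filter fun p => (∃ x, At c n x p.1 ω) ∧ ∃ y, At c n y p.2 ω) =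
        (t.filter fun v => ∃ x, At c n x v ω).offDiag := by
      ext p; simp only [Finset.mem_filter, Finset.mem_offDiag]; tauto
    rw [this, Finset.offDiag_card]
    generalize (t.filter fun v => ∃ x, At c n x v ω).card = k
    have : k ≤ 1 + (k * k - k) := by
      rcases k with _ | _ | k
      · simp
      · simp
      · have : (k + 1 + 1) * (k + 1 + 1) = k * k + 3 * k + 2 + (k + 1 + 1) := by ring
        rw [this]
        omega
    exact_mod_cast this
  by_contra h6
  have h7 : (L : ℝ≥0∞) * ε ≤ 1 + 1 :=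
    (mul_le_mul_right (not_lt.1 h6) _).trans (h5.trans (add_le_add le_rfl hn.le))
  rw [one_add_one_eq_two] at h7
  exact absurd hL (not_lt.2 h7)

end Pool.Agent.P.MP_6a2a35_pr
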