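import Mathlib

/-!
Diffusion-limited annihilating-coalescing systems (DLACS): definitions.
Particles are named by their initial sites.
-/

namespace Pool.Agent.P.MP_6a2a35_pr

open MeasureTheory ProbabilityTheory Filter
open scoped ENNReal NNReal Classical

variable {V : Type*}

/-- The standing assumptions on the graph `G`, the kernel `K` and the group `Γ`. -/
structure Setting (G : SimpleGraph V) (K : V → PMF V) (Γ : Subgroup (Equiv.Perm V)) : Prop where
  infinite : Infinite V
  connected : G.Connected
  supp : ∀ u v, K u v ≠ 0 → G.Adj u v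
  adj : ∀ g ∈ Γ, ∀ u v, G.Adj (g u) (g v) ↔ G.Adj u v
  ker : ∀ g ∈ Γ, ∀ u v, K (g u) (g v) = K u v
  transitive : ∀ u v, ∃ g ∈ Γ, g u = v
  finiteOrbit : ∀ u v, {w | ∃ g ∈ Γ, g u = u ∧ g v = w}.Finite
  unimodular : ∀ u v, {w | ∃ g ∈ Γ, g u = u ∧ g v = w}.ncard
    = {w | ∃ g ∈ Γ, g v = v ∧ g u = w}.ncard
  access : ∃ g ∈ Γ, ∃ u, (Set.range fun n : ℕ => (g ^ n) u).Infinite ∧
    Relation.ReflTransGen (fun a b => K a b ≠ 0) (g u) u

/-- The motion data of one particle: for each jump an exponential holding time (for a clock of
rate one) and a random map `η` sending the position `v` to the next position `η v`. -/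
abbrev Fut (V : Type*) := ℕ → ℝ × (V → V)

/-- Sample points: for each site a pair of uniform marks (the first decides the type, the second
is the bravery) and motion data. -/
abbrev Omega (V : Type*) := (V → unitInterval × unitInterval) × (V → Fut V)

/-- All marks, holding times and values `η v` are independent; marks are uniform on `[0,1]`,
holding times are exponential of mean one, and `η v` has law `K v`. -/
noncomputable def law [MeasurableSpace V] (K : V → PMF V) : Measure (Omega V) :=
  (Measure.infinitePi fun _ : V => (volume : Measure (unitInterval × unitInterval))).prod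
    (Measure.infinitePi fun _ : V => Measure.infinitePi fun _ : ℕ =>
      (expMeasure 1).prod (Measure.infinitePi fun v : V => (K v).toMeasure))

/-- Time of jump number `n` (`n = 0, 1, ...`) of the rate one clock. -/
def arr (d : Fut V) (n : ℕ) : ℝ := ∑ k ∈ Finset.range (n + 1), (d k).1

/-- Number of jumps of the rate one clock up to time `a`. -/
noncomputable def cnt (d : Fut V) (a : ℝ) : ℕ := {n | arr d n ≤ a}.ncard

/-- The jumps `(x, n)` (jump number `n` of particle `x ∈ W`, whose clock has rate `r x`) made up
to time `T`, in chronological order. -/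
noncomputable def events (r : V → ℝ) (φ : V → Fut V) (W : Finset V) (T : ℝ) : List (V × ℕ) :=
  (W.toList.flatMap fun x => (List.range (cnt (φ x) (r x * T))).map fun n => (x, n)).insertionSort
    fun e e' => arr (φ e.1) e.2 / r e.1 ≤ arr (φ e'.1) e'.2 / r e'.1

/-- State of a particle `z`: the position on its own path, the cluster it leads (the set of
initial particles merged into it, empty once `z` has merged into a braver particle), and the
cluster that annihilated it (empty while it is alive). -/
structure Loc (V : Type*) where
  pos : V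
  cl : Finset V
  kil : Finset V

/-- `z` is present in the system: it leads a cluster and has not been annihilated. -/
def Loc.Active (l : Loc V) : Prop := l.cl.Nonempty ∧ l.kil = ∅

/-- The bravest particle with property `P`. -/
noncomputable def bravest (br : V → ℝ) (P : V → Prop) : Option V :=
  if h : ∃ z, P z ∧ ∀ y, P y → y ≠ z → br y < br z then some h.choose else none

/-- Particle `m` jumps by the map `η`. If it is present, it annihilates with the bravest present
particle of the other type at its new site; if there is none, it coalesces with the bravest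
present particle of its own type there, provided both sizes are at most the cap of the type; the
braver of the two leads the new cluster. -/
noncomputable def step (ty : V → Bool) (br : V → ℝ) (cap : Bool → ℝ≥0∞) (σ : V → Loc V)
    (m : V) (η : V → V) : V → Loc V := fun y =>
  match bravest br fun z => (σ m).Active ∧ (σ z).Active ∧ (σ z).pos = η (σ m).pos ∧ ty z ≠ ty m,
    bravest br fun z => (σ m).Active ∧ (σ z).Active ∧ (σ z).pos = η (σ m).pos ∧ ty z = ty m ∧
      z ≠ m ∧ ((σ z).cl.card : ℝ≥0∞) ≤ cap (ty m) ∧ ((σ m).cl.card : ℝ≥0∞) ≤ cap (ty m) with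
  | some z, _ =>
    if y = m then ⟨η (σ m).pos, (σ m).cl, (σ z).cl⟩
    else if y = z then ⟨(σ z).pos, (σ z).cl, (σ m).cl⟩ else σ y
  | none, some z =>
    if y = m then ⟨η (σ m).pos, if br z < br m then (σ m).cl ∪ (σ z).cl else ∅, ∅⟩
    else if y = z then ⟨(σ z).pos, if br z < br m then ∅ else (σ m).cl ∪ (σ z).cl, ∅⟩ else σ y
  | none, none => if y = m then ⟨η (σ m).pos, (σ m).cl, (σ m).kil⟩ else σ y

/-- The state at time `T` reached from `σ` when the particles of the finite set `W` move. -/
noncomputable def run (ty : V → Bool) (br : V → ℝ) (cap : Bool → ℝ≥0∞) (r : V → ℝ)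
    (φ : V → Fut V) (σ : V → Loc V) (W : Finset V) (T : ℝ) : V → Loc V :=
  (events r φ W T).foldl (fun τ e => step ty br cap τ e.1 (φ e.1 e.2).2) σ

/-- One particle of size one at each site of `W`. -/
noncomputable def init (W : Finset V) : V → Loc V :=
  fun x => ⟨x, if x ∈ W then {x} else ∅, ∅⟩

/-- The parameters `p, λ_A, λ_B, M, N`. -/
structure Par where
  p : ℝ
  lamA : ℝ≥0
  lamB : ℝ≥0
  capA : ℝ≥0∞
  capB : ℝ≥0∞

/-- The particle starting at `x` has type `A` (value `true`) with probability `p`. -/
noncomputable def isA (c : Par) (ω : Omega V) (x : V) : Bool := decide (((ω.1 x).1 : ℝ) < c.p)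

/-- State at time `T` of the system started from the particles of the finite set `W`. -/
noncomputable def state (c : Par) (ω : Omega V) (W : Finset V) (T : ℝ) : V → Loc V :=
  run (isA c ω) (fun x => (ω.1 x).2) (fun b => if b then c.capA else c.capB)
    (fun x => if isA c ω x then c.lamA else c.lamB) ω.2 (init W) W T

/-- Size of the cluster that has annihilated the cluster of `x` by time `T` in the system started
from `W` (zero if the cluster of `x` is still alive). -/
noncomputable def sizeAt (c : Par) (ω : Omega V) (x : V) (W : Finset V) (T : ℝ) : ℕ :=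
  ∑ z ∈ W, if x ∈ (state c ω W T z).cl then (state c ω W T z).kil.card else 0

/-- `S(x)` in the infinite system: the eventual value of `sizeAt` as `W` exhausts the graph and
then `T → ∞`. It is positive iff the cluster of `x` is eventually annihilated. -/
noncomputable def S (c : Par) (ω : Omega V) (x : V) : ℕ :=
  sSup {k | ∀ᶠ T in atTop, ∀ᶠ W in atTop, sizeAt c ω x W T = k}

/-- `p / (1 - p) * E[S(a_o) | a_o ↔ b] / E[S(b_o) | b_o ↔ a]`. -/
noncomputable def ratio [MeasurableSpace V] (K : V → PMF V) (o : V) (c : Par) : ℝ≥0∞ :=
  ENNReal.ofReal (c.p / (1 - c.p)) *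
    (∫⁻ ω, S c ω o ∂(law K)[|{ω | isA c ω o = true ∧ 0 < S c ω o}]) /
    ∫⁻ ω, S c ω o ∂(law K)[|{ω | isA c ω o = false ∧ 0 < S c ω o}]

/-- The critical density `p_c(M)`. -/
noncomputable def pc [MeasurableSpace V] (K : V → PMF V) (o : V) (lamA lamB : ℝ≥0)
    (M N : ℝ≥0∞) : ℝ :=
  sSup {p | p ∈ Set.Ioo (0 : ℝ) 1 ∧ ratio K o ⟨p, lamA, lamB, M, N⟩ < 1}

end Pool.Agent.P.MP_6a2a35_pr
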