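import Pool.Agent.P.MP_6a2a35_pr.Lim

/-! Mass transport identities for the infinite system. -/

namespace Pool.Agent.P.MP_6a2a35_pr

open MeasureTheory ProbabilityTheory Filter Function Topology
open scoped ENNReal NNReal Classical

variable {V : Type*} {c : Par} {ω : Omega V}

/-- The clusters of `x` and `y` annihilate each other. -/
def Kill (c : Par) (ω : Omega V) (x y : V) : Prop :=
  ∃ (n : ℕ) (z : V), x ∈ (lim c ω n z).cl ∧ y ∈ (lim c ω n z).kil

theorem GoodO.kill_symm (h : GoodO c ω) {x y : V} (hk : Kill c ω x y) :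
    Kill c ω y x ∧ isA c ω y ≠ isA c ω x := by
  obtain ⟨n, z, a1, a2⟩ := hk
  obtain ⟨z', b1, -, b3, b4⟩ := h.kill (Finset.ne_empty_of_mem a2)
  exact ⟨⟨n, z', b3 ▸ a2, b4 ▸ a1⟩, by rwa [h.hom a1, h.hom (b3 ▸ a2)]⟩

theorem GoodO.encard_kill (h : GoodO c ω) (x : V) : {y | Kill c ω x y}.encard = S c ω x := by
  by_cases a : ∃ n : ℕ, Dead (lim c ω n) x
  · obtain ⟨n, z, a1, a2⟩ := a
    rw [S_eq (h.ev_dead (Nat.cast_nonneg n) a1 a2), ← Set.encard_coe_eq_coe_finsetCard]
    congr 1
    refine Set.ext fun y => ⟨fun ⟨k, w, b1, b2⟩ => ?_, fun b => ⟨n, z, a1, b⟩⟩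
    obtain ⟨c1, c2⟩ := h.dead_mono (T' := max n k) (Nat.cast_nonneg n) (le_max_left _ _) a2
    obtain ⟨d1, d2⟩ := h.dead_mono (T' := max n k) (Nat.cast_nonneg k) (le_max_right _ _)
      (Finset.ne_empty_of_mem b2)
    obtain rfl := h.disj (c1 ▸ a1) (d1 ▸ b1)
    rw [Finset.mem_coe, ← c2, d2]
    exact b2
  · have : {y | Kill c ω x y} = ∅ := Set.eq_empty_of_forall_notMem
      fun y ⟨k, w, b1, b2⟩ => a ⟨k, w, b1, Finset.ne_empty_of_mem b2⟩
    push Not at a
    simp [this, S_eq (h.ev_never a)]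

theorem GoodO.S_le (h : GoodO c ω) {x : V} (hx : isA c ω x = true) :
    (S c ω x : ℝ≥0∞) ≤ max 1 (2 * c.capB) := by
  rcases Nat.eq_zero_or_pos (S c ω x) with a | a
  · simp [a]
  obtain ⟨n, z, a1, a2⟩ := h.S_pos.1 a
  obtain ⟨z', b1, -, b3, -⟩ := h.kill a2
  have := h.size n z'
  rw [← h.hom a1, hx, ne_eq, Bool.not_eq_true] at b1
  rwa [S_eq (h.ev_dead (Nat.cast_nonneg n) a1 a2), b3, ← show capO c false = c.capB from rfl,
    ← b1]

theorem GoodO.kill_act (h : GoodO c ω) (g : Equiv.Perm V) (x y : V) :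
    Kill c (act g ω) (g x) (g y) ↔ Kill c ω x y := by
  refine exists_congr fun n => ?_
  rw [g.surjective.exists]
  simp [h.lim_act]

theorem GoodO.dead_act (h : GoodO c ω) (g : Equiv.Perm V) (T : ℝ) (x : V) :
    Dead (lim c (act g ω) T) (g x) ↔ Dead (lim c ω T) x := by
  unfold Dead
  rw [g.surjective.exists]
  simp [h.lim_act]

variable [MeasurableSpace V] [Countable V] [DiscreteMeasurableSpace V] {G : SimpleGraph V}
  {K : V → PMF V} {Γ : Subgroup (Equiv.Perm V)}

theorem measurableSet_kill (c : Par) (x y : V) : MeasurableSet {ω : Omega V | Kill c ω x y} := by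
  simp only [Kill, Set.ofPred_exists]
  exact MeasurableSet.iUnion fun n => MeasurableSet.iUnion fun z =>
    (dm_lim c n z).prop fun l => x ∈ l.cl ∧ y ∈ l.kil

theorem measurableSet_dead (c : Par) (T : ℝ) (x : V) :
    MeasurableSet {ω : Omega V | Dead (lim c ω T) x} := by
  simp only [Dead, Set.ofPred_exists]
  exact MeasurableSet.iUnion fun z => (dm_lim c T z).prop fun l => x ∈ l.cl ∧ l.kil ≠ ∅

/-- The event that `o` has type `b` and is eventually annihilated. -/
def Dies (c : Par) (o : V) (b : Bool) : Set (Omega V) :=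
  {ω | isA c ω o = b ∧ ∃ n : ℕ, Dead (lim c ω n) o}

theorem measurableSet_dies (c : Par) (o : V) (b : Bool) : MeasurableSet (Dies c o b) := by
  refine (dm_isA c o b).inter (?_ : MeasurableSet {ω | ∃ n : ℕ, Dead (lim c ω n) o})
  rw [Set.ofPred_exists]
  exact MeasurableSet.iUnion fun n : ℕ => measurableSet_dead c n o

theorem dies_ae (h : Setting G K Γ) (c : Par) (o : V) (b : Bool) :
    {ω | isA c ω o = b ∧ 0 < S c ω o} =ᵐ[law K] Dies c o b :=
  (ae_good1 h c).mono fun _ hω => propext (and_congr_right fun _ => hω.S_pos)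

theorem lintegral_dies (h : Setting G K Γ) (c : Par) (o : V) :
    ∫⁻ ω in Dies c o true, S c ω o ∂law K = ∫⁻ ω in Dies c o false, S c ω o ∂law K := by
  have := mtp_law h c (P := fun x y ω => isA c ω x = true ∧ Kill c ω x y)
    (fun x y => (dm_isA c x true).inter (measurableSet_kill c x y))
    (fun g _ ω hω x y => by rw [isA_act, hω.kill_act]) o
  rw [← lintegral_indicator (measurableSet_dies c o _),
    ← lintegral_indicator (measurableSet_dies c o _)]
  refine (lintegral_congr_ae ?_).trans (this.trans (lintegral_congr_ae ?_)) <;>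
    filter_upwards [ae_good1 h c] with ω hω <;>
    simp only [Set.indicator, Dies, Set.mem_ofPred_eq, ← hω.S_pos]
  · by_cases a : isA c ω o = true
    · simp only [a, true_and, hω.encard_kill]
      split_ifs with b <;> simp_all
    · simp [a]
  · by_cases a : isA c ω o = true
    · have : {x | isA c ω x = true ∧ Kill c ω x o} = ∅ := Set.eq_empty_of_forall_notMem
        fun x ⟨b1, b2⟩ => (hω.kill_symm b2).2 (a.trans b1.symm)
      simp [a, this]
    · have : {x | isA c ω x = true ∧ Kill c ω x o} = {x | Kill c ω o x} := by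
        refine Set.ext fun x => ⟨fun b => (hω.kill_symm b.2).1, fun b => ⟨?_, (hω.kill_symm b).1⟩⟩
        simpa [a] using (hω.kill_symm b).2
      rw [Bool.not_eq_true] at a
      simp only [a, true_and, this, hω.encard_kill]
      split_ifs with b <;> simp_all

theorem dies_le (h : Setting G K Γ) (c : Par) (o : V) (b : Bool) :
    law K (Dies c o b) ≤ ∫⁻ ω in Dies c o b, S c ω o ∂law K := by
  rw [← setLIntegral_one]
  refine lintegral_mono_ae ((ae_restrict_iff' (measurableSet_dies c o b)).2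
    ((ae_good1 h c).mono fun ω hω a => ?_))
  exact_mod_cast hω.S_pos.2 a.2

theorem lintegral_dies_le (h : Setting G K Γ) (c : Par) (o : V) :
    ∫⁻ ω in Dies c o true, S c ω o ∂law K ≤ max 1 (2 * c.capB) * law K (Dies c o true) := by
  rw [← setLIntegral_const]
  exact lintegral_mono_ae ((ae_restrict_iff' (measurableSet_dies c o _)).2
    ((ae_good1 h c).mono fun ω hω a => hω.S_le a.1))

/-- The event that `o` has type `A` and leads a living cluster at time `T`. -/
def Lead (c : Par) (T : ℝ) (o : V) : Set (Omega V) :=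
  {ω | isA c ω o = true ∧ (lim c ω T o).Active}

theorem measurableSet_lead (c : Par) (T : ℝ) (o : V) : MeasurableSet (Lead c T o) :=
  (dm_isA c o true).inter ((dm_lim c T o).prop Loc.Active)

theorem late_le (h : Setting G K Γ) (c : Par) (o : V) (T : ℕ) :
    law K (Dies c o false) ≤ law K {ω | isA c ω o = false ∧ Dead (lim c ω T) o} +
      max 1 (2 * c.capB) * law K (Lead c T o) := by
  have hm : ∀ y z : V, MeasurableSet {ω | ω ∈ Lead c T z ∧ ∃ n : ℕ, y ∈ (lim c ω n z).kil} := by
    intro y z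
    refine (measurableSet_lead c T z).inter
      (?_ : MeasurableSet {ω | ∃ n : ℕ, y ∈ (lim c ω n z).kil})
    rw [Set.ofPred_exists]
    exact MeasurableSet.iUnion fun n => (dm_lim c n z).prop fun l => y ∈ l.kil
  have := mtp_law h c (P := fun y z ω => ω ∈ Lead c T z ∧ ∃ n : ℕ, y ∈ (lim c ω n z).kil) hm
    (fun g _ ω hω x y => by simp [Lead, hω.lim_act]) o
  have hd := (measurableSet_dies c o false).diff (measurableSet_dead c T o)
  refine (measure_le_inter_add_sdiff _ _ {ω | Dead (lim c ω T) o}).trans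
    (add_le_add (measure_mono fun ω a => ⟨a.1.1, a.2⟩) ?_)
  rw [← lintegral_indicator_one hd, ← lintegral_indicator_const (measurableSet_lead c T o)]
  refine (lintegral_mono_ae ?_).trans (this.le.trans (lintegral_mono_ae ?_)) <;>
    filter_upwards [ae_good1 h c] with ω hω
  · refine Set.indicator_apply_le' (fun ⟨⟨a1, n, a2⟩, a3⟩ => ?_) fun _ => zero_le
    obtain ⟨z, a4, a5⟩ := hω.Dead_mono (T' := (max n T : ℕ)) (Nat.cast_nonneg n)
      (by exact_mod_cast le_max_left _ _) a2
    obtain ⟨z', b1, -, -, b4⟩ := hω.kill a5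
    have b5 : (lim c ω T z').Active := by
      by_contra b5
      obtain ⟨-, b6⟩ := (hω.mono (T' := (max n T : ℕ)) (Nat.cast_nonneg T)
        (by exact_mod_cast le_max_right _ _) z').2 b5
      have b7 : o ∈ (lim c ω T z').kil := by rw [← b6, b4]; exact a4
      obtain ⟨w, -, d2, d3, d4⟩ := hω.kill (Finset.ne_empty_of_mem b7)
      exact a3 ⟨w, d3 ▸ b7, d4 ▸ d2.ne_empty⟩
    have : ({y | ω ∈ Lead c T y ∧ ∃ n : ℕ, o ∈ (lim c ω n y).kil} : Set V).Nonempty :=
      ⟨z', ⟨by simpa [← hω.hom a4, a1] using b1, b5⟩, _, b4 ▸ a4⟩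
    rw [Pi.one_apply]
    exact_mod_cast Set.one_le_encard_iff_nonempty.2 this
  · by_cases a : ω ∈ Lead c T o
    · rw [Set.indicator_of_mem a]
      refine le_trans ?_ (hω.S_le a.1)
      rw [← ENat.toENNReal_coe, ← hω.encard_kill, ENat.toENNReal_le]
      refine Set.encard_le_encard fun y ⟨_, n, b⟩ => ⟨n, o, hω.self ?_, b⟩
      exact (hω.kill (Finset.ne_empty_of_mem b)).choose_spec.2.1
    · simp [a]

theorem lead_transport (h : Setting G K Γ) (c : Par) (T : ℝ) {Q : V → Omega V → Prop}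
    (hQ : ∀ x, MeasurableSet {ω | Q x ω})
    (he : ∀ g ∈ Γ, ∀ ω, GoodO c ω → ∀ x, Q (g x) (act g ω) ↔ Q x ω) (o v : V) :
    ∫⁻ ω, ({x | Q x ω ∧ (lim c ω T x).pos = v}.encard : ℝ≥0∞) ∂law K = law K {ω | Q o ω} := by
  rw [law_invariant h c hQ he o v, ← mtp_law h c (P := fun x v ω => Q x ω ∧ (lim c ω T x).pos = v)
    (fun x y => (hQ x).inter ((dm_lim c T x).prop fun l => l.pos = y))
    (fun g hg ω hω x y => by simp [he g hg ω hω, hω.lim_act]) v, ← lintegral_indicator_one (hQ v)]
  refine lintegral_congr fun ω => ?_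
  by_cases a : Q v ω <;> simp [a]

end Pool.Agent.P.MP_6a2a35_pr
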