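import Pool.Agent.P.MP_6a2a35_pr.Theta

/-! Chronological lists of jumps: deterministic facts. -/

namespace Pool.Agent.P.MP_6a2a35_pr

open Filter Function
open scoped ENNReal NNReal Classical

variable {V : Type*}

noncomputable def tm (r : V → ℝ) (φ : V → Fut V) (e : V × ℕ) : ℝ := arr (φ e.1) e.2 / r e.1

structure GoodF (d : Fut V) : Prop where
  pos : ∀ n, 0 < (d n).1
  fin : ∀ a, {n | arr d n ≤ a}.Finite

structure Good (r : V → ℝ) (φ : V → Fut V) (W : Finset V) : Prop where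
  gf : ∀ x ∈ W, GoodF (φ x)
  inj : ∀ x ∈ W, ∀ y ∈ W, x ≠ y → 0 < r x → 0 < r y → ∀ n k, tm r φ (x, n) ≠ tm r φ (y, k)

theorem Good.mono {r : V → ℝ} {φ : V → Fut V} {W W' : Finset V} (h : Good r φ W) (hW : W' ⊆ W) :
    Good r φ W' :=
  ⟨fun x hx => h.gf x (hW hx), fun x hx y hy => h.inj x (hW hx) y (hW hy)⟩

theorem arr_zero (d : Fut V) : arr d 0 = (d 0).1 := by simp [arr]

theorem arr_succ (d : Fut V) (n : ℕ) : arr d (n + 1) = arr d n + (d (n + 1)).1 := by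
  simp [arr, Finset.sum_range_succ]

theorem arr_tail (d : Fut V) (n : ℕ) : arr (tail d) n = arr d (n + 1) - (d 0).1 := by
  simp [arr, tail, Finset.sum_range_succ' _ (n + 1)]

theorem arr_sub (a : ℝ) (d : Fut V) (n : ℕ) : arr (sub a d) n = arr d n - a := by
  induction n with
  | zero => simp [arr_zero, sub]
  | succ n ih => rw [arr_succ, arr_succ, ih]; simp [sub]; ring

theorem arr_strictMono {d : Fut V} (h : ∀ n, 0 < (d n).1) : StrictMono (arr d) :=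
  strictMono_nat_of_lt_succ fun n => by rw [arr_succ]; linarith [h (n + 1)]

theorem arr_pos {d : Fut V} (h : ∀ n, 0 < (d n).1) (n : ℕ) : 0 < arr d n :=
  lt_of_lt_of_le (by rw [arr_zero]; exact h 0) ((arr_strictMono h).monotone (Nat.zero_le n))

theorem GoodF.lt_cnt {d : Fut V} (h : GoodF d) {a : ℝ} {n : ℕ} : n < cnt d a ↔ arr d n ≤ a := by
  have hex : ∃ n, a < arr d n := by
    obtain ⟨n, hn⟩ := (h.fin a).exists_notMem
    exact ⟨n, not_le.1 hn⟩
  have : {n | arr d n ≤ a} = ↑(Finset.range (Nat.find hex)) := by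
    ext k
    simp only [Set.mem_ofPred_eq, Finset.coe_range, Set.mem_Iio, Nat.lt_find_iff, not_lt]
    exact ⟨fun hk m hm => ((arr_strictMono h.pos).monotone hm).trans hk, fun hk => hk k le_rfl⟩
  rw [cnt, this, Set.ncard_coe_finset, Finset.card_range, ← Finset.mem_range, ← Finset.mem_coe,
    ← this]
  rfl

theorem GoodF.cnt_mono {d : Fut V} (h : GoodF d) {a b : ℝ} (hab : a ≤ b) : cnt d a ≤ cnt d b :=
  le_of_forall_lt fun _ hn => h.lt_cnt.2 ((h.lt_cnt.1 hn).trans hab)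

theorem GoodF.cnt_nonpos {d : Fut V} (h : GoodF d) {a : ℝ} (ha : a ≤ 0) : cnt d a = 0 := by
  by_contra h0
  have := h.lt_cnt.1 (Nat.pos_of_ne_zero h0)
  linarith [arr_pos h.pos 0]

theorem GoodF.tail {d : Fut V} (h : GoodF d) : GoodF (tail d) := by
  refine ⟨fun n => h.pos _, fun a => ?_⟩
  refine ((h.fin (a + (d 0).1)).preimage (add_left_injective 1).injOn).subset fun n hn => ?_
  simp only [Set.mem_ofPred_eq, arr_tail, Set.mem_preimage] at hn ⊢
  linarith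

theorem GoodF.sub {d : Fut V} (h : GoodF d) {a : ℝ} (ha : a < (d 0).1) : GoodF (sub a d) := by
  refine ⟨fun n => ?_, fun b => (h.fin (b + a)).subset fun n hn => ?_⟩
  · rcases n with _ | n
    · simpa [MP_6a2a35_pr.sub] using ha
    · simpa [MP_6a2a35_pr.sub] using h.pos (n + 1)
  · simp only [Set.mem_ofPred_eq, arr_sub] at hn ⊢
    linarith

variable {r : V → ℝ} {φ : V → Fut V} {W : Finset V}

theorem lt_cnt_iff_tm {y : V} (h : GoodF (φ y)) (hy : 0 < r y) {n : ℕ} {t : ℝ} :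
    n < cnt (φ y) (r y * t) ↔ tm r φ (y, n) ≤ t := by
  rw [h.lt_cnt, tm, div_le_iff₀ hy, mul_comm]

theorem tm_pos {y : V} (h : GoodF (φ y)) (hy : 0 < r y) (n : ℕ) : 0 < tm r φ (y, n) :=
  div_pos (arr_pos h.pos n) hy

theorem tm_lt {y : V} (h : GoodF (φ y)) (hy : 0 < r y) {n k : ℕ} (hn : n < k) :
    tm r φ (y, n) < tm r φ (y, k) :=
  div_lt_div_of_pos_right (arr_strictMono h.pos hn) hy

/-- `l` is the chronological list of the jumps of particles of `W` in the time window `(a, b]`. -/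
def IsEv (r : V → ℝ) (φ : V → Fut V) (W : Finset V) (a b : ℝ) (l : List (V × ℕ)) : Prop :=
  (∀ e, e ∈ l ↔ e.1 ∈ W ∧ 0 < r e.1 ∧ a < tm r φ e ∧ tm r φ e ≤ b) ∧
    l.Pairwise fun e e' => tm r φ e < tm r φ e'

theorem IsEv.unique {a b : ℝ} {l l' : List (V × ℕ)} (h : IsEv r φ W a b l)
    (h' : IsEv r φ W a b l') : l = l' := by
  have : Std.Irrefl fun e e' => tm r φ e < tm r φ e' := ⟨fun _ => lt_irrefl _⟩
  have : Std.Antisymm fun e e' => tm r φ e < tm r φ e' :=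
    ⟨fun _ _ h1 h2 => absurd h1 (not_lt.2 h2.le)⟩
  exact h.2.eq_of_mem_iff h'.2 fun e => (h.1 e).trans (h'.1 e).symm

theorem events_isEv (hr : ∀ y, 0 ≤ r y) (hG : Good r φ W) (T : ℝ) :
    IsEv r φ W 0 T (events r φ W T) := by
  have hmem : ∀ e, e ∈ events r φ W T ↔
      e.1 ∈ W ∧ 0 < r e.1 ∧ 0 < tm r φ e ∧ tm r φ e ≤ T := by
    rintro ⟨x, n⟩
    simp only [events, List.mem_insertionSort, List.mem_flatMap, Finset.mem_toList, List.mem_map,
      List.mem_range, Prod.mk.injEq]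
    constructor
    · rintro ⟨y, hy, k, hk, rfl, rfl⟩
      have h0 : 0 < r y := by
        refine lt_of_le_of_ne (hr y) fun h0 => ?_
        rw [← h0, zero_mul, (hG.gf y hy).cnt_nonpos le_rfl] at hk
        exact absurd hk (Nat.not_lt_zero _)
      exact ⟨hy, h0, tm_pos (hG.gf y hy) h0 k, (lt_cnt_iff_tm (hG.gf y hy) h0).1 hk⟩
    · rintro ⟨h1, h2, _, h4⟩
      exact ⟨x, h1, n, (lt_cnt_iff_tm (hG.gf x h1) h2).2 h4, rfl, rfl⟩
  refine ⟨hmem, ?_⟩
  have : Std.Total fun e e' : V × ℕ => arr (φ e.1) e.2 / r e.1 ≤ arr (φ e'.1) e'.2 / r e'.1 :=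
    ⟨fun _ _ => le_total _ _⟩
  have : IsTrans (V × ℕ) fun e e' : V × ℕ =>
      arr (φ e.1) e.2 / r e.1 ≤ arr (φ e'.1) e'.2 / r e'.1 := ⟨fun _ _ _ => le_trans⟩
  have h1 : (events r φ W T).Pairwise fun e e' => tm r φ e ≤ tm r φ e' :=
    List.pairwise_insertionSort _ _
  have h2 : (events r φ W T).Nodup := by
    refine (List.perm_insertionSort _ _).nodup_iff.2 ?_
    refine List.nodup_flatMap.2 ⟨fun x _ => List.nodup_range.map fun _ _ h => by simpa using h, ?_⟩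
    refine W.nodup_toList.pairwise_of_forall_ne fun x _ y _ hxy => ?_
    simp only [Function.onFun, List.disjoint_left, List.mem_map]
    rintro _ ⟨n, _, rfl⟩ ⟨k, _, h⟩
    exact hxy (Prod.mk.inj h).1.symm
  refine (h1.and h2).imp_of_mem ?_
  rintro ⟨x, n⟩ ⟨y, k⟩ he he' ⟨h3, h4⟩
  refine lt_of_le_of_ne h3 ?_
  obtain ⟨a1, a2, -⟩ := (hmem _).1 he
  obtain ⟨b1, b2, -⟩ := (hmem _).1 he'
  by_cases hxy : x = y
  · subst hxy
    have hnk : n ≠ k := fun h => h4 (by rw [h])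
    rcases hnk.lt_or_gt with h | h
    · exact (tm_lt (hG.gf x a1) a2 h).ne
    · exact (tm_lt (hG.gf x a1) a2 h).ne'
  · exact hG.inj x a1 y b1 hxy a2 b2 n k

theorem IsEv.append {a b c : ℝ} {l l' : List (V × ℕ)} (h : IsEv r φ W a b l)
    (h' : IsEv r φ W b c l') (hab : a ≤ b) (hbc : b ≤ c) : IsEv r φ W a c (l ++ l') := by
  refine ⟨fun e => ?_, List.pairwise_append.2 ⟨h.2, h'.2, fun e he e' he' => ?_⟩⟩
  · rw [List.mem_append, h.1, h'.1]
    constructor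
    · rintro (⟨h1, h2, h3, h4⟩ | ⟨h1, h2, h3, h4⟩)
      · exact ⟨h1, h2, h3, h4.trans hbc⟩
      · exact ⟨h1, h2, hab.trans_lt h3, h4⟩
    · rintro ⟨h1, h2, h3, h4⟩
      rcases le_or_gt (tm r φ e) b with h5 | h5
      · exact Or.inl ⟨h1, h2, h3, h5⟩
      · exact Or.inr ⟨h1, h2, h5, h4⟩
  · exact ((h.1 e).1 he).2.2.2.trans_lt ((h'.1 e').1 he').2.2.1

theorem IsEv.filter_gt {a b c : ℝ} {l : List (V × ℕ)} (h : IsEv r φ W a c l) (hab : a ≤ b) :
    IsEv r φ W b c (l.filter fun e => b < tm r φ e) := by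
  refine ⟨fun e => ?_, h.2.filter _⟩
  simp only [List.mem_filter, h.1, decide_eq_true_eq]
  exact ⟨fun ⟨⟨h1, h2, _, h4⟩, h5⟩ => ⟨h1, h2, h5, h4⟩,
    fun ⟨h1, h2, h3, h4⟩ => ⟨⟨h1, h2, hab.trans_lt h3, h4⟩, h3⟩⟩

theorem IsEv.filter_mem {a b : ℝ} {l : List (V × ℕ)} (h : IsEv r φ W a b l) {C : Finset V}
    (hC : C ⊆ W) : IsEv r φ C a b (l.filter fun e => e.1 ∈ C) := by
  refine ⟨fun e => ?_, h.2.filter _⟩
  simp only [List.mem_filter, h.1, decide_eq_true_eq]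
  exact ⟨fun ⟨⟨_, h2⟩, h5⟩ => ⟨h5, h2⟩, fun ⟨h1, h2⟩ => ⟨⟨hC h1, h2⟩, h1⟩⟩

/-- The jumps in a later window. -/
theorem exists_isEv (hr : ∀ y, 0 ≤ r y) (hG : Good r φ W) {a b : ℝ} (ha : 0 ≤ a) (hab : a ≤ b) :
    ∃ l, IsEv r φ W a b l ∧ events r φ W b = events r φ W a ++ l :=
  ⟨_, (events_isEv hr hG b).filter_gt ha, (events_isEv hr hG b).unique
    ((events_isEv hr hG a).append ((events_isEv hr hG b).filter_gt ha) ha hab)⟩

theorem events_nonpos (hr : ∀ y, 0 ≤ r y) (hG : Good r φ W) {a : ℝ} (ha : a ≤ 0) :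
    events r φ W a = [] := by
  refine List.eq_nil_iff_forall_not_mem.2 fun e he => ?_
  obtain ⟨-, -, h1, h2⟩ := ((events_isEv hr hG a).1 e).1 he
  linarith

theorem IsEv.nil (hr : ∀ y, 0 ≤ r y) (hG : Good r φ W) {a b : ℝ} (h : IsEv r φ W a b [])
    (hab : a ≤ b) {y : V} (hy : y ∈ W) : cnt (φ y) (r y * b) = cnt (φ y) (r y * a) := by
  rcases (hr y).eq_or_lt with h0 | h0
  · simp [← h0]
  refine eq_of_forall_lt_iff fun n => ?_
  rw [lt_cnt_iff_tm (hG.gf y hy) h0, lt_cnt_iff_tm (hG.gf y hy) h0]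
  refine ⟨fun h1 => not_lt.1 fun h2 => ?_, fun h1 => h1.trans hab⟩
  simpa using (h.1 (y, n)).2 ⟨hy, h0, h2, h1⟩

theorem IsEv.cons (hr : ∀ y, 0 ≤ r y) (hG : Good r φ W) {a b : ℝ} {e : V × ℕ}
    {l : List (V × ℕ)} (h : IsEv r φ W a b (e :: l)) :
    IsEv r φ W (tm r φ e) b l ∧ e.1 ∈ W ∧ 0 < r e.1 ∧ a < tm r φ e ∧ tm r φ e ≤ b ∧
      e.2 = cnt (φ e.1) (r e.1 * a) ∧ cnt (φ e.1) (r e.1 * tm r φ e) = e.2 + 1 ∧
      ∀ y ∈ W, y ≠ e.1 → cnt (φ y) (r y * tm r φ e) = cnt (φ y) (r y * a) := by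
  obtain ⟨h1, h2, h3, h4⟩ := (h.1 e).1 List.mem_cons_self
  have hp := List.pairwise_cons.1 h.2
  have key : ∀ e' : V × ℕ, e'.1 ∈ W → 0 < r e'.1 →
      (tm r φ e' ≤ tm r φ e ↔ tm r φ e' ≤ a ∨ e' = e) := by
    intro e' a1 a2
    refine ⟨fun a3 => ?_, fun a3 => a3.elim (fun a4 => a4.trans h3.le) fun a4 => a4 ▸ le_rfl⟩
    by_contra hc
    push Not at hc
    rcases List.mem_cons.1 ((h.1 e').2 ⟨a1, a2, hc.1, a3.trans h4⟩) with a5 | a5
    · exact hc.2 a5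
    · exact absurd (hp.1 e' a5) (not_lt.2 a3)
  have hg := hG.gf _ h1
  refine ⟨⟨fun e' => ?_, hp.2⟩, h1, h2, h3, h4, ?_, ?_, fun y hy hne => ?_⟩
  · constructor
    · intro he'
      obtain ⟨a1, a2, -, a4⟩ := (h.1 e').1 (List.mem_cons_of_mem _ he')
      exact ⟨a1, a2, hp.1 e' he', a4⟩
    · rintro ⟨a1, a2, a3, a4⟩
      rcases List.mem_cons.1 ((h.1 e').2 ⟨a1, a2, h3.trans a3, a4⟩) with a5 | a5
      · exact absurd a3 (by simp [a5])
      · exact a5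
  · refine eq_of_forall_lt_iff fun n => ?_
    rw [lt_cnt_iff_tm hg h2]
    constructor
    · intro hn
      rcases (key (e.1, n) h1 h2).1 (tm_lt hg h2 hn).le with a1 | a1
      · exact a1
      · exact absurd (congrArg Prod.snd a1) hn.ne
    · intro hn
      by_contra hc
      rcases (not_lt.1 hc).eq_or_lt with a1 | a1
      · rw [← a1] at hn; exact absurd h3 (not_lt.2 hn)
      · exact absurd (h3.trans (tm_lt hg h2 a1)) (not_lt.2 hn)
  · refine eq_of_forall_lt_iff fun n => ?_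
    rw [lt_cnt_iff_tm hg h2, Nat.lt_succ_iff]
    constructor
    · intro hn
      by_contra hc
      exact absurd (tm_lt hg h2 (not_le.1 hc)) (not_lt.2 hn)
    · intro hn
      rcases hn.eq_or_lt with a1 | a1
      · rw [a1]
      · exact (tm_lt hg h2 a1).le
  · rcases (hr y).eq_or_lt with h0 | h0
    · simp [← h0]
    refine eq_of_forall_lt_iff fun n => ?_
    rw [lt_cnt_iff_tm (hG.gf y hy) h0, lt_cnt_iff_tm (hG.gf y hy) h0, key (y, n) hy h0]
    exact ⟨fun a1 => a1.resolve_right fun a2 => hne (congrArg Prod.fst a2), Or.inl⟩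

end Pool.Agent.P.MP_6a2a35_pr
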