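import Pool.Agent.P.MP_6a2a35_pr.Perc
import Pool.Agent.P.MP_6a2a35_pr.Couple

/-! The infinite system as a limit of finite systems. -/

namespace Pool.Agent.P.MP_6a2a35_pr

open MeasureTheory ProbabilityTheory Filter Function Topology
open scoped ENNReal NNReal Classical

variable {V : Type*}

def brO (ω : Omega V) : V → ℝ := fun x => (ω.1 x).2
def capO (c : Par) : Bool → ℝ≥0∞ := fun b => if b then c.capA else c.capB
noncomputable def rO (c : Par) (ω : Omega V) : V → ℝ :=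
  fun x => if isA c ω x then c.lamA else c.lamB

theorem state_eq (c : Par) (ω : Omega V) (W : Finset V) (T : ℝ) : state c ω W T =
    run (isA c ω) (brO ω) (capO c) (rO c ω) ω.2 (init W) W T := rfl

theorem rO_mem (c : Par) (ω : Omega V) (x : V) : rO c ω x = c.lamA ∨ rO c ω x = c.lamB := by
  unfold rO; split_ifs <;> simp

theorem rO_nonneg (c : Par) (ω : Omega V) (x : V) : 0 ≤ rO c ω x := by
  unfold rO; split_ifs <;> simp

structure GoodO (c : Par) (ω : Omega V) : Prop where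
  inj : Injective (brO ω)
  good : ∀ W, Good (rO c ω) ω.2 W
  locl : ∀ T, Locl (rO c ω) ω.2 T

noncomputable def lim (c : Par) (ω : Omega V) (T : ℝ) : V → Loc V := fun z =>
  if h : ∃ l, ∀ᶠ W in atTop, state c ω W T z = l then h.choose else ⟨z, ∅, ∅⟩

variable {c : Par} {ω : Omega V}

theorem lim_eq {T : ℝ} {z : V} {l : Loc V} (h : ∀ᶠ W in atTop, state c ω W T z = l) :
    lim c ω T z = l := by
  have h1 : ∃ l, ∀ᶠ W in atTop, state c ω W T z = l := ⟨l, h⟩
  rw [lim, dif_pos h1]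
  obtain ⟨W, a1, a2⟩ := (h.and h1.choose_spec).exists
  rw [← a1, ← a2]

theorem GoodO.ev (h : GoodO c ω) (T : ℝ) (z : V) :
    ∀ᶠ W in atTop, state c ω W T z = lim c ω T z := by
  obtain ⟨D, F, a1, -, a3⟩ := h.locl T {z}
  have : ∀ᶠ W in atTop, state c ω W T z = state c ω F T z :=
    (eventually_ge_atTop F).mono fun W hW => (a3 _ _ _ W hW).1 z (a1 (Finset.mem_singleton_self z))
  rwa [lim_eq this]

theorem state_inv (W : Finset V) (T : ℝ) : Inv (isA c ω) (capO c) W (state c ω W T) := by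
  rw [state_eq, run_eq]; exact inv_init.fold _ _

theorem state_stab (h : Injective (brO ω)) (W : Finset V) (T : ℝ) :
    Stab (isA c ω) (capO c) (state c ω W T) := by
  rw [state_eq, run_eq]; exact stab_init.fold h inv_init _

theorem GoodO.ev2 (h : GoodO c ω) (T : ℝ) (z z' : V) :
    ∃ W, state c ω W T z = lim c ω T z ∧ state c ω W T z' = lim c ω T z' :=
  ((h.ev T z).and (h.ev T z')).exists

theorem GoodO.self (h : GoodO c ω) {T : ℝ} {z : V} (hz : (lim c ω T z).cl.Nonempty) :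
    z ∈ (lim c ω T z).cl := by
  obtain ⟨W, a, -⟩ := h.ev2 T z z
  rw [← a] at hz ⊢
  exact (state_inv W T).self z hz

theorem GoodO.disj (h : GoodO c ω) {T : ℝ} {x z z' : V} (hz : x ∈ (lim c ω T z).cl)
    (hz' : x ∈ (lim c ω T z').cl) : z = z' := by
  obtain ⟨W, a, b⟩ := h.ev2 T z z'
  exact (state_inv W T).disj x z z' (a ▸ hz) (b ▸ hz')

theorem GoodO.hom (h : GoodO c ω) {T : ℝ} {x z : V} (hz : x ∈ (lim c ω T z).cl) :
    isA c ω x = isA c ω z := by
  obtain ⟨W, a, -⟩ := h.ev2 T z z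
  exact (state_inv W T).hom x z (a ▸ hz)

theorem GoodO.size (h : GoodO c ω) (T : ℝ) (z : V) :
    ((lim c ω T z).cl.card : ℝ≥0∞) ≤ max 1 (2 * capO c (isA c ω z)) := by
  obtain ⟨W, a, -⟩ := h.ev2 T z z
  exact a ▸ (state_inv W T).size z

theorem GoodO.stab (h : GoodO c ω) (T : ℝ) : Stab (isA c ω) (capO c) (lim c ω T) := by
  intro z z'
  obtain ⟨W, a, b⟩ := h.ev2 T z z'
  rw [← a, ← b]
  exact state_stab h.inj W T z z'

theorem GoodO.cover (h : GoodO c ω) (T : ℝ) (x : V) : ∃ z, x ∈ (lim c ω T z).cl := by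
  obtain ⟨D, F, -, -, a3⟩ := h.locl T {x}
  obtain ⟨W, b1, b2⟩ := ((eventually_ge_atTop F).and
    ((eventually_all_finset D).2 fun z _ => h.ev T z)).exists
  obtain ⟨z, z1, z2⟩ := (a3 (isA c ω) (brO ω) (capO c) W b1).2 x (Finset.mem_singleton_self x)
  exact ⟨z, b2 z z1 ▸ z2⟩

theorem GoodO.kill (h : GoodO c ω) {T : ℝ} {z : V} (hz : (lim c ω T z).kil ≠ ∅) :
    ∃ z', isA c ω z' ≠ isA c ω z ∧ (lim c ω T z).cl.Nonempty ∧
      (lim c ω T z).kil = (lim c ω T z').cl ∧ (lim c ω T z').kil = (lim c ω T z).cl := by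
  obtain ⟨W, b1, b2⟩ := ((h.ev T z).and
    ((eventually_all_finset (lim c ω T z).kil).2 fun z _ => h.ev T z)).exists
  obtain ⟨z', a1, a2, a3, a4⟩ := (state_inv W T).kill z (b1 ▸ hz)
  have : z' ∈ (lim c ω T z).kil := by
    rw [← b1, a3]
    exact (state_inv W T).self z' (by rw [← a3, b1]; exact Finset.nonempty_iff_ne_empty.2 hz)
  rw [b1] at a2 a3 a4
  rw [b2 z' this] at a3 a4
  exact ⟨z', a1, a2, a3, a4⟩

theorem GoodO.mono (h : GoodO c ω) {T T' : ℝ} (h0 : 0 ≤ T) (hT : T ≤ T') (z : V) :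
    ((lim c ω T' z).Active → (lim c ω T z).Active) ∧ (¬ (lim c ω T z).Active →
      (lim c ω T' z).cl = (lim c ω T z).cl ∧ (lim c ω T' z).kil = (lim c ω T z).kil) := by
  obtain ⟨W, a, b⟩ := ((h.ev T z).and (h.ev T' z)).exists
  obtain ⟨l, -, h2⟩ := run_split (rO_nonneg c ω) (h.good W) h0 hT
  rw [← a, ← b, state_eq c ω W T', h2]
  exact ⟨fold_active, fold_inactive _⟩

theorem GoodO.dead_mono (h : GoodO c ω) {T T' : ℝ} (h0 : 0 ≤ T) (hT : T ≤ T') {z : V}
    (hz : (lim c ω T z).kil ≠ ∅) :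
    (lim c ω T' z).cl = (lim c ω T z).cl ∧ (lim c ω T' z).kil = (lim c ω T z).kil :=
  (h.mono h0 hT z).2 fun a => hz a.2

/-- The cluster of `x` has been annihilated. -/
def Dead (σ : V → Loc V) (x : V) : Prop := ∃ z, x ∈ (σ z).cl ∧ (σ z).kil ≠ ∅

theorem GoodO.Dead_mono (h : GoodO c ω) {T T' : ℝ} (h0 : 0 ≤ T) (hT : T ≤ T') {x : V} :
    Dead (lim c ω T) x → Dead (lim c ω T') x := by
  rintro ⟨z, a1, a2⟩
  obtain ⟨b1, b2⟩ := h.dead_mono h0 hT a2
  exact ⟨z, b1 ▸ a1, b2 ▸ a2⟩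

theorem GoodO.ev_alive (h : GoodO c ω) (T : ℝ) (x : V) :
    ∀ᶠ W in atTop, Alive (state c ω W T) x ↔ ¬ Dead (lim c ω T) x := by
  obtain ⟨z, hz⟩ := h.cover T x
  filter_upwards [h.ev T z] with W hW
  constructor
  · rintro ⟨y, a1, a2⟩ ⟨y', b1, b2⟩
    rw [(state_inv W T).disj x y z a1 (hW ▸ hz), hW] at a2
    exact b2 (h.disj b1 hz ▸ a2)
  · intro a
    refine ⟨z, hW ▸ hz, ?_⟩
    by_contra b
    exact a ⟨z, hz, hW ▸ b⟩

theorem GoodO.ev_size (h : GoodO c ω) {T : ℝ} {x z : V} (hz : x ∈ (lim c ω T z).cl) :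
    ∀ᶠ W in atTop, sizeAt c ω x W T = (lim c ω T z).kil.card := by
  filter_upwards [h.ev T z] with W hW
  rw [← hW] at hz ⊢
  rw [sizeAt, Finset.sum_eq_single_of_mem z ((state_inv W T).mem ⟨x, hz⟩), if_pos hz]
  exact fun y _ hy => if_neg fun a => hy ((state_inv W T).disj x y z a hz)

theorem S_eq {x : V} {k : ℕ} (h : ∀ᶠ T in atTop, ∀ᶠ W in atTop, sizeAt c ω x W T = k) :
    S c ω x = k := by
  have : {k | ∀ᶠ T in atTop, ∀ᶠ W in atTop, sizeAt c ω x W T = k} = {k} := by
    refine Set.eq_singleton_iff_unique_mem.2 ⟨h, fun k' h' => ?_⟩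
    obtain ⟨T, a, b⟩ := (h.and h').exists
    obtain ⟨W, a, b⟩ := (a.and b).exists
    rw [← a, ← b]
  rw [S, this, csSup_singleton]

theorem GoodO.ev_dead (h : GoodO c ω) {T : ℝ} (h0 : 0 ≤ T) {x z : V} (hz : x ∈ (lim c ω T z).cl)
    (hk : (lim c ω T z).kil ≠ ∅) :
    ∀ᶠ T' in atTop, ∀ᶠ W in atTop, sizeAt c ω x W T' = (lim c ω T z).kil.card := by
  filter_upwards [eventually_ge_atTop T] with T' hT
  obtain ⟨b1, b2⟩ := h.dead_mono h0 hT hk
  exact b2 ▸ h.ev_size (b1 ▸ hz)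

theorem GoodO.ev_never (h : GoodO c ω) {x : V} (hx : ∀ n : ℕ, ¬ Dead (lim c ω n) x) :
    ∀ᶠ T' in atTop, ∀ᶠ W in atTop, sizeAt c ω x W T' = 0 := by
  filter_upwards [eventually_ge_atTop 0] with T hT
  obtain ⟨z, hz⟩ := h.cover T x
  have : (lim c ω T z).kil = ∅ := by
    by_contra a
    exact hx ⌈T⌉₊ (h.Dead_mono hT (Nat.le_ceil T) ⟨z, hz, a⟩)
  simpa [this] using h.ev_size hz

theorem GoodO.S_pos (h : GoodO c ω) {x : V} : 0 < S c ω x ↔ ∃ n : ℕ, Dead (lim c ω n) x := by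
  constructor
  · intro a
    by_contra b
    push Not at b
    exact a.ne' (S_eq (h.ev_never b))
  · rintro ⟨n, z, a1, a2⟩
    rw [S_eq (h.ev_dead (Nat.cast_nonneg n) a1 a2)]
    exact Finset.card_pos.2 (Finset.nonempty_iff_ne_empty.2 a2)

theorem GoodO.wellposed (h : GoodO c ω) (x : V) :
    ∀ᶠ T in atTop, ∀ᶠ W in atTop, sizeAt c ω x W T = S c ω x := by
  by_cases a : ∃ n : ℕ, Dead (lim c ω n) x
  · obtain ⟨n, z, a1, a2⟩ := a
    rw [S_eq (h.ev_dead (Nat.cast_nonneg n) a1 a2)]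
    exact h.ev_dead (Nat.cast_nonneg n) a1 a2
  · push Not at a
    rw [S_eq (h.ev_never a)]
    exact h.ev_never a

@[simp] theorem isA_act (g : Equiv.Perm V) (x : V) : isA c (act g ω) (g x) = isA c ω x := by
  simp [isA, act]

theorem GoodO.lim_act (h : GoodO c ω) (g : Equiv.Perm V) (T : ℝ) (z : V) :
    lim c (act g ω) T (g z) = actL g (lim c ω T z) := by
  refine lim_eq ?_
  have ht : Tendsto (fun W : Finset V => W.map g.symm.toEmbedding) atTop atTop :=
    tendsto_atTop_finset_of_monotone (fun _ _ a => Finset.map_subset_map.2 a)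
      fun x => ⟨{g x}, by simp⟩
  filter_upwards [ht.eventually (h.ev T z)] with W hW
  have e : W = (W.map g.symm.toEmbedding).map g.toEmbedding := by ext; simp
  have := run_act g (ty := isA c ω) (isA_act g) (br := brO ω) (br' := brO (act g ω))
    (fun x => by simp [brO, act]) (rO_nonneg c ω) (r' := rO c (act g ω))
    (fun x => by simp [rO]) (capO c) (h.good (W.map g.symm.toEmbedding)) T
  rw [← e] at this
  rw [← hW, state_eq c ω, ← actS_apply g, ← this]
  rfl

theorem GoodO.lim_cap {p : ℝ} {a b : ℝ≥0} {N : ℝ≥0∞} (h : GoodO ⟨p, a, b, ⊤, N⟩ ω) (T : ℝ) (D : Finset V) :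
    ∀ᶠ M : ℝ≥0 in atTop, ∀ z ∈ D, lim ⟨p, a, b, M, N⟩ ω T z = lim ⟨p, a, b, ⊤, N⟩ ω T z := by
  obtain ⟨D', F, a1, -, a3⟩ := h.locl T D
  filter_upwards [eventually_ge_atTop (F.card : ℝ≥0)] with M hM z hz
  have e : ∀ M : ℝ≥0∞, lim ⟨p, a, b, M, N⟩ ω T z = state ⟨p, a, b, M, N⟩ ω F T z := fun M =>
    lim_eq ((eventually_ge_atTop F).mono fun W hW => (a3 _ _ _ W hW).1 z (a1 hz))
  rw [e, e, state_eq, state_eq, run_eq, run_eq]
  have key : ∀ (w : List (V × (V → V))) (σ : V → Loc V),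
      Inv (isA ⟨p, a, b, ⊤, N⟩ ω) (capO ⟨p, a, b, ⊤, N⟩) F σ →
      fold (step (isA ⟨p, a, b, ⊤, N⟩ ω) (brO ω) (capO ⟨p, a, b, M, N⟩)) σ w =
      fold (step (isA ⟨p, a, b, ⊤, N⟩ ω) (brO ω) (capO ⟨p, a, b, ⊤, N⟩)) σ w := by
    intro w
    induction w with
    | nil => exact fun _ _ => rfl
    | cons e w ih =>
      intro σ hσ
      rw [fold_cons, fold_cons, step_cap (cap' := capO ⟨p, a, b, ⊤, N⟩), ih _ (hσ.step _ _ _)]
      intro y
      have : ((σ y).cl.card : ℝ≥0∞) ≤ M :=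
        le_trans (by exact_mod_cast Finset.card_le_card (hσ.sub y)) (ENNReal.coe_le_coe.2 hM)
      simp only [capO]
      split_ifs <;> simp [this]
  exact congrFun (key _ _ inv_init) z

variable [MeasurableSpace V] [Countable V] [DiscreteMeasurableSpace V] {G : SimpleGraph V}
  {K : V → PMF V} {Γ : Subgroup (Equiv.Perm V)}

theorem ae_goodO (h : Setting G K Γ) (a b : ℝ≥0) :
    ∀ᵐ ω ∂law K, ∀ p M N, GoodO ⟨p, a, b, M, N⟩ ω := by
  have h1 : ∀ᵐ m ∂markLaw V, ∀ x y, x ≠ y → ((m x).2 : ℝ) ≠ (m y).2 := by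
    refine ae_all_iff.2 fun x => ae_all_iff.2 fun y => ?_
    by_cases hxy : x = y
    · simp [hxy]
    have hm : MeasurableSet {q : (unitInterval × unitInterval) × (unitInterval × unitInterval) |
        q.1.2 = q.2.2} := measurableSet_eq_fun (by fun_prop) (by fun_prop)
    have h1 : (volume : Measure (unitInterval × unitInterval)).prod volume
        {q : (unitInterval × unitInterval) × (unitInterval × unitInterval) | q.1.2 = q.2.2} = 0 := by
      rw [Measure.prod_apply hm]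
      refine lintegral_eq_zero_of_ae_eq_zero (ae_of_all _ fun d => ?_)
      have : Prod.mk d ⁻¹' {q : (unitInterval × unitInterval) × (unitInterval × unitInterval) |
          q.1.2 = q.2.2} = Set.univ ×ˢ {d.2} := by ext; simp [eq_comm]
      simp [this, Measure.volume_eq_prod]
    rw [← Measure.infinitePi_map_eval_prod
      (P := fun _ : V => (volume : Measure (unitInterval × unitInterval))) hxy,
      Measure.map_apply (by fun_prop) hm] at h1
    simpa [ae_iff, markLaw, hxy, Subtype.val_inj] using h1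
  filter_upwards [(measurePreserving_fst (μ := markLaw V)
    (ν := nu K)).quasiMeasurePreserving.ae h1, (measurePreserving_snd (μ := markLaw V)
    (ν := nu K)).quasiMeasurePreserving.ae (ae_locl h a.2 b.2)] with ω a1 a2 p M N
  have := a2 _ (rO_mem ⟨p, a, b, M, N⟩ ω)
  exact ⟨fun x y e => by_contra fun d => a1 x y d e, this.1, this.2⟩

theorem ae_good1 (h : Setting G K Γ) (c : Par) : ∀ᵐ ω ∂law K, GoodO c ω :=
  (ae_goodO h c.lamA c.lamB).mono fun _ a => a _ _ _

omit [Countable V] [DiscreteMeasurableSpace V] in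
theorem measurable_isA (c : Par) : Measurable (isA c : Omega V → V → Bool) :=
  measurable_pi_lambda _ fun x => measurable_to_bool (by
    have : MeasurableSet {ω : Omega V | ((ω.1 x).1 : ℝ) < c.p} :=
      measurableSet_lt (by fun_prop) measurable_const
    simpa [isA, Set.preimage] using this)

omit [Countable V] [DiscreteMeasurableSpace V] in
theorem dm_isA (c : Par) (x : V) : DM fun ω : Omega V => isA c ω x :=
  .of_measurable ((measurable_pi_apply x).comp (measurable_isA c))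

theorem measurable_state (c : Par) (W : Finset V) (T : ℝ) :
    Measurable fun ω : Omega V => state c ω W T := by
  simp only [state_eq, run_eq]
  refine measurable_fold (measurable_step _ (measurable_isA c) (by unfold brO; fun_prop))
    (measurable_pi_lambda _ fun x => ?_) measurable_snd measurable_const measurable_const W
  exact (dm_isA c x).measurable' fun b => if b then (c.lamA : ℝ) else c.lamB

theorem dm_lim (c : Par) (T : ℝ) (z : V) : DM fun ω : Omega V => lim c ω T z := by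
  have h1 : ∀ l, MeasurableSet {ω : Omega V | ∀ᶠ W in atTop, state c ω W T z = l} := by
    intro l
    simp only [eventually_atTop, Set.ofPred_exists, Set.ofPred_forall]
    exact MeasurableSet.iUnion fun _ => MeasurableSet.iInter fun W => MeasurableSet.iInter
      fun _ => DM.of_measurable ((measurable_pi_apply z).comp (measurable_state c W T)) l
  intro l
  have : {ω : Omega V | lim c ω T z = l} = {ω | ∀ᶠ W in atTop, state c ω W T z = l} ∪
      ((⋃ l, {ω | ∀ᶠ W in atTop, state c ω W T z = l})ᶜ ∩ {_ω | ⟨z, ∅, ∅⟩ = l}) := by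
    ext ω
    simp only [Set.mem_ofPred_eq, Set.mem_union, Set.mem_inter_iff, Set.mem_compl_iff,
      Set.mem_iUnion]
    by_cases a : ∃ l, ∀ᶠ W in atTop, state c ω W T z = l
    · obtain ⟨l', a⟩ := id a
      rw [lim_eq a]
      exact ⟨fun e => Or.inl (e ▸ a), fun e => e.elim (fun e => (lim_eq a).symm.trans (lim_eq e))
        fun e => absurd ‹_› e.1⟩
    · rw [lim, dif_neg a]
      exact ⟨fun e => Or.inr ⟨a, e⟩, fun e => e.elim (fun e => absurd ⟨l, e⟩ a) fun e => e.2⟩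
  rw [this]
  exact (h1 l).union ((MeasurableSet.iUnion h1).compl.inter (MeasurableSet.const _))

theorem mtp_law (h : Setting G K Γ) (c : Par) {P : V → V → Omega V → Prop}
    (hP : ∀ x y, MeasurableSet {ω | P x y ω})
    (he : ∀ g ∈ Γ, ∀ ω, GoodO c ω → ∀ x y, P (g x) (g y) (act g ω) ↔ P x y ω) (o : V) :
    ∫⁻ ω, ({y | P o y ω}.encard : ℝ≥0∞) ∂law K = ∫⁻ ω, ({x | P x o ω}.encard : ℝ≥0∞) ∂law K := by
  have e : ∀ (Q : V → Omega V → Prop), (∀ y, MeasurableSet {ω | Q y ω}) →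
      ∫⁻ ω, ({y | Q y ω}.encard : ℝ≥0∞) ∂law K = ∑' y, law K {ω | Q y ω} := by
    intro Q hQ
    simp only [← lintegral_indicator_one (hQ _)]
    rw [← lintegral_tsum fun y => (measurable_one.indicator (hQ y)).aemeasurable]
    refine lintegral_congr fun ω => ?_
    simpa [Set.indicator] using (tsum_ite_set {y | Q y ω} 1).symm
  rw [e _ (hP o), e _ fun x => hP x o]
  refine mtp h (fun x y => law K {ω | P x y ω}) (fun g hg x y => ?_) o
  rw [← (mp_act (h.ker g hg)).measure_preimage (hP _ _).nullMeasurableSet]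
  exact measure_congr ((ae_good1 h c).mono fun ω hω => propext (he g hg ω hω x y))

theorem law_invariant (h : Setting G K Γ) (c : Par) {P : V → Omega V → Prop}
    (hP : ∀ x, MeasurableSet {ω | P x ω})
    (he : ∀ g ∈ Γ, ∀ ω, GoodO c ω → ∀ x, P (g x) (act g ω) ↔ P x ω) (x y : V) :
    law K {ω | P x ω} = law K {ω | P y ω} := by
  obtain ⟨g, hg, rfl⟩ := h.transitive y x
  rw [← (mp_act (h.ker g hg)).measure_preimage (hP _).nullMeasurableSet]
  exact measure_congr ((ae_good1 h c).mono fun ω hω => propext (he g hg ω hω y))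

end Pool.Agent.P.MP_6a2a35_pr
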