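import Pool.Agent.P.MP_6a2a35_pr.Step

/-! Deterministic locality: the state of a particle depends on finitely many particles. -/

namespace Pool.Agent.P.MP_6a2a35_pr

open Function
open scoped ENNReal NNReal Classical

variable {V : Type*} {ty : V → Bool} {br : V → ℝ} {cap : Bool → ℝ≥0∞} {σ : V → Loc V} {m : V}
  {η : V → V} {W : Finset V} {r : V → ℝ} {φ : V → Fut V}

def path (d : Fut V) (v : V) : ℕ → V
  | 0 => v
  | n + 1 => (d n).2 (path d v n)

noncomputable def restr (C : Finset V) (σ : V → Loc V) : V → Loc V :=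
  fun y => if y ∈ C then σ y else ⟨y, ∅, ∅⟩

def wd (φ : V → Fut V) (l : List (V × ℕ)) : List (V × (V → V)) :=
  l.map fun e => (e.1, (φ e.1 e.2).2)

theorem restr_active {C : Finset V} {z : V} : (restr C σ z).Active ↔ z ∈ C ∧ (σ z).Active := by
  unfold restr; split_ifs with h <;> simp [h, Loc.Active]

theorem step_restr_in {C : Finset V} (hm : m ∈ C)
    (h : ∀ z, (σ z).Active → (σ z).pos = η (σ m).pos → z ∈ C) :
    restr C (step ty br cap σ m η) = step ty br cap (restr C σ) m η := by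
  have e0 : ∀ z ∈ C, restr C σ z = σ z := fun z hz => if_pos hz
  have e1 : ∀ (Q : V → Loc V → Prop), (fun z => (σ m).Active ∧ (restr C σ z).Active ∧
      (restr C σ z).pos = η (σ m).pos ∧ Q z (restr C σ z)) = fun z => (σ m).Active ∧
      (σ z).Active ∧ (σ z).pos = η (σ m).pos ∧ Q z (σ z) := by
    intro Q
    funext z
    by_cases hz : z ∈ C
    · rw [e0 z hz]
    · simp only [restr_active, hz, false_and, and_false, eq_iff_iff, false_iff]
      exact fun a => hz (h z a.2.1 a.2.2.1)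
  have e2 := e1 fun z _ => ty z ≠ ty m
  have e3 := e1 fun z l => ty z = ty m ∧ z ≠ m ∧ (l.cl.card : ℝ≥0∞) ≤ cap (ty m) ∧
    ((σ m).cl.card : ℝ≥0∞) ≤ cap (ty m)
  funext y
  unfold step
  rw [e0 m hm, e2, e3]
  by_cases hy : y ∈ C
  · rw [restr, if_pos hy, e0 y hy]
    split
    · rename_i z hz
      rw [e0 z (h z (bravest_eq_some.1 hz).1.2.1 (bravest_eq_some.1 hz).1.2.2.1)]
    · rename_i z _ hz
      rw [e0 z (h z (bravest_eq_some.1 hz).1.2.1 (bravest_eq_some.1 hz).1.2.2.1)]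
    · rfl
  · have a1 : y ≠ m := fun e => hy (e ▸ hm)
    rw [restr, if_neg hy]
    split
    · rename_i z hz
      have a2 : y ≠ z := fun e =>
        hy (e ▸ h z (bravest_eq_some.1 hz).1.2.1 (bravest_eq_some.1 hz).1.2.2.1)
      simp [a1, a2, restr, hy]
    · rename_i z _ hz
      have a2 : y ≠ z := fun e =>
        hy (e ▸ h z (bravest_eq_some.1 hz).1.2.1 (bravest_eq_some.1 hz).1.2.2.1)
      simp [a1, a2, restr, hy]
    · simp [a1, restr, hy]

theorem step_restr_out {C : Finset V} (hm : m ∉ C) (h : ∀ z ∈ C, (σ z).pos ≠ η (σ m).pos) :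
    restr C (step ty br cap σ m η) = restr C σ := by
  funext y
  unfold restr
  split_ifs with hy
  · exact step_far (fun e => hm (e ▸ hy)) (h y hy)
  · rfl

theorem step_cover {x : V} (h : ∃ z, x ∈ (σ z).cl) : ∃ z, x ∈ (step ty br cap σ m η z).cl := by
  obtain ⟨y, hy⟩ := h
  have key : ∀ (τ : V → Loc V) (a b : V), x ∈ (τ y).cl → ∃ z, x ∈ (mer τ a b z).cl := by
    intro τ a b h1
    by_cases c : y = b
    · exact ⟨a, by simp [mer_cl, ← c, h1]⟩
    · refine ⟨y, ?_⟩
      rw [mer_cl]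
      split_ifs with d <;> simp_all
  rcases step_spec (ty := ty) (br := br) (cap := cap) (σ := σ) (m := m) (η := η) with
    ⟨z, -, -, e⟩ | ⟨-, z, -, e | e⟩ | ⟨-, -, e⟩ <;> rw [e]
  · exact ⟨y, by simpa using hy⟩
  · exact key _ _ _ (by simpa using hy)
  · exact key _ _ _ (by simpa using hy)
  · exact ⟨y, by simpa using hy⟩

theorem fold_cover {x : V} (w : List (V × (V → V))) (h : ∃ z, x ∈ (σ z).cl) :
    ∃ z, x ∈ (fold (step ty br cap) σ w z).cl := by
  induction w generalizing σ with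
  | nil => exact h
  | cons e w ih => exact ih (step_cover h)

theorem step_path (hr : ∀ y, 0 ≤ r y) (hG : Good r φ W) {a b : ℝ} {e : V × ℕ}
    {l : List (V × ℕ)} (h : IsEv r φ W a b (e :: l)) {p : V → V}
    (hp : ∀ y ∈ W, (σ y).pos = path (φ y) (p y) (cnt (φ y) (r y * a))) :
    ∀ y ∈ W, (step ty br cap σ e.1 (φ e.1 e.2).2 y).pos =
      path (φ y) (p y) (cnt (φ y) (r y * tm r φ e)) := by
  obtain ⟨-, a1, -, -, -, a2, a3, a4⟩ := h.cons hr hG
  intro y hy
  rw [step_pos]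
  split_ifs with c
  · rw [c, a3, path, hp _ a1, ← a2]
  · rw [a4 y hy c, hp y hy]

theorem fold_pos (hr : ∀ y, 0 ≤ r y) (hG : Good r φ W) {a b : ℝ} {l : List (V × ℕ)}
    (h : IsEv r φ W a b l) (hab : a ≤ b) {p : V → V}
    (hp : ∀ y ∈ W, (σ y).pos = path (φ y) (p y) (cnt (φ y) (r y * a))) :
    ∀ y ∈ W, (fold (step ty br cap) σ (wd φ l) y).pos =
      path (φ y) (p y) (cnt (φ y) (r y * b)) := by
  induction l generalizing σ a with
  | nil => exact fun y hy => by rw [h.nil hr hG hab hy]; exact hp y hy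
  | cons e l ih =>
    exact ih (h.cons hr hG).1 (h.cons hr hG).2.2.2.2.1 (step_path hr hG h hp)

theorem run_pos (hr : ∀ y, 0 ≤ r y) (hG : Good r φ W) {T : ℝ} (hT : 0 ≤ T) {y : V} (hy : y ∈ W) :
    (fold (step ty br cap) σ (word r φ W T) y).pos =
      path (φ y) (σ y).pos (cnt (φ y) (r y * T)) :=
  fold_pos hr hG (events_isEv hr hG T) hT (p := fun y => (σ y).pos)
    (fun y hy => by rw [mul_zero, (hG.gf y hy).cnt_nonpos le_rfl, path]) y hy

theorem fold_restr (hr : ∀ y, 0 ≤ r y) (hG : Good r φ W) {a b : ℝ} {l : List (V × ℕ)}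
    (h : IsEv r φ W a b l) (hI : Inv ty cap W σ) {p : V → V}
    (hp : ∀ y ∈ W, (σ y).pos = path (φ y) (p y) (cnt (φ y) (r y * a))) {C : Finset V}
    (hC : C ⊆ W) {S : Set V} (hS : ∀ y ∈ W, ∀ t, a ≤ t → t ≤ b →
      (y ∈ C ↔ path (φ y) (p y) (cnt (φ y) (r y * t)) ∈ S)) :
    restr C (fold (step ty br cap) σ (wd φ l)) =
      fold (step ty br cap) (restr C σ) (wd φ (l.filter fun e => e.1 ∈ C)) := by
  induction l generalizing σ a with
  | nil => rfl
  | cons e l ih =>
    obtain ⟨a0, a1, -, a2, a3, -⟩ := h.cons hr hG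
    have hp' := step_path (ty := ty) (br := br) (cap := cap) hr hG h hp
    have h1 := ih a0 (hI.step br _ _) hp' fun y hy t h1 h2 => hS y hy t (a2.le.trans h1) h2
    have h2 : ∀ y ∈ W, y ∈ C ↔ (step ty br cap σ e.1 (φ e.1 e.2).2 y).pos ∈ S :=
      fun y hy => by rw [hp' y hy]; exact hS y hy _ a2.le a3
    have h3 := h2 _ a1
    rw [step_pos, if_pos rfl] at h3
    refine h1.trans ?_
    by_cases c : e.1 ∈ C
    · rw [List.filter_cons_of_pos (by simpa using c), step_restr_in c]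
      · rfl
      · intro z z1 z2
        by_cases d : z = e.1
        · exact d ▸ c
        · rw [h2 z (hI.mem z1.1), step_pos, if_neg d, z2]
          exact h3.1 c
    · rw [List.filter_cons_of_neg (by simpa using c), step_restr_out c]
      intro z z1 z2
      have := (h2 z (hC z1)).1 z1
      rw [step_pos, if_neg (fun d : z = e.1 => c (d ▸ z1)), z2] at this
      exact c (h3.2 this)

/-- Every particle lies in a finite group that meets no other particle in the window. -/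
def Closed (r : V → ℝ) (φ : V → Fut V) (a b : ℝ) : Prop :=
  ∀ x, ∃ (C : Finset V) (S : Set V), x ∈ C ∧ ∀ y t, a ≤ t → t ≤ b →
    (y ∈ C ↔ path (φ y) y (cnt (φ y) (r y * t)) ∈ S)

theorem Closed.finset {a b : ℝ} (h : Closed r φ a b) (D : Finset V) :
    ∃ (C : Finset V) (S : Set V), D ⊆ C ∧ ∀ y t, a ≤ t → t ≤ b →
      (y ∈ C ↔ path (φ y) y (cnt (φ y) (r y * t)) ∈ S) := by
  choose C S h1 h2 using h
  refine ⟨D.biUnion C, ⋃ x ∈ D, S x, fun x hx => Finset.mem_biUnion.2 ⟨x, hx, h1 x⟩,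
    fun y t a1 a2 => ?_⟩
  simp only [Finset.mem_biUnion, Set.mem_iUnion, exists_prop, h2 _ y t a1 a2]

def Locl (r : V → ℝ) (φ : V → Fut V) (T : ℝ) : Prop :=
  ∀ D : Finset V, ∃ D' F : Finset V, D ⊆ D' ∧ D' ⊆ F ∧ ∀ ty br cap W, F ⊆ W →
    (∀ z ∈ D', run ty br cap r φ (init W) W T z = run ty br cap r φ (init F) F T z) ∧
      ∀ x ∈ D, ∃ z ∈ D', x ∈ (run ty br cap r φ (init W) W T z).cl

theorem locl_nonpos (hr : ∀ y, 0 ≤ r y) (hG : ∀ W, Good r φ W) {T : ℝ} (hT : T ≤ 0) :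
    Locl r φ T := by
  intro D
  refine ⟨D, D, le_rfl, le_rfl, fun ty br cap W hW => ?_⟩
  simp only [run, events_nonpos hr (hG _) hT, List.foldl_nil, init]
  exact ⟨fun z hz => by simp [hz, hW hz], fun x hx => ⟨x, hx, by simp [hW hx]⟩⟩

theorem run_split (hr : ∀ y, 0 ≤ r y) (hG : Good r φ W) {a b : ℝ} (ha : 0 ≤ a) (hab : a ≤ b) :
    ∃ l, IsEv r φ W a b l ∧ ∀ ty br cap σ, run ty br cap r φ σ W b =
      fold (step ty br cap) (run ty br cap r φ σ W a) (wd φ l) := by
  obtain ⟨l, h1, h2⟩ := exists_isEv hr hG ha hab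
  refine ⟨l, h1, fun ty br cap σ => ?_⟩
  rw [run_eq, run_eq, word, h2, List.map_append, fold_append]
  rfl

theorem run_restr (hr : ∀ y, 0 ≤ r y) (hG : Good r φ W) {a b : ℝ} (ha : 0 ≤ a) (hab : a ≤ b)
    {C : Finset V} (hC : C ⊆ W) {S : Set V} (hS : ∀ y ∈ W, ∀ t, a ≤ t → t ≤ b →
      (y ∈ C ↔ path (φ y) y (cnt (φ y) (r y * t)) ∈ S)) {l : List (V × ℕ)}
    (hl : IsEv r φ C a b l) :
    restr C (run ty br cap r φ (init W) W b) =
      fold (step ty br cap) (restr C (run ty br cap r φ (init W) W a)) (wd φ l) := by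
  obtain ⟨l', h1, h2⟩ := run_split hr hG ha hab
  rw [h2, fold_restr hr hG h1 (p := id) _ _ hC hS, (h1.filter_mem hC).unique hl]
  · rw [run_eq]; exact inv_init.fold _ _
  · intro y hy
    rw [run_eq, run_pos hr hG ha hy]
    rfl

theorem Locl.step (hr : ∀ y, 0 ≤ r y) (hG : ∀ W, Good r φ W) {a b t : ℝ} (h : Locl r φ a)
    (hc : Closed r φ a b) (ha : 0 ≤ a) (h1 : a ≤ t) (h2 : t ≤ b) : Locl r φ t := by
  intro D
  obtain ⟨D1, F1, a1, -, a3⟩ := h D
  obtain ⟨C, S, b1, b2⟩ := hc.finset D1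
  obtain ⟨D2, F2, c1, c2, c3⟩ := h C
  obtain ⟨l, hl, -⟩ := exists_isEv hr (hG C) ha h1
  have key : ∀ ty br cap W, F2 ⊆ W → restr C (run ty br cap r φ (init W) W t) =
      fold (MP_6a2a35_pr.step ty br cap) (restr C (run ty br cap r φ (init W) W a)) (wd φ l) :=
    fun ty br cap W hW => run_restr hr (hG W) ha h1 (c1.trans (c2.trans hW))
      (fun y _ s s1 s2 => b2 y s s1 (s2.trans h2)) hl
  have key2 : ∀ ty br cap W, F2 ⊆ W → restr C (run ty br cap r φ (init W) W a) =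
      restr C (run ty br cap r φ (init F2) F2 a) := by
    intro ty br cap W hW
    funext y
    unfold restr
    split_ifs with hy
    · exact (c3 ty br cap W hW).1 y (c1 hy)
    · rfl
  refine ⟨C, F1 ∪ F2, a1.trans b1, c1.trans (c2.trans Finset.subset_union_right),
    fun ty br cap W hW => ⟨fun z hz => ?_, fun x hx => ?_⟩⟩
  · have e1 := key ty br cap W (Finset.subset_union_right.trans hW)
    have e2 := key ty br cap _ (Finset.subset_union_right (s₁ := F1))
    rw [key2 _ _ _ _ (Finset.subset_union_right.trans hW)] at e1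
    rw [key2 _ _ _ _ Finset.subset_union_right, ← e1] at e2
    simpa [restr, hz] using (congrFun e2 z).symm
  · obtain ⟨z, z1, z2⟩ := (a3 ty br cap W (Finset.subset_union_left.trans hW)).2 x hx
    obtain ⟨y, hy⟩ := fold_cover (ty := ty) (br := br) (cap := cap) (x := x)
      (σ := restr C (run ty br cap r φ (init W) W a)) (wd φ l) ⟨z, by simpa [restr, b1 z1]⟩
    rw [← key ty br cap W (Finset.subset_union_right.trans hW), restr] at hy
    split_ifs at hy with c
    · exact ⟨y, c, hy⟩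
    · simp at hy

theorem locl_of_closed (hr : ∀ y, 0 ≤ r y) (hG : ∀ W, Good r φ W)
    (hc : ∀ A : ℕ, ∃ δ : ℝ, 0 < δ ∧ ∀ k : ℕ, k * δ ≤ A → Closed r φ (k * δ) ((k + 1) * δ))
    (T : ℝ) : Locl r φ T := by
  obtain ⟨δ, h0, h⟩ := hc ⌈T⌉₊
  have : ∀ k : ℕ, ∀ t ≤ T, t ≤ k * δ → Locl r φ t := by
    intro k
    induction k with
    | zero => exact fun t _ ht => locl_nonpos hr hG (by simpa using ht)
    | succ k ih =>
      intro t h1 h2
      rcases le_total t (k * δ) with c | c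
      · exact ih t h1 c
      · exact (ih _ (c.trans h1) le_rfl).step hr hG (h k ((c.trans h1).trans (Nat.le_ceil T)))
          (by positivity) c (by simpa using h2)
  exact this ⌈T / δ⌉₊ T le_rfl ((div_le_iff₀ h0).1 (Nat.le_ceil _))

end Pool.Agent.P.MP_6a2a35_pr
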