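import Pool.Agent.P.MP_6a2a35_pr.Defs

/-! The mass transport principle. -/

namespace Pool.Agent.P.MP_6a2a35_pr

open scoped ENNReal NNReal Classical

variable {V : Type*} {G : SimpleGraph V} {K : V → PMF V} {Γ : Subgroup (Equiv.Perm V)}

theorem tsum_ite_set (s : Set V) (c : ℝ≥0∞) :
    ∑' x, (if x ∈ s then c else 0) = s.encard * c := by
  rw [← ENNReal.tsum_set_const, tsum_subtype s (fun _ => c)]
  simp [Set.indicator]

theorem mtp (h : Setting G K Γ) (f : V → V → ℝ≥0∞)
    (hf : ∀ g ∈ Γ, ∀ x y, f (g x) (g y) = f x y) (o : V) : ∑' y, f o y = ∑' x, f x o := by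
  set O : V → V → Set V := fun u v => {w | ∃ g ∈ Γ, g u = u ∧ g v = w} with hO
  set R : V → V → Prop := fun y x => ∃ g ∈ Γ, g o = x ∧ g y = o with hR
  set c : V → ℝ≥0∞ := fun y => ((O o y).encard : ℝ≥0∞) with hc
  have hc0 : ∀ y, c y ≠ 0 := by
    intro y
    simp only [hc, ne_eq, ENat.toENNReal_eq_zero, Set.encard_eq_zero]
    exact Set.nonempty_iff_ne_empty.1 ⟨y, 1, Γ.one_mem, rfl, rfl⟩
  have hct : ∀ y, c y ≠ ⊤ := by
    intro y
    simp only [hc, ne_eq, ENat.toENNReal_eq_top]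
    exact (h.finiteOrbit o y).encard_lt_top.ne
  have hA : ∀ y, ({x | R y x}.encard : ℝ≥0∞) = c y := by
    intro y
    obtain ⟨g0, hg0, hy⟩ := h.transitive y o
    have : {x | R y x} = g0 '' O y o := by
      ext x
      constructor
      · rintro ⟨g, hg, rfl, h2⟩
        refine ⟨g0⁻¹ (g o), ⟨g0⁻¹ * g, Γ.mul_mem (Γ.inv_mem hg0) hg, ?_, rfl⟩, by simp⟩
        simp [h2, ← hy]
      · rintro ⟨w, ⟨g, hg, h1, rfl⟩, rfl⟩
        exact ⟨g0 * g, Γ.mul_mem hg0 hg, rfl, by simp [h1, hy]⟩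
    rw [this, g0.injective.encard_image, hc]
    have h1 := (h.finiteOrbit y o).cast_ncard_eq
    have h2 := (h.finiteOrbit o y).cast_ncard_eq
    have h3 := h.unimodular o y
    simp only [hO]
    rw [← h1, ← h2, h3]
  have hB : ∀ x y, R y x → ({y' | R y' x}.encard : ℝ≥0∞) = c y := by
    rintro x y ⟨g0, hg0, h1, h2⟩
    have : {y' | R y' x} = O o y := by
      ext w
      constructor
      · rintro ⟨g, hg, h3, h4⟩
        refine ⟨g⁻¹ * g0, Γ.mul_mem (Γ.inv_mem hg) hg0, ?_, ?_⟩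
        · simp [h1, ← h3]
        · simp [h2, ← h4]
      · rintro ⟨g, hg, h3, rfl⟩
        refine ⟨g0 * g⁻¹, Γ.mul_mem hg0 (Γ.inv_mem hg), ?_, by simp [h2]⟩
        have : g⁻¹ o = o := by rw [Equiv.Perm.inv_eq_iff_eq]; exact h3.symm
        rw [Equiv.Perm.mul_apply, this, h1]
    rw [this]
  calc ∑' y, f o y = ∑' y, ∑' x, (if x ∈ {x | R y x} then f o y / c y else 0) := by
        refine tsum_congr fun y => ?_
        rw [tsum_ite_set, hA, ENNReal.mul_div_cancel (hc0 y) (hct y)]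
    _ = ∑' x, ∑' y, (if x ∈ {x | R y x} then f o y / c y else 0) := ENNReal.tsum_comm
    _ = ∑' x, f x o := by
        refine tsum_congr fun x => ?_
        obtain ⟨g0, hg0, hx⟩ := h.transitive o x
        have hR0 : R (g0⁻¹ o) x := ⟨g0, hg0, hx, by simp⟩
        have : ∀ y, (if x ∈ {x | R y x} then f o y / c y else 0) =
            if y ∈ {y' | R y' x} then f x o / c (g0⁻¹ o) else 0 := by
          intro y
          by_cases hy : R y x
          · have e1 : c y = c (g0⁻¹ o) := (hB x y hy).symm.trans (hB x _ hR0)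
            obtain ⟨g, hg, h1, h2⟩ := id hy
            have e2 : f o y = f x o := by rw [← hf g hg o y, h1, h2]
            simp [hy, e1, e2]
          · simp [hy]
        rw [tsum_congr this, tsum_ite_set, hB x _ hR0, ENNReal.mul_div_cancel (hc0 _) (hct _)]

end Pool.Agent.P.MP_6a2a35_pr
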