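import Pool.Agent.P.MP_6a2a35_pr.Mono

/-! Assembly. -/

namespace Pool.Agent.P.MP_6a2a35_pr

open MeasureTheory ProbabilityTheory Filter Function Topology
open scoped ENNReal NNReal Classical

variable {V : Type*} [MeasurableSpace V] [Countable V] [DiscreteMeasurableSpace V]
  {G : SimpleGraph V} {K : V → PMF V} {Γ : Subgroup (Equiv.Perm V)}

theorem ratio_lt_iff (h : Setting G K Γ) {c : Par} (hp : c.p ∈ Set.Ioo (0 : ℝ) 1) (hA : 0 < c.lamA)
    (hN : c.capB ≠ ⊤) (o : V) : ratio K o c < 1 ↔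
      ENNReal.ofReal (c.p / (1 - c.p)) * law K (Dies c o false) < law K (Dies c o true) := by
  have e : ∀ b, ∫⁻ ω, S c ω o ∂(law K)[|{ω | isA c ω o = b ∧ 0 < S c ω o}] =
      (law K (Dies c o b))⁻¹ * ∫⁻ ω in Dies c o b, S c ω o ∂law K := fun b => by
    rw [ProbabilityTheory.cond, measure_congr (dies_ae h c o b), Measure.restrict_congr_set (dies_ae h c o b),
      lintegral_smul_measure, smul_eq_mul]
  have a0 := dies_pos h hp hA o true
  have b0 := dies_pos h hp hA o false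
  have a1 := measure_ne_top (law K) (Dies c o true)
  have b1 := measure_ne_top (law K) (Dies c o false)
  have e0 : ∫⁻ ω in Dies c o true, S c ω o ∂law K ≠ 0 :=
    fun d => a0 (le_antisymm ((dies_le h c o true).trans d.le) zero_le)
  have e1 : ∫⁻ ω in Dies c o true, S c ω o ∂law K ≠ ⊤ :=
    ne_top_of_le_ne_top (ENNReal.mul_ne_top (max_lt ENNReal.one_lt_top
      (ENNReal.mul_lt_top (by simp) hN.lt_top)).ne a1) (lintegral_dies_le h c o)
  rw [ratio, e, e, ← lintegral_dies h]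
  generalize ∫⁻ ω in Dies c o true, S c ω o ∂law K = E at e0 e1
  generalize law K (Dies c o true) = A at a0 a1
  generalize law K (Dies c o false) = B at b0 b1
  rw [← mul_assoc, ENNReal.mul_div_mul_right _ _ e0 e1, div_eq_mul_inv, inv_inv, mul_right_comm,
    ← div_eq_mul_inv, ENNReal.div_lt_iff (Or.inl a0) (Or.inl a1), one_mul]

theorem ratio_zero (h : Setting G K Γ) (p : ℝ) (a : ℝ≥0) (M N : ℝ≥0∞) (o : V) :
    ratio K o ⟨p, a, 0, M, N⟩ = ratio K o ⟨p, a, 0, M, 0⟩ := by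
  have hS : ∀ᵐ ω ∂law K, S ⟨p, a, 0, M, N⟩ ω o = S ⟨p, a, 0, M, 0⟩ ω o := by
    filter_upwards [ae_good1 h ⟨p, a, 0, M, N⟩] with ω hω
    have : ∀ W T, state ⟨p, a, 0, M, N⟩ ω W T = state ⟨p, a, 0, M, 0⟩ ω W T := by
      intro W T
      rw [state_eq, state_eq, run_eq, run_eq]
      have key : ∀ (w : List (V × (V → V))) (σ : V → Loc V),
          (∀ e ∈ w, isA ⟨p, a, 0, M, N⟩ ω e.1 = true) →
          fold (step (isA ⟨p, a, 0, M, N⟩ ω) (brO ω) (capO ⟨p, a, 0, M, N⟩)) σ w =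
          fold (step (isA ⟨p, a, 0, M, N⟩ ω) (brO ω) (capO ⟨p, a, 0, M, 0⟩)) σ w := by
        intro w
        induction w with
        | nil => exact fun _ _ => rfl
        | cons e w ih =>
          intro σ hw
          rw [fold_cons, fold_cons, step_cap (cap' := capO ⟨p, a, 0, M, 0⟩),
            ih _ fun e he => hw e (List.mem_cons_of_mem _ he)]
          intro y
          rw [hw e List.mem_cons_self]
          rfl
      refine key _ _ fun e he => ?_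
      have := (mem_word (rO_nonneg _ ω) (hω.good W) he).2
      by_contra d
      simp [rO, d] at this
    simp only [S, sizeAt, this]
  have e : ∀ b, ∫⁻ ω, S ⟨p, a, 0, M, N⟩ ω o ∂(law K)[|{ω | isA ⟨p, a, 0, M, N⟩ ω o = b ∧
      0 < S ⟨p, a, 0, M, N⟩ ω o}] = ∫⁻ ω, S ⟨p, a, 0, M, 0⟩ ω o ∂(law K)[|{ω |
        isA ⟨p, a, 0, M, 0⟩ ω o = b ∧ 0 < S ⟨p, a, 0, M, 0⟩ ω o}] := by
    intro b
    have : {ω | isA ⟨p, a, 0, M, N⟩ ω o = b ∧ 0 < S ⟨p, a, 0, M, N⟩ ω o} =ᵐ[law K]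
        {ω | isA ⟨p, a, 0, M, 0⟩ ω o = b ∧ 0 < S ⟨p, a, 0, M, 0⟩ ω o} :=
      hS.mono fun ω d => propext (and_congr_right fun _ => by rw [d])
    rw [ProbabilityTheory.cond, ProbabilityTheory.cond, measure_congr this,
      Measure.restrict_congr_set this]
    exact lintegral_congr_ae (Measure.ae_smul_measure (ae_restrict_of_ae
      (hS.mono fun ω d => by dsimp only; rw [d])) _)
  rw [ratio, ratio, e, e]

theorem pc_zero (h : Setting G K Γ) (a : ℝ≥0) (M N : ℝ≥0∞) (o : V) :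
    pc K o a 0 M N = pc K o a 0 M 0 := by
  simp only [pc, ratio_zero h _ a M N o]

omit [Countable V] [DiscreteMeasurableSpace V] in
theorem pc_bdd (K : V → PMF V) (o : V) (a b : ℝ≥0) (M N : ℝ≥0∞) :
    BddAbove {p | p ∈ Set.Ioo (0 : ℝ) 1 ∧ ratio K o ⟨p, a, b, M, N⟩ < 1} :=
  ⟨1, fun _ d => d.1.2.le⟩

omit [Countable V] [DiscreteMeasurableSpace V] in
theorem pc_nonneg (K : V → PMF V) (o : V) (a b : ℝ≥0) (M N : ℝ≥0∞) : 0 ≤ pc K o a b M N :=
  Real.sSup_nonneg fun _ d => d.1.1.le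

theorem pc_le (h : Setting G K Γ) {a : ℝ≥0} (ha : 0 < a) (b : ℝ≥0) (M : ℝ≥0∞) {N : ℝ≥0∞}
    (hN : N < 1) (o : V) : pc K o a b M N ≤ pc K o a b ⊤ N := by
  refine Real.sSup_le (fun p d => le_csSup (pc_bdd K o a b ⊤ N) ⟨d.1, ?_⟩) (pc_nonneg ..)
  obtain ⟨d1, d2⟩ := dies_mono h p a b M hN o
  exact (ratio_lt_iff h (c := ⟨p, a, b, ⊤, N⟩) d.1 ha hN.ne_top o).2
    ((mul_le_mul_right d2 _).trans_lt
      (((ratio_lt_iff h (c := ⟨p, a, b, M, N⟩) d.1 ha hN.ne_top o).1 d.2).trans_le d1))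

theorem tendsto_cap (h : Setting G K Γ) (p : ℝ) (a b : ℝ≥0) (N : ℝ≥0∞) (o : V) (T : ℝ) :
    (∀ β, Tendsto (fun M : ℝ≥0 => law K {ω | isA ⟨p, a, b, M, N⟩ ω o = β ∧
      Dead (lim ⟨p, a, b, M, N⟩ ω T) o}) atTop (𝓝 (law K {ω | isA ⟨p, a, b, ⊤, N⟩ ω o = β ∧
        Dead (lim ⟨p, a, b, ⊤, N⟩ ω T) o}))) ∧
    Tendsto (fun M : ℝ≥0 => law K (Lead ⟨p, a, b, M, N⟩ T o)) atTop
      (𝓝 (law K (Lead ⟨p, a, b, ⊤, N⟩ T o))) := by
  refine ⟨fun β => tendsto_measure_of_ae_tendsto_indicator_of_isFiniteMeasure atTop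
    ((dm_isA _ o β).inter (measurableSet_dead _ T o))
    (fun M => (dm_isA _ o β).inter (measurableSet_dead _ T o)) ?_,
    tendsto_measure_of_ae_tendsto_indicator_of_isFiniteMeasure atTop (measurableSet_lead _ T o)
    (fun M => measurableSet_lead _ T o) ?_⟩ <;> filter_upwards [ae_goodO h a b] with ω hω
  · obtain ⟨z, hz⟩ := (hω p ⊤ N).cover T o
    filter_upwards [(hω p ⊤ N).lim_cap T {z}] with M hM
    have e := hM z (Finset.mem_singleton_self z)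
    refine and_congr_right fun _ => ⟨fun ⟨y, y1, y2⟩ => ⟨z, hz, ?_⟩,
      fun ⟨y, y1, y2⟩ => ⟨z, e ▸ hz, ?_⟩⟩
    · rwa [← e, (hω p M N).disj (z := z) (e ▸ hz) y1]
    · rwa [e, (hω p ⊤ N).disj hz y1]
  · filter_upwards [(hω p ⊤ N).lim_cap T {o}] with M hM
    exact and_congr_right fun _ => by rw [hM o (Finset.mem_singleton_self o)]

theorem ratio_ev (h : Setting G K Γ) {p : ℝ} (hp : p ∈ Set.Ioo (0 : ℝ) 1) {a : ℝ≥0} (ha : 0 < a)
    (b : ℝ≥0) {N : ℝ≥0∞} (hN : N ≠ ⊤) (o : V) (h1 : ratio K o ⟨p, a, b, ⊤, N⟩ < 1) :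
    ∀ᶠ M : ℝ≥0 in atTop, ratio K o ⟨p, a, b, M, N⟩ < 1 := by
  rw [ratio_lt_iff h (c := ⟨p, a, b, ⊤, N⟩) hp ha hN] at h1
  have k1 : max 1 (2 * N) ≠ ⊤ :=
    (max_lt ENNReal.one_lt_top (ENNReal.mul_lt_top (by simp) hN.lt_top)).ne
  have t0 : Tendsto (fun n : ℕ => law K (Lead ⟨p, a, b, ⊤, N⟩ n o)) atTop (𝓝 0) :=
    ENNReal.tendsto_nhds_zero.2 fun ε hε => (lead_small h rfl ha o hε.ne').mono fun _ => le_of_lt
  have t1 := ENNReal.Tendsto.const_mul (a := ENNReal.ofReal (p / (1 - p)))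
    ((tendsto_dead h ⟨p, a, b, ⊤, N⟩ o false).add
      (ENNReal.Tendsto.const_mul (a := max 1 (2 * N)) t0 (Or.inr k1))) (Or.inr ENNReal.ofReal_ne_top)
  rw [mul_zero, add_zero] at t1
  obtain ⟨n, hn⟩ := (t1.eventually_lt (tendsto_dead h ⟨p, a, b, ⊤, N⟩ o true) h1).exists
  obtain ⟨t2, t3⟩ := tendsto_cap h p a b N o n
  have t4 := ENNReal.Tendsto.const_mul (a := ENNReal.ofReal (p / (1 - p)))
    ((t2 false).add (ENNReal.Tendsto.const_mul (a := max 1 (2 * N)) t3 (Or.inr k1)))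
    (Or.inr ENNReal.ofReal_ne_top)
  filter_upwards [t4.eventually_lt (t2 true) hn] with M hM
  rw [ratio_lt_iff h (c := ⟨p, a, b, M, N⟩) hp ha hN]
  exact (mul_le_mul_right (late_le h ⟨p, a, b, M, N⟩ o n) _).trans_lt
    (hM.trans_le (measure_mono fun ω d => ⟨d.1, n, d.2⟩))

theorem pc_lower (h : Setting G K Γ) {a : ℝ≥0} (ha : 0 < a) (b : ℝ≥0) {N : ℝ≥0∞} (hN : N ≠ ⊤)
    (o : V) {q : ℝ} (hq : q < pc K o a b ⊤ N) : ∀ᶠ M : ℝ≥0 in atTop, q < pc K o a b M N := by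
  rcases lt_or_ge q 0 with d | d
  · exact .of_forall fun M => d.trans_le (pc_nonneg ..)
  have : {p | p ∈ Set.Ioo (0 : ℝ) 1 ∧ ratio K o ⟨p, a, b, ⊤, N⟩ < 1}.Nonempty := by
    by_contra e
    rw [pc, Set.not_nonempty_iff_eq_empty.1 e, Real.sSup_empty] at hq
    linarith
  obtain ⟨p, p1, p2⟩ := exists_lt_of_lt_csSup this hq
  exact (ratio_ev h p1.1 ha b hN o p1.2).mono fun M e =>
    p2.trans_le (le_csSup (pc_bdd ..) ⟨p1.1, e⟩)

theorem pc_tendsto (h : Setting G K Γ) {a : ℝ≥0} (ha : 0 < a) {b : ℝ≥0} {N : ℝ≥0∞}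
    (hN : N < 1 ∨ b = 0) (o : V) :
    Tendsto (fun M : ℝ≥0 => pc K o a b M N) atTop (𝓝 (pc K o a b ⊤ N)) := by
  wlog d : N < 1 generalizing N
  · obtain rfl := hN.resolve_left d
    simp only [pc_zero h a _ N o]
    exact this (Or.inr rfl) zero_lt_one
  exact tendsto_order.2 ⟨fun q hq => pc_lower h ha b d.ne_top o hq,
    fun q hq => .of_forall fun M => (pc_le h ha b M d o).trans_lt hq⟩

end Pool.Agent.P.MP_6a2a35_pr
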