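import Pool.Agent.P.MP_6a2a35_pr.Word

/-! Measurability of the finite systems. -/

namespace Pool.Agent.P.MP_6a2a35_pr

open MeasureTheory Filter Function
open scoped ENNReal NNReal Classical

section DM

variable {Z : Type*} [MeasurableSpace Z] {C D : Type*}

/-- Measurability for the discrete sigma-algebra on the target. -/
def DM (f : Z → C) : Prop := ∀ c, MeasurableSet {z | f z = c}

theorem DM.const (c : C) : DM fun _ : Z => c := fun _ => MeasurableSet.const _

theorem DM.set [Countable C] {f : Z → C} (hf : DM f) {P : C → Z → Prop}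
    (hP : ∀ c, MeasurableSet {z | P c z}) : MeasurableSet {z | P (f z) z} := by
  have : {z | P (f z) z} = ⋃ c, {z | f z = c} ∩ {z | P c z} := by ext z; simp
  rw [this]
  exact MeasurableSet.iUnion fun c => (hf c).inter (hP c)

theorem DM.meas [Countable C] [MeasurableSpace D] {f : Z → C} (hf : DM f) {g : C → Z → D}
    (hg : ∀ c, Measurable (g c)) : Measurable fun z => g (f z) z :=
  fun s hs => hf.set (P := fun c z => g c z ∈ s) fun c => hg c hs

theorem DM.dm [Countable C] {f : Z → C} (hf : DM f) {g : C → Z → D}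
    (hg : ∀ c, DM (g c)) : DM fun z => g (f z) z :=
  fun d => hf.set (P := fun c z => g c z = d) fun c => hg c d

theorem DM.map [Countable C] {f : Z → C} (hf : DM f) (g : C → D) : DM fun z => g (f z) :=
  hf.dm (g := fun c _ => g c) fun _ => DM.const _

theorem DM.prop [Countable C] {f : Z → C} (hf : DM f) (P : C → Prop) :
    MeasurableSet {z | P (f z)} :=
  hf.set (P := fun c _ => P c) fun _ => MeasurableSet.const _

theorem DM.ite {p : Z → Prop} [DecidablePred p] (hp : MeasurableSet {z | p z}) {f g : Z → C}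
    (hf : DM f) (hg : DM g) : DM fun z => if p z then f z else g z := by
  intro c
  have : {z | (if p z then f z else g z) = c} =
      ({z | p z} ∩ {z | f z = c}) ∪ ({z | p z}ᶜ ∩ {z | g z = c}) := by
    ext z; by_cases h : p z <;> simp [h]
  rw [this]
  exact (hp.inter (hf c)).union (hp.compl.inter (hg c))

theorem DM.map₂ {E : Type*} [Countable C] [Countable D] {f : Z → C} {g : Z → D} (hf : DM f)
    (hg : DM g) (F : C → D → E) : DM fun z => F (f z) (g z) :=
  hf.dm (g := fun c z => F c (g z)) fun c => hg.map (F c)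

theorem DM.measurable [Countable C] [MeasurableSpace C] {f : Z → C} (hf : DM f) : Measurable f :=
  fun s _ => hf.prop (· ∈ s)

theorem DM.measurable' [Countable C] [MeasurableSpace D] {f : Z → C} (hf : DM f) (g : C → D) :
    Measurable fun z => g (f z) :=
  fun s _ => hf.prop fun c => g c ∈ s

theorem DM.of_measurable [MeasurableSpace C] [MeasurableSingletonClass C] {f : Z → C}
    (hf : Measurable f) : DM f := fun c => hf (measurableSet_singleton c)

theorem dm_orderedInsert {E : Type*} [Countable E] {R : Z → E → E → Prop}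
    [∀ z, DecidableRel (R z)] (hR : ∀ a b, MeasurableSet {z | R z a b}) (a : E) (l : List E) :
    DM fun z => l.orderedInsert (R z) a := by
  induction l with
  | nil => exact DM.const _
  | cons b l ih =>
    simp only [List.orderedInsert_cons]
    exact DM.ite (hR a b) (DM.const _) (ih.map (List.cons b))

theorem dm_insertionSort {E : Type*} [Countable E] {R : Z → E → E → Prop}
    [∀ z, DecidableRel (R z)] (hR : ∀ a b, MeasurableSet {z | R z a b}) (l : List E) :
    DM fun z => l.insertionSort (R z) := by
  induction l with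
  | nil => exact DM.const _
  | cons b l ih =>
    simp only [List.insertionSort_cons]
    exact ih.dm (g := fun c z => c.orderedInsert (R z) b) fun c => dm_orderedInsert hR b c

end DM

variable {V : Type*} [MeasurableSpace V] {Z : Type*} [MeasurableSpace Z]

theorem measurable_arr (n : ℕ) : Measurable fun d : Fut V => arr d n := by
  unfold arr; fun_prop

theorem measurable_cnt {d : Z → Fut V} {a : Z → ℝ} (hd : Measurable d) (ha : Measurable a) :
    Measurable fun z => cnt (d z) (a z) :=
  measurable_ncard.comp (measurable_set_iff.2 fun n =>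
    measurableSet_setOfPred.1 (measurableSet_le ((measurable_arr n).comp hd) ha))

theorem dm_events [Countable V] {r : Z → V → ℝ} {φ : Z → V → Fut V} {T : Z → ℝ}
    (hr : Measurable r) (hφ : Measurable φ) (hT : Measurable T) (W : Finset V) :
    DM fun z => events (r z) (φ z) W (T z) := by
  have h1 : ∀ L : List V, DM fun z => L.flatMap fun x =>
      (List.range (cnt (φ z x) (r z x * T z))).map fun n => (x, n) := by
    intro L
    induction L with
    | nil => exact DM.const _
    | cons x L ih =>
      simp only [List.flatMap_cons]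
      exact (DM.of_measurable (measurable_cnt (d := fun z => φ z x) (a := fun z => r z x * T z)
        (by fun_prop) (by fun_prop))).map₂ ih
        fun c l => ((List.range c).map fun n => (x, n)) ++ l
  refine (h1 W.toList).dm (g := fun l z => l.insertionSort fun e e' : V × ℕ =>
    arr (φ z e.1) e.2 / r z e.1 ≤ arr (φ z e'.1) e'.2 / r z e'.1) fun l => ?_
  refine dm_insertionSort (fun a b => measurableSet_le ?_ ?_) l
  · exact ((measurable_arr a.2).comp (by fun_prop)).div (by fun_prop)
  · exact ((measurable_arr b.2).comp (by fun_prop)).div (by fun_prop)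

theorem measurable_fold [Countable V] {A : Type*} [MeasurableSpace A]
    {stp : Z → A → V → (V → V) → A}
    (hstp : ∀ x (σ : Z → A) (η : Z → V → V), Measurable σ → Measurable η →
      Measurable fun z => stp z (σ z) x (η z))
    {r : Z → V → ℝ} {φ : Z → V → Fut V} {T : Z → ℝ} {σ : Z → A}
    (hr : Measurable r) (hφ : Measurable φ) (hT : Measurable T) (hσ : Measurable σ)
    (W : Finset V) : Measurable fun z => fold (stp z) (σ z) (word (r z) (φ z) W (T z)) := by
  refine (dm_events hr hφ hT W).meas (g := fun l z =>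
    fold (stp z) (σ z) (l.map fun e => (e.1, (φ z e.1 e.2).2))) fun l => ?_
  induction l generalizing σ with
  | nil => exact hσ
  | cons e l ih => exact ih (hstp _ _ _ hσ (by fun_prop))

theorem measurable_length [Countable V] {r : Z → V → ℝ} {φ : Z → V → Fut V} {T : Z → ℝ}
    (hr : Measurable r) (hφ : Measurable φ) (hT : Measurable T) (W : Finset V) (n : ℕ) :
    MeasurableSet {z | (word (r z) (φ z) W (T z)).length = n} := by
  simp only [word, List.length_map]
  exact (dm_events hr hφ hT W).prop fun l => l.length = n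

instance : MeasurableSpace (Loc V) := ⊤

omit [MeasurableSpace V] in
instance [Countable V] : Countable (Loc V) :=
  Function.Injective.countable (f := fun l : Loc V => (l.pos, l.cl, l.kil))
    fun ⟨_, _, _⟩ ⟨_, _, _⟩ h => by simp_all

instance : DiscreteMeasurableSpace (Loc V) := ⟨fun _ => trivial⟩

omit [MeasurableSpace V] in
theorem bravest_eq_some {br : V → ℝ} {P : V → Prop} {z : V} :
    bravest br P = some z ↔ P z ∧ ∀ y, P y → y ≠ z → br y < br z := by
  unfold bravest
  split_ifs with h
  · have h1 := h.choose_spec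
    rw [Option.some.injEq]
    refine ⟨fun h2 => h2 ▸ h1, fun h2 => ?_⟩
    by_contra hc
    exact lt_asymm (h2.2 _ h1.1 hc) (h1.2 _ h2.1 (Ne.symm hc))
  · simp only [false_iff]
    exact fun h2 => h ⟨z, h2⟩

omit [MeasurableSpace V] in
theorem dm_bravest [Countable V] {br : Z → V → ℝ} {P : Z → V → Prop} (hbr : Measurable br)
    (hP : ∀ y, MeasurableSet {z | P z y}) : DM fun z => bravest (br z) (P z) := by
  have h1 : ∀ x, MeasurableSet {z | bravest (br z) (P z) = some x} := by
    intro x
    simp only [bravest_eq_some]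
    refine (hP x).inter (?_ : MeasurableSet {z | ∀ y, P z y → y ≠ x → br z y < br z x})
    rw [Set.ofPred_forall]
    refine MeasurableSet.iInter fun y => ?_
    have : MeasurableSet {z | br z y < br z x} := measurableSet_lt (by fun_prop) (by fun_prop)
    exact (hP y).imp ((MeasurableSet.const _).imp this)
  rintro (_ | x)
  · simp only [Option.eq_none_iff_forall_ne_some, Set.ofPred_forall]
    exact MeasurableSet.iInter fun x => (h1 x).compl
  · exact h1 x

theorem measurable_step [Countable V] [DiscreteMeasurableSpace V] {ty : Z → V → Bool}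
    {br : Z → V → ℝ} (cap : Bool → ℝ≥0∞) (hty : Measurable ty) (hbr : Measurable br) (m : V)
    (σ : Z → V → Loc V) (η : Z → V → V) (hσ : Measurable σ) (hη : Measurable η) :
    Measurable fun z => step (ty z) (br z) cap (σ z) m (η z) := by
  refine measurable_pi_lambda _ fun y => DM.measurable ?_
  have hs : ∀ x, DM fun z => σ z x := fun x => .of_measurable (by fun_prop)
  have ht : ∀ x, DM fun z => ty z x := fun x => .of_measurable (by fun_prop)
  have hv : DM fun z => η z (σ z m).pos :=
    (hs m).dm (g := fun c z => η z c.pos) fun c => .of_measurable (by fun_prop)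
  have hq : ∀ x, DM fun z => ((σ z m, σ z x, η z (σ z m).pos), ty z x, ty z m) := fun x =>
    ((hs m).map₂ ((hs x).map₂ hv Prod.mk) Prod.mk).map₂ ((ht x).map₂ (ht m) Prod.mk) Prod.mk
  have h1 := dm_bravest hbr (P := fun z x => (σ z m).Active ∧ (σ z x).Active ∧
    (σ z x).pos = η z (σ z m).pos ∧ ty z x ≠ ty z m) fun x =>
    (hq x).prop fun q => q.1.1.Active ∧ q.1.2.1.Active ∧ q.1.2.1.pos = q.1.2.2 ∧ q.2.1 ≠ q.2.2
  have h2 := dm_bravest hbr (P := fun z x => (σ z m).Active ∧ (σ z x).Active ∧
    (σ z x).pos = η z (σ z m).pos ∧ ty z x = ty z m ∧ x ≠ m ∧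
    ((σ z x).cl.card : ℝ≥0∞) ≤ cap (ty z m) ∧ ((σ z m).cl.card : ℝ≥0∞) ≤ cap (ty z m)) fun x =>
    (hq x).prop fun q => q.1.1.Active ∧ q.1.2.1.Active ∧ q.1.2.1.pos = q.1.2.2 ∧ q.2.1 = q.2.2 ∧
      x ≠ m ∧ (q.1.2.1.cl.card : ℝ≥0∞) ≤ cap q.2.2 ∧ (q.1.1.cl.card : ℝ≥0∞) ≤ cap q.2.2
  refine (h1.map₂ h2 Prod.mk).dm (g := fun c z => show Loc V from match c.1, c.2 with
    | some x, _ =>
      if y = m then ⟨η z (σ z m).pos, (σ z m).cl, (σ z x).cl⟩
      else if y = x then ⟨(σ z x).pos, (σ z x).cl, (σ z m).cl⟩ else σ z y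
    | none, some x =>
      if y = m then ⟨η z (σ z m).pos, if br z x < br z m then (σ z m).cl ∪ (σ z x).cl else ∅, ∅⟩
      else if y = x then ⟨(σ z x).pos, if br z x < br z m then ∅ else (σ z m).cl ∪ (σ z x).cl, ∅⟩
      else σ z y
    | none, none => if y = m then ⟨η z (σ z m).pos, (σ z m).cl, (σ z m).kil⟩ else σ z y) ?_
  have hlt : ∀ x, MeasurableSet {z | br z x < br z m} :=
    fun x => measurableSet_lt (by fun_prop) (by fun_prop)
  rintro ⟨_ | x, _ | x'⟩ <;> dsimp only
  · split_ifs
    · exact (hq m).map fun q => (⟨q.1.2.2, q.1.1.cl, q.1.1.kil⟩ : Loc V)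
    · exact hs y
  · split_ifs
    · exact hv.map₂ (DM.ite (hlt x') ((hq x').map fun q => q.1.1.cl ∪ q.1.2.1.cl) (DM.const ∅))
        fun a b => (⟨a, b, ∅⟩ : Loc V)
    · exact (hs x').map₂ (DM.ite (hlt x') (DM.const ∅)
        ((hq x').map fun q => q.1.1.cl ∪ q.1.2.1.cl)) fun a b => (⟨a.pos, b, ∅⟩ : Loc V)
    · exact hs y
  all_goals
    split_ifs
    · exact (hq x).map fun q => (⟨q.1.2.2, q.1.1.cl, q.1.2.1.cl⟩ : Loc V)
    · exact (hq x).map fun q => (⟨q.1.2.1.pos, q.1.2.1.cl, q.1.1.cl⟩ : Loc V)
    · exact hs y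

end Pool.Agent.P.MP_6a2a35_pr
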