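import Pool.Agent.P.MP_6a2a35_pr.Pos

/-! Comparison with the system with infinite cap when `B` particles do not coalesce. -/

namespace Pool.Agent.P.MP_6a2a35_pr

open MeasureTheory ProbabilityTheory Filter Function Topology
open scoped ENNReal NNReal Classical

variable {V : Type*} [MeasurableSpace V] [Countable V] [DiscreteMeasurableSpace V]
  {G : SimpleGraph V} {K : V → PMF V} {Γ : Subgroup (Equiv.Perm V)}

omit [MeasurableSpace V] [DiscreteMeasurableSpace V] in
theorem measurableSet_alive (o : V) : MeasurableSet {σ : V → Loc V | Alive σ o} := by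
  simp only [Alive, Set.ofPred_exists]
  exact MeasurableSet.iUnion fun z => (DM.of_measurable (f := fun σ : V → Loc V => σ z)
    (measurable_pi_apply z)).prop fun l => o ∈ l.cl ∧ l.kil = ∅

theorem mono_fin {ty : V → Bool} {br : V → ℝ} (hbr : Injective br) {capX capG : Bool → ℝ≥0∞}
    (c1 : capX true = ⊤) (c2 : capX false < 1) {ρ : Bool → ℝ} (hρ : ∀ b, 0 ≤ ρ b) (W : Finset V)
    (o : V) {T : ℝ} (hT : 0 ≤ T) {s t : Set (V → Loc V)} (hs : MeasurableSet s)
    (ht : MeasurableSet t) (hst : ∀ π X Y, Rel ty capX capG W o π X Y → X ∈ s → Y ∈ t) :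
    nu K {φ | run ty br capX (fun x => ρ (ty x)) φ (init W) W T ∈ s} ≤
      nu K {φ | run ty br capG (fun x => ρ (ty x)) φ (init W) W T ∈ t} := by
  have hf : ∀ cap, Measurable fun φ =>
      fold (step ty br cap) (init W) (word (fun x => ρ (ty x)) φ W T) := fun cap =>
    measurable_fold (stp := fun _ => step ty br cap)
      (fun x σ η a b => (measurable_step' ty br cap x).comp (a.prodMk b)) measurable_const
      measurable_id measurable_const measurable_const W
  have := compare_final K (W := W) (fun y => hρ (ty y)) (measurable_step' ty br capX)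
    (measurable_step' ty br capG) (measurable_one.indicator hs) (measurable_one.indicator ht)
    (R := fun X Y => ∃ π, Rel ty capX capG W o π X Y)
    (fun X Y ⟨π, a⟩ => ⟨π, a.mem, fun x _ => by rw [a.typ], fun x _ _ η => a.step hbr c1 c2 x η⟩)
    (fun X Y ⟨π, a⟩ => Set.indicator_apply_le' (fun b => by
      rw [Set.indicator_of_mem (hst π X Y a b)]; rfl) fun _ => zero_le) ⟨1, rel_init o⟩ hT
  simp only [run_eq]
  exact (lintegral_indicator_one (hf capX hs)).symm.le.trans
    (this.trans (lintegral_indicator_one (hf capG ht)).le)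

theorem mono_law (h : Setting G K Γ) (p : ℝ) (a b : ℝ≥0) (M : ℝ≥0∞) {N : ℝ≥0∞} (hN : N < 1)
    (W : Finset V) (o : V) {T : ℝ} (hT : 0 ≤ T) (β : Bool) {s t : Set (V → Loc V)}
    (hs : MeasurableSet s) (ht : MeasurableSet t) (hst : ∀ ty π X Y, ty o = β →
      Rel ty (capO ⟨p, a, b, ⊤, N⟩) (capO ⟨p, a, b, M, N⟩) W o π X Y → X ∈ s → Y ∈ t) :
    law K {ω | isA ⟨p, a, b, ⊤, N⟩ ω o = β ∧ state ⟨p, a, b, ⊤, N⟩ ω W T ∈ s} ≤
      law K {ω | isA ⟨p, a, b, M, N⟩ ω o = β ∧ state ⟨p, a, b, M, N⟩ ω W T ∈ t} := by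
  have m : ∀ (c : Par) (s : Set (V → Loc V)), MeasurableSet s →
      MeasurableSet {ω : Omega V | isA c ω o = β ∧ state c ω W T ∈ s} :=
    fun c s hs => (dm_isA c o β).inter (measurable_state c W T hs)
  rw [law_eq, Measure.prod_apply (m _ _ hs), Measure.prod_apply (m _ _ ht)]
  refine lintegral_mono_ae ((ae_inj h).mono fun k hk => ?_)
  obtain ⟨φ0⟩ : Nonempty (V → Fut V) := ⟨fun _ _ => (0, id)⟩
  by_cases e : isA ⟨p, a, b, ⊤, N⟩ (k, φ0) o = β
  · have := mono_fin (K := K) (ty := isA ⟨p, a, b, ⊤, N⟩ (k, φ0)) hk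
      (capX := capO ⟨p, a, b, ⊤, N⟩) (capG := capO ⟨p, a, b, M, N⟩) rfl hN
      (ρ := fun β => if β then a else b) (fun β => by split_ifs <;> simp) W o hT hs ht
      fun π X Y => hst _ π X Y e
    exact (measure_mono fun φ d => d.2).trans (this.trans (measure_mono fun φ d => ⟨e, d⟩))
  · exact (measure_mono (t := ∅) fun φ d => e d.1).trans (by simp)

theorem tendsto_dead (h : Setting G K Γ) (c : Par) (o : V) (β : Bool) :
    Tendsto (fun n : ℕ => law K {ω | isA c ω o = β ∧ Dead (lim c ω n) o}) atTop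
      (𝓝 (law K (Dies c o β))) := by
  refine tendsto_measure_of_ae_tendsto_indicator_of_isFiniteMeasure atTop
    (measurableSet_dies c o β) (fun n => (dm_isA c o β).inter (measurableSet_dead c n o))
    ((ae_good1 h c).mono fun ω hω => ?_)
  by_cases a : ∃ n : ℕ, Dead (lim c ω n) o
  · obtain ⟨k, hk⟩ := id a
    filter_upwards [eventually_ge_atTop k] with n hn
    have := hω.Dead_mono (T' := n) (Nat.cast_nonneg k) (by exact_mod_cast hn) hk
    simp only [Dies, Set.mem_ofPred_eq, a, this]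
  · exact .of_forall fun n => and_congr_right fun _ => ⟨fun b => ⟨n, b⟩, fun b => absurd b a⟩

theorem tendsto_alive (h : Setting G K Γ) (c : Par) (o : V) (β : Bool) (T : ℝ) :
    Tendsto (fun W => law K {ω | isA c ω o = β ∧ state c ω W T ∈ {σ | Alive σ o}ᶜ}) atTop
      (𝓝 (law K {ω | isA c ω o = β ∧ Dead (lim c ω T) o})) := by
  refine tendsto_law h c (fun W => (dm_isA c o β).inter
    (measurable_state c W T (measurableSet_alive o).compl))
    ((dm_isA c o β).inter (measurableSet_dead c T o)) fun ω hω => ?_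
  filter_upwards [hω.ev_alive T o] with W hW
  simp [hW]

theorem dies_mono (h : Setting G K Γ) (p : ℝ) (a b : ℝ≥0) (M : ℝ≥0∞) {N : ℝ≥0∞} (hN : N < 1)
    (o : V) : law K (Dies ⟨p, a, b, M, N⟩ o true) ≤ law K (Dies ⟨p, a, b, ⊤, N⟩ o true) ∧
      law K (Dies ⟨p, a, b, ⊤, N⟩ o false) ≤ law K (Dies ⟨p, a, b, M, N⟩ o false) := by
  have mA := measurableSet_alive o
  refine ⟨le_of_tendsto_of_tendsto' (tendsto_dead h _ o _) (tendsto_dead h _ o _) fun n =>
    le_of_tendsto_of_tendsto' (tendsto_alive h _ o _ n) (tendsto_alive h _ o _ n) fun W => ?_,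
    le_of_tendsto_of_tendsto' (tendsto_dead h _ o _) (tendsto_dead h _ o _) fun n =>
    le_of_tendsto_of_tendsto' (tendsto_alive h _ o _ n) (tendsto_alive h _ o _ n) fun W =>
    mono_law h p a b M hN W o (Nat.cast_nonneg n) false mA.compl mA.compl
      fun ty π X Y e r a1 a2 => a1 (r.aliveB hN e a2)⟩
  have := mono_law h p a b M hN W o (Nat.cast_nonneg n) true mA mA
    fun ty π X Y e r => r.aliveA e
  have e : ∀ M, law K {ω | isA ⟨p, a, b, M, N⟩ ω o = true ∧
      state ⟨p, a, b, M, N⟩ ω W n ∈ {σ | Alive σ o}} + law K {ω | isA ⟨p, a, b, M, N⟩ ω o = true ∧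
      state ⟨p, a, b, M, N⟩ ω W n ∈ {σ | Alive σ o}ᶜ} =
      law K {ω | isA ⟨p, a, b, ⊤, N⟩ ω o = true} := fun M =>
    measure_inter_add_sdiff _ (measurable_state _ W n mA)
  refine (ENNReal.add_le_add_iff_left (measure_ne_top (law K) _)).1
    (((e M).trans (e ⊤).symm).le.trans (add_le_add_left this _))

end Pool.Agent.P.MP_6a2a35_pr
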