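import Pool.Agent.P.MP_6a2a35_pr.Sym
import Pool.Agent.P.MP_6a2a35_pr.AE
import Pool.Agent.P.MP_6a2a35_pr.MTP

/-! In short time windows the particles split into finite groups that do not meet. -/

namespace Pool.Agent.P.MP_6a2a35_pr

open MeasureTheory ProbabilityTheory Filter Function Topology
open scoped ENNReal NNReal Classical

variable {V : Type*}

def Ch (R : Fut V → V → Finset V) (M : Fut V → Prop) : ℕ → V → Finset V → (V → Fut V) → Prop
  | 0, _, _, _ => True
  | n + 1, v, U, φ => ∃ x v', x ∉ U ∧ (M (φ x) ∧ v ∈ R (φ x) x ∧ v' ∈ R (φ x) x) ∧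
      Ch R M n v' (insert x U) φ

variable {R : Fut V → V → Finset V} {M : Fut V → Prop}

theorem Ch_update {n : ℕ} {v : V} {U : Finset V} {φ : V → Fut V} {x : V} (hx : x ∈ U)
    (d : Fut V) : Ch R M n v U (update φ x d) ↔ Ch R M n v U φ := by
  induction n generalizing v U with
  | zero => rfl
  | succ n ih =>
    refine exists_congr fun y => exists_congr fun v' => and_congr_right fun hy => ?_
    rw [update_of_ne (fun e : y = x => hy (e ▸ hx)), ih (Finset.mem_insert_of_mem hx)]

theorem closed_of_not_Ch {φ : V → Fut V} (hfin : ∀ v, {x | v ∈ R (φ x) x}.Finite) {n : ℕ} {v : V}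
    {U : Finset V} (h : ¬ Ch R M n v U φ) : ∃ S : Set V, S.Finite ∧ v ∈ S ∧
      ∀ y ∉ U, M (φ y) → ∀ w ∈ R (φ y) y, w ∈ S → ∀ w' ∈ R (φ y) y, w' ∈ S := by
  induction n generalizing v U with
  | zero => exact absurd trivial h
  | succ n ih =>
    have h1 : ∀ x v', ∃ S : Set V, S.Finite ∧ (x ∉ U → M (φ x) → v ∈ R (φ x) x →
        v' ∈ R (φ x) x → v' ∈ S) ∧ ∀ y ∉ insert x U, M (φ y) → ∀ w ∈ R (φ y) y, w ∈ S →
          ∀ w' ∈ R (φ y) y, w' ∈ S := by
      intro x v'
      by_cases c : x ∉ U ∧ M (φ x) ∧ v ∈ R (φ x) x ∧ v' ∈ R (φ x) x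
      · obtain ⟨S, a1, a2, a3⟩ := ih (v := v') (U := insert x U) fun a => h ⟨x, v', c.1, c.2, a⟩
        exact ⟨S, a1, fun _ _ _ _ => a2, a3⟩
      · exact ⟨∅, Set.finite_empty, fun a b c' d => absurd ⟨a, b, c', d⟩ c, by simp⟩
    choose S s1 s2 s3 using h1
    refine ⟨insert v (⋃ x ∈ {x | v ∈ R (φ x) x}, ⋃ v' ∈ R (φ x) x, S x v'),
      ((hfin v).biUnion fun x _ => (R (φ x) x).finite_toSet.biUnion fun _ _ => s1 _ _).insert v,
      Set.mem_insert _ _, fun y y1 y2 w w1 w2 w' w3 => Set.mem_insert_of_mem _ ?_⟩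
    simp only [Set.mem_iUnion, Set.mem_insert_iff, Set.mem_ofPred_eq, exists_prop] at w2 ⊢
    by_cases c : v ∈ R (φ y) y
    · exact ⟨y, c, w', w3, s2 y w' y1 y2 c w3⟩
    · rcases w2 with rfl | ⟨x, x1, v', x2, x3⟩
      · exact absurd w1 c
      · refine ⟨x, x1, v', x2, s3 x v' y ?_ y2 w w1 x3 w' w3⟩
        simp only [Finset.mem_insert, not_or]
        exact ⟨fun e => c (e ▸ x1), y1⟩

variable [MeasurableSpace V] [Countable V] [DiscreteMeasurableSpace V] {G : SimpleGraph V}
  {K : V → PMF V} {Γ : Subgroup (Equiv.Perm V)}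

theorem mtp_fut (h : Setting G K Γ) {f : Fut V → V → V → ℝ≥0∞}
    (hf : ∀ x v, Measurable fun d => f d x v)
    (he : ∀ g ∈ Γ, ∀ d x v, f (actF g d) (g x) (g v) = f d x v) (v : V) :
    ∑' x, ∫⁻ d, f d x v ∂futLaw K = ∫⁻ d, ∑' w, f d v w ∂futLaw K := by
  rw [lintegral_tsum fun w => (hf v w).aemeasurable]
  refine (mtp h (fun x v => ∫⁻ d, f d x v ∂futLaw K) (fun g hg x y => ?_) v).symm
  rw [← (mp_actF (h.ker g hg)).lintegral_comp (hf _ _)]
  simp only [he g hg]

omit [DiscreteMeasurableSpace V] in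
theorem measurableSet_Ch (hR : ∀ x, DM fun d => R d x) (hM : MeasurableSet {d | M d}) (n : ℕ)
    (v : V) (U : Finset V) : MeasurableSet {φ | Ch R M n v U φ} := by
  induction n generalizing v U with
  | zero => exact MeasurableSet.univ
  | succ n ih =>
    simp only [Ch, Set.ofPred_exists]
    refine MeasurableSet.iUnion fun x => MeasurableSet.iUnion fun v' =>
      (MeasurableSet.const _).inter (MeasurableSet.inter ?_ (ih _ _))
    exact (hM.inter ((hR x).prop fun s => v ∈ s ∧ v' ∈ s)).preimage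
      (measurable_pi_apply (X := fun _ : V => Fut V) x)

omit [Countable V] [DiscreteMeasurableSpace V] [MeasurableSpace V] in
theorem tsum_mem_finset (s : Finset V) (c : ℝ≥0∞) :
    ∑' x, (if x ∈ s then c else 0) = s.card * c := by
  simpa using tsum_ite_set (s : Set V) c

theorem nu_Ch_le (h : Setting G K Γ) (hR : ∀ x, DM fun d => R d x) (hM : MeasurableSet {d | M d})
    (eR : ∀ g ∈ Γ, ∀ d x, R (actF g d) (g x) = (R d x).map g.toEmbedding)
    (eM : ∀ g ∈ Γ, ∀ d, M (actF g d) ↔ M d) {ε : ℝ≥0∞}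
    (hε : ∀ v, ∫⁻ d in {d | M d}, ((R d v).card : ℝ≥0∞) ^ 2 ∂futLaw K ≤ ε) (n : ℕ) (v : V)
    (U : Finset V) : nu K {φ | Ch R M n v U φ} ≤ ε ^ n := by
  induction n generalizing v U with
  | zero => simp [Ch]
  | succ n ih =>
    have hs : ∀ x v', MeasurableSet {d | M d ∧ v ∈ R d x ∧ v' ∈ R d x} :=
      fun x v' => hM.inter ((hR x).prop fun s => v ∈ s ∧ v' ∈ s)
    have h1 : ∀ x v', nu K {φ | x ∉ U ∧ (M (φ x) ∧ v ∈ R (φ x) x ∧ v' ∈ R (φ x) x) ∧
        Ch R M n v' (insert x U) φ} ≤ futLaw K {d | M d ∧ v ∈ R d x ∧ v' ∈ R d x} * ε ^ n := by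
      intro x v'
      have := lintegral_mul_indep (futLaw K) x (measurable_one.indicator (hs x v'))
        (measurable_one.indicator (measurableSet_Ch hR hM n v' (insert x U))) fun φ d => by
          simp only [Set.indicator, Set.mem_ofPred_eq, Ch_update (Finset.mem_insert_self x U),
            Pi.one_apply]
      rw [lintegral_indicator_one (hs x v'),
        lintegral_indicator_one (measurableSet_Ch hR hM n v' _)] at this
      refine le_trans ?_ (this.le.trans (mul_le_mul_right (ih _ _) _))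
      refine meas_le_lintegral₀ (((measurable_one.indicator (hs x v')).comp
        (measurable_pi_apply x)).mul (measurable_one.indicator
        (measurableSet_Ch hR hM n v' _))).aemeasurable fun φ hφ => ?_
      simp [Set.indicator, hφ.2.1, hφ.2.2]
    have h2 : ∀ x, ∑' v', futLaw K {d | M d ∧ v ∈ R d x ∧ v' ∈ R d x} =
        ∫⁻ d, (if M d ∧ v ∈ R d x then ((R d x).card : ℝ≥0∞) else 0) ∂futLaw K := by
      intro x
      simp only [← lintegral_indicator_one (hs x _)]
      rw [← lintegral_tsum fun v' => (measurable_one.indicator (hs x v')).aemeasurable]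
      refine lintegral_congr fun d => ?_
      split_ifs with c
      · simpa [Set.indicator, c] using tsum_mem_finset (R d x) 1
      · simp only [Set.indicator, Set.mem_ofPred_eq, ← and_assoc, c, false_and, if_false, tsum_zero]
    simp only [Ch, Set.ofPred_exists]
    refine (measure_iUnion_le _).trans ((ENNReal.tsum_le_tsum fun x => (measure_iUnion_le _).trans
      (ENNReal.tsum_le_tsum fun v' => h1 x v')).trans ?_)
    simp only [ENNReal.tsum_mul_right, h2]
    rw [pow_succ', mtp_fut h (f := fun d x v => if M d ∧ v ∈ R d x then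
      ((R d x).card : ℝ≥0∞) else 0)]
    · refine mul_le_mul_left (le_trans ?_ (hε v)) _
      rw [← lintegral_indicator hM]
      refine lintegral_mono fun d => ?_
      by_cases c : M d
      · simp [Set.indicator, c, tsum_mem_finset, sq]
      · simp [c]
    · exact fun x v => Measurable.ite (hM.inter ((hR x).prop fun s => v ∈ s))
        ((hR x).measurable' fun s => (s.card : ℝ≥0∞)) measurable_const
    · intro g hg d x v
      simp [eR g hg, eM g hg]

theorem ae_finite_visits (h : Setting G K Γ) (hR : ∀ x, DM fun d => R d x)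
    (eR : ∀ g ∈ Γ, ∀ d x, R (actF g d) (g x) = (R d x).map g.toEmbedding)
    (hfin : ∀ v, ∫⁻ d, ((R d v).card : ℝ≥0∞) ∂futLaw K ≠ ⊤) :
    ∀ᵐ φ ∂nu K, ∀ v, {x | v ∈ R (φ x) x}.Finite := by
  refine ae_all_iff.2 fun v => ae_finite_setOfPred_mem 
    (s := fun x => {φ : V → Fut V | v ∈ R (φ x) x}) ?_
  have hs : ∀ x v, MeasurableSet {d | v ∈ R d x} := fun x v => (hR x).prop fun s => v ∈ s
  have h1 : ∀ x, nu K {φ | v ∈ R (φ x) x} =
      ∫⁻ d, (if v ∈ R d x then 1 else 0) ∂futLaw K := by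
    intro x
    refine ((measurePreserving_eval_infinitePi (fun _ : V => futLaw K) x).measure_preimage
      (hs x v).nullMeasurableSet).trans ?_
    rw [← lintegral_indicator_one (hs x v)]
    simp [Set.indicator]
  simp only [h1]
  rw [mtp_fut h (f := fun d x v => if v ∈ R d x then 1 else 0)]
  · simpa [tsum_mem_finset] using hfin v
  · exact fun x v => Measurable.ite (hs x v) measurable_const measurable_const
  · intro g hg d x v
    simp [eR g hg]

noncomputable def rng1 (a b : ℝ) (d : Fut V) (x : V) : Finset V :=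
  (Finset.Icc (cnt d a) (cnt d b)).image (path d x)

omit [Countable V] [DiscreteMeasurableSpace V] [MeasurableSpace V] in
theorem card_rng1 {a b A : ℝ} {d : Fut V} (hd : GoodF d) (hb : b ≤ A) (x : V) :
    (rng1 a b d x).card ≤ cnt d A + 1 :=
  Finset.card_image_le.trans (by have := hd.cnt_mono hb; simp; omega)

theorem dm_path {Z : Type*} [MeasurableSpace Z] {d : Z → Fut V} (hd : Measurable d) (x : V)
    (n : ℕ) : DM fun z => path (d z) x n := by
  induction n with
  | zero => exact DM.const _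
  | succ n ih => exact ih.dm (g := fun c z => (d z n).2 c) fun c => .of_measurable (by fun_prop)

theorem dm_rng1 (a b : ℝ) (x : V) : DM fun d : Fut V => rng1 a b d x := by
  have h1 : ∀ s : Finset ℕ, DM fun d : Fut V => s.image (path d x) := by
    intro s
    induction s using Finset.induction_on with
    | empty => simpa using DM.const _
    | insert n s _ ih =>
      simp only [Finset.image_insert]
      exact (dm_path measurable_id x n).map₂ ih insert
  exact ((DM.of_measurable (measurable_cnt measurable_id measurable_const)).map₂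
    (DM.of_measurable (measurable_cnt measurable_id measurable_const)) Finset.Icc).dm
    (g := fun s d => s.image (path d x)) h1

omit [Countable V] [DiscreteMeasurableSpace V] [MeasurableSpace V] in
theorem rng1_act (g : Equiv.Perm V) (a b : ℝ) (d : Fut V) (x : V) :
    rng1 a b (actF g d) (g x) = (rng1 a b d x).map g.toEmbedding := by
  rw [rng1, rng1, Finset.map_eq_image, Finset.image_image]
  exact Finset.image_congr fun n _ => path_actF g d x n

noncomputable def rng (p q a b : ℝ) (d : Fut V) (x : V) : Finset V :=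
  rng1 (p * a) (p * b) d x ∪ rng1 (q * a) (q * b) d x

def mv (p q a b : ℝ) (d : Fut V) : Prop :=
  cnt d (p * a) < cnt d (p * b) ∨ cnt d (q * a) < cnt d (q * b)

theorem dm_rng (p q a b : ℝ) (x : V) : DM fun d : Fut V => rng p q a b d x :=
  (dm_rng1 _ _ x).map₂ (dm_rng1 _ _ x) (· ∪ ·)

omit [Countable V] [DiscreteMeasurableSpace V] in
theorem measurableSet_mv (p q a b : ℝ) : MeasurableSet {d : Fut V | mv p q a b d} :=
  (measurableSet_lt (measurable_cnt measurable_id measurable_const)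
    (measurable_cnt measurable_id measurable_const)).union
  (measurableSet_lt (measurable_cnt measurable_id measurable_const)
    (measurable_cnt measurable_id measurable_const))

omit [Countable V] [DiscreteMeasurableSpace V] [MeasurableSpace V] in
theorem rng_act (g : Equiv.Perm V) (p q a b : ℝ) (d : Fut V) (x : V) :
    rng p q a b (actF g d) (g x) = (rng p q a b d x).map g.toEmbedding := by
  rw [rng, rng, rng1_act, rng1_act, Finset.map_union]

omit [Countable V] [DiscreteMeasurableSpace V] in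
theorem exists_small (K : V → PMF V) {p q : ℝ} (hp : 0 ≤ p) (hq : 0 ≤ q) (A : ℝ) {ε : ℝ≥0∞}
    (hε : ε ≠ 0) : ∃ δ : ℝ, 0 < δ ∧ δ ≤ 1 ∧ ∀ a b : ℝ, 0 ≤ b → b ≤ A → b ≤ a + δ → ∀ v,
      ∫⁻ d, ((rng p q a b d v).card : ℝ≥0∞) ∂futLaw K ≠ ⊤ ∧
      ∫⁻ d in {d | mv p q a b d}, ((rng p q a b d v).card : ℝ≥0∞) ^ 2 ∂futLaw K ≤ ε := by
  set B := (p + q) * max A 0
  have hfin : ∫⁻ d, 4 * ((cnt d B + 1 : ℕ) : ℝ≥0∞) ^ 2 ∂futLaw K ≠ ⊤ := by
    rw [lintegral_const_mul' _ _ (by simp)]
    exact ENNReal.mul_ne_top (by simp) (lintegral_cnt_sq K B)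
  obtain ⟨δ1, h1, h2⟩ := exists_pos_setLIntegral_lt_of_measure_lt hfin hε
  obtain ⟨δ2, h3, h4⟩ := exists_window K B (ENNReal.half_pos h1.ne').ne'
  refine ⟨min 1 (δ2 / (p + q + 1)), by positivity, min_le_left _ _, fun a b b0 b1 b2 v => ?_⟩
  have hA : b ≤ max A 0 := b1.trans (le_max_left _ _)
  have a1 : p * b ≤ B := by simp only [B]; gcongr; linarith
  have a2 : q * b ≤ B := by simp only [B]; gcongr; linarith
  have a3 : ∀ l, 0 ≤ l → l ≤ p + q + 1 → l * b ≤ l * a + δ2 := by
    intro l l0 l1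
    have : l * (δ2 / (p + q + 1)) ≤ δ2 := by
      rw [mul_div_assoc', div_le_iff₀ (by positivity)]; nlinarith
    nlinarith [min_le_right 1 (δ2 / (p + q + 1))]
  have hb : ∀ᵐ d ∂futLaw K, ((rng p q a b d v).card : ℝ≥0∞) ^ 2 ≤
      4 * ((cnt d B + 1 : ℕ) : ℝ≥0∞) ^ 2 := by
    filter_upwards [ae_goodF K] with d hd
    have : (rng p q a b d v).card ≤ 2 * (cnt d B + 1) := by
      have := Finset.card_union_le (rng1 (p * a) (p * b) d v) (rng1 (q * a) (q * b) d v)
      have := card_rng1 (a := p * a) hd a1 v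
      have := card_rng1 (a := q * a) hd a2 v
      unfold rng; omega
    have h5 : (rng p q a b d v).card ^ 2 ≤ 4 * (cnt d B + 1) ^ 2 := by nlinarith
    exact_mod_cast h5
  refine ⟨ne_top_of_le_ne_top hfin (lintegral_mono_ae (hb.mono fun d hd => le_trans ?_ hd)),
    le_trans (lintegral_mono_ae (ae_restrict_of_ae hb)) (h2 _ ?_).le⟩
  · exact_mod_cast Nat.le_self_pow two_ne_zero _
  · refine (measure_union_le _ _).trans_lt ((ENNReal.add_lt_add (h4 _ _ a1 (a3 p hp (by linarith)))
      (h4 _ _ a2 (a3 q hq (by linarith)))).trans_eq (ENNReal.add_halves _))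

omit [Countable V] [DiscreteMeasurableSpace V] [MeasurableSpace V] in
theorem mem_rng {p q a b t l : ℝ} {d : Fut V} (hd : GoodF d) (h0 : 0 ≤ l) (hl : l = p ∨ l = q)
    (h1 : a ≤ t) (h2 : t ≤ b) (x : V) : path d x (cnt d (l * t)) ∈ rng p q a b d x ∧
      (¬ mv p q a b d → cnt d (l * t) = cnt d (l * a)) := by
  have a1 := hd.cnt_mono (mul_le_mul_of_nonneg_left h1 h0)
  have a2 := hd.cnt_mono (mul_le_mul_of_nonneg_left h2 h0)
  have a3 : path d x (cnt d (l * t)) ∈ rng1 (l * a) (l * b) d x :=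
    Finset.mem_image_of_mem _ (Finset.mem_Icc.2 ⟨a1, a2⟩)
  unfold mv
  rcases hl with rfl | rfl
  · exact ⟨Finset.mem_union_left _ a3, by omega⟩
  · exact ⟨Finset.mem_union_right _ a3, by omega⟩

theorem ae_locl (h : Setting G K Γ) {p q : ℝ} (hp : 0 ≤ p) (hq : 0 ≤ q) :
    ∀ᵐ φ ∂nu K, ∀ r : V → ℝ, (∀ x, r x = p ∨ r x = q) →
      (∀ W, Good r φ W) ∧ ∀ T, Locl r φ T := by
  have h1 := fun A : ℕ => exists_small K hp hq (A + 1) (ε := 1 / 2) (by simp)
  choose δ d0 d1 d2 using h1
  have h2 : ∀ A k : ℕ, ∀ᵐ φ ∂nu K, k * δ A ≤ A →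
      (∀ v, {x | v ∈ rng p q (k * δ A) ((k + 1) * δ A) (φ x) x}.Finite) ∧ ∀ v, ∃ n,
        ¬ Ch (rng p q (k * δ A) ((k + 1) * δ A)) (mv p q (k * δ A) ((k + 1) * δ A)) n v ∅ φ := by
    intro A k
    by_cases c : k * δ A ≤ A
    swap
    · simp [c]
    have h3 := d2 A (k * δ A) ((k + 1) * δ A) (by have := d0 A; positivity)
      (by have := d1 A; linarith) (by linarith)
    simp only [c, true_imp_iff]
    refine (ae_finite_visits h (dm_rng _ _ _ _) (fun g _ => rng_act g _ _ _ _)
      fun v => (h3 v).1).and (ae_all_iff.2 fun v => ?_)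
    rw [ae_iff]
    refine le_antisymm (ge_of_tendsto' (ENNReal.tendsto_pow_atTop_nhds_zero_of_lt_one
      (r := 1 / 2) (by simp)) fun n => le_trans (measure_mono fun φ hφ => ?_)
      (nu_Ch_le h (dm_rng _ _ _ _) (measurableSet_mv _ _ _ _) (fun g _ => rng_act g _ _ _ _)
        (fun _ _ _ => Iff.rfl) (fun v => (h3 v).2) n v ∅)) zero_le
    simp only [Set.mem_ofPred_eq, not_exists, not_not] at hφ
    exact hφ n
  filter_upwards [ae_good K (R := {p, q}) (Set.toFinite _).countable,
    ae_all_iff.2 fun A => ae_all_iff.2 (h2 A)] with φ a1 a2 r hr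
  have hG := a1 r hr
  have hr0 : ∀ y, 0 ≤ r y := fun y => by rcases hr y with e | e <;> rw [e] <;> assumption
  refine ⟨hG, locl_of_closed hr0 hG fun A => ⟨δ A, d0 A, fun k hk x => ?_⟩⟩
  obtain ⟨b1, b2⟩ := a2 A k hk
  have hk' : k * δ A ≤ (k + 1) * δ A := by have := d0 A; nlinarith
  have gf : ∀ y, GoodF (φ y) := fun y => (hG {y}).gf y (Finset.mem_singleton_self y)
  obtain ⟨n, hn⟩ := b2 (path (φ x) x (cnt (φ x) (r x * (k * δ A))))
  obtain ⟨S, s1, s2, s3⟩ := closed_of_not_Ch b1 hn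
  have hC : {y | path (φ y) y (cnt (φ y) (r y * (k * δ A))) ∈ S}.Finite :=
    (s1.biUnion fun v _ => b1 v).subset fun y hy =>
      Set.mem_biUnion hy (mem_rng (gf y) (hr0 y) (hr y) le_rfl hk' y).1
  refine ⟨hC.toFinset, S, by simpa using s2, fun y t t1 t2 => ?_⟩
  rw [Set.Finite.mem_toFinset, Set.mem_ofPred_eq]
  have e1 := mem_rng (gf y) (hr0 y) (hr y) le_rfl hk' y
  have e2 := mem_rng (gf y) (hr0 y) (hr y) t1 t2 y
  by_cases c : mv p q (k * δ A) ((k + 1) * δ A) (φ y)
  · exact ⟨fun a => s3 y (by simp) c _ e1.1 a _ e2.1, fun a => s3 y (by simp) c _ e2.1 a _ e1.1⟩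
  · rw [e2.2 c]

end Pool.Agent.P.MP_6a2a35_pr
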