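import Pool.Agent.P.MP_6a2a35_pr.Decay

/-! Annihilation has positive probability. -/

namespace Pool.Agent.P.MP_6a2a35_pr

open MeasureTheory ProbabilityTheory Filter Function Topology
open scoped ENNReal NNReal Classical

variable {V : Type*}

theorem two_dead {c : Par} {ω : Omega V} (hω : GoodO c ω) {o u : V} (ho : isA c ω o = true)
    (hu : isA c ω u = false) {δ : ℝ} (hδ : 0 ≤ δ)
    (h1 : (ω.2 o 0).1 ≤ c.lamA * δ ∧ (ω.2 o 0).2 o = u) (h2 : c.lamA * δ < (ω.2 o 1).1)
    (h3 : c.lamB * δ < (ω.2 u 0).1)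
    (h4 : ∀ y, y ≠ o → y ≠ u → mv c.lamA c.lamB 0 δ (ω.2 y) →
      o ∉ rng c.lamA c.lamB 0 δ (ω.2 y) y ∧ u ∉ rng c.lamA c.lamB 0 δ (ω.2 y) y) :
    Dead (lim c ω δ) o := by
  have gf : ∀ y, GoodF (ω.2 y) := fun y => (hω.good {y}).gf y (Finset.mem_singleton_self y)
  have hr := rO_nonneg c ω
  have ro : rO c ω o = c.lamA := if_pos ho
  have ru : rO c ω u = c.lamB := if_neg (by simp [hu])
  have hou : o ≠ u := fun e => by simp [e, hu] at ho
  have c1 : cnt (ω.2 o) (rO c ω o * δ) = 1 := by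
    have a1 : 0 < cnt (ω.2 o) (c.lamA * δ) := (gf o).lt_cnt.2 (by rw [arr_zero]; exact h1.1)
    have a2 : ¬ 1 < cnt (ω.2 o) (c.lamA * δ) := by
      rw [(gf o).lt_cnt, arr_succ, arr_zero, not_le]
      linarith [(gf o).pos 0]
    rw [ro]; omega
  have c2 : cnt (ω.2 u) (rO c ω u * δ) = 0 := cnt_eq_zero (gf u) (ru ▸ h3)
  have hS : ∀ y t, 0 ≤ t → t ≤ δ → (y ∈ ({o, u} : Finset V) ↔
      path (ω.2 y) y (cnt (ω.2 y) (rO c ω y * t)) ∈ ({o, u} : Set V)) := by
    intro y t t0 t1
    have a0 := (gf y).cnt_mono (mul_le_mul_of_nonneg_left t1 (hr y))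
    by_cases a : y = o
    · subst a
      rw [c1] at a0
      rcases Nat.le_one_iff_eq_zero_or_eq_one.1 a0 with e | e <;> simp [e, path, h1.2]
    by_cases b : y = u
    · subst b
      rw [c2] at a0
      simp [Nat.le_zero.1 a0, path]
    obtain ⟨e1, e2⟩ := mem_rng (gf y) (hr y) (rO_mem c ω y) t0 t1 y
    simp only [Finset.mem_insert, Finset.mem_singleton, a, b, or_self, Set.mem_insert_iff,
      Set.mem_singleton_iff, false_iff, not_or]
    by_cases m : mv c.lamA c.lamB 0 δ (ω.2 y)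
    · exact ⟨fun e => (h4 y a b m).1 (e ▸ e1), fun e => (h4 y a b m).2 (e ▸ e1)⟩
    · rw [e2 m, mul_zero, (gf y).cnt_nonpos le_rfl]
      exact ⟨a, b⟩
  obtain ⟨W, w1, w2⟩ := ((eventually_ge_atTop {o, u}).and (hω.ev δ o)).exists
  have key := run_restr (ty := isA c ω) (br := brO ω) (cap := capO c) hr (hω.good W) le_rfl hδ w1
    (fun y _ => hS y) (events_isEv hr (hω.good {o, u}) δ)
  have e0 : restr {o, u} (run (isA c ω) (brO ω) (capO c) (rO c ω) ω.2 (init W) W 0) =
      init {o, u} := by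
    funext y
    simp only [run, events_nonpos hr (hω.good W) le_rfl, List.foldl_nil, restr, init]
    split_ifs with a b
    · rfl
    · exact absurd (w1 a) b
    · rfl
  have e1 : lim c ω δ o = state c ω {o, u} δ o := by
    rw [← w2, state_eq, state_eq c ω {o, u}, run_eq _ _ _ (init {o, u}), word]
    rw [e0] at key
    refine Eq.trans ?_ (congrFun key o)
    simp [restr]
  have i1 := state_inv (c := c) (ω := ω) {o, u} δ
  have i2 := state_stab (c := c) hω.inj {o, u} δ
  have p1 : (state c ω {o, u} δ o).pos = (state c ω {o, u} δ u).pos := by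
    rw [state_eq, run_eq, run_pos hr (hω.good _) hδ (by simp), run_pos hr (hω.good _) hδ (by simp),
      c1, c2]
    exact h1.2
  generalize state c ω {o, u} δ = σ at e1 i1 i2 p1
  have mem : ∀ z, (σ z).cl.Nonempty → z = o ∨ z = u := fun z hz => by simpa using i1.mem hz
  have s1 : o ∈ (σ o).cl := by
    obtain ⟨z, hz⟩ := i1.cover o (by simp)
    rcases mem z ⟨o, hz⟩ with rfl | rfl
    · exact hz
    · simpa [ho, hu] using i1.hom _ _ hz
  have s2 : u ∈ (σ u).cl := by
    obtain ⟨z, hz⟩ := i1.cover u (by simp)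
    rcases mem z ⟨u, hz⟩ with rfl | rfl
    · simpa [ho, hu] using i1.hom _ _ hz
    · exact hz
  refine ⟨o, e1 ▸ s1, e1 ▸ fun k1 => ?_⟩
  by_cases k2 : (σ u).kil = ∅
  · simpa [ho, hu] using (i2 o u ⟨⟨o, s1⟩, k1⟩ ⟨⟨u, s2⟩, k2⟩ hou p1).1
  · obtain ⟨z, z1, z2, z3, z4⟩ := i1.kill u k2
    rcases mem z (z3 ▸ Finset.nonempty_iff_ne_empty.2 k2) with rfl | rfl
    · exact z2.ne_empty (z4.symm.trans k1)
    · exact z1 rfl

variable [MeasurableSpace V] [Countable V] [DiscreteMeasurableSpace V] {G : SimpleGraph V}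
  {K : V → PMF V} {Γ : Subgroup (Equiv.Perm V)}

omit [Countable V] [DiscreteMeasurableSpace V] in
theorem nu_inter (K : V → PMF V) (x : V) {s : Set (Fut V)} (hs : MeasurableSet s)
    {B : Set (V → Fut V)} (hB : MeasurableSet B) (h : ∀ φ d, update φ x d ∈ B ↔ φ ∈ B) :
    nu K ({φ | φ x ∈ s} ∩ B) = futLaw K s * nu K B := by
  have := lintegral_mul_indep (futLaw K) x (measurable_one.indicator hs)
    (measurable_one.indicator hB) fun φ d => by simp only [Set.indicator, h, Pi.one_apply]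
  rw [lintegral_indicator_one hs, lintegral_indicator_one hB] at this
  refine Eq.trans ?_ this
  have m : MeasurableSet ({φ : V → Fut V | φ x ∈ s} ∩ B) := (measurable_pi_apply x hs).inter hB
  rw [← lintegral_indicator_one m]
  refine lintegral_congr fun φ => ?_
  by_cases a : φ x ∈ s <;> by_cases b : φ ∈ B <;> simp [a, b, Set.indicator]

theorem visit_le (h : Setting G K Γ) (p q a b : ℝ) (v : V) :
    nu K {φ | ∃ y, mv p q a b (φ y) ∧ v ∈ rng p q a b (φ y) y} ≤
      ∫⁻ d in {d | mv p q a b d}, ((rng p q a b d v).card : ℝ≥0∞) ^ 2 ∂futLaw K := by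
  have hs : ∀ x v : V, MeasurableSet {d : Fut V | mv p q a b d ∧ v ∈ rng p q a b d x} :=
    fun x v => (measurableSet_mv p q a b).inter ((dm_rng p q a b x).prop fun s => v ∈ s)
  have h1 : ∀ x, nu K {φ | mv p q a b (φ x) ∧ v ∈ rng p q a b (φ x) x} =
      ∫⁻ d, (if mv p q a b d ∧ v ∈ rng p q a b d x then 1 else 0) ∂futLaw K := by
    intro x
    refine ((measurePreserving_eval_infinitePi (fun _ : V => futLaw K) x).measure_preimage
      (hs x v).nullMeasurableSet).trans ?_
    rw [← lintegral_indicator_one (hs x v)]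
    simp [Set.indicator]
  rw [Set.ofPred_exists]
  refine (measure_iUnion_le _).trans ?_
  simp only [h1]
  rw [mtp_fut h (f := fun d x v => if mv p q a b d ∧ v ∈ rng p q a b d x then 1 else 0),
    ← lintegral_indicator (measurableSet_mv p q a b)]
  · refine lintegral_mono fun d => ?_
    by_cases c : mv p q a b d
    · simp only [c, true_and, tsum_mem_finset, mul_one, Set.indicator, Set.mem_ofPred_eq, if_true]
      exact_mod_cast Nat.le_self_pow two_ne_zero _
    · simp [c]
  · exact fun x v => Measurable.ite (hs x v) measurable_const measurable_const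
  · intro g _ d x v
    simp [rng_act, mv]

omit [MeasurableSpace V] [Countable V] [DiscreteMeasurableSpace V] in
theorem mark_pos {p : ℝ} (hp : p ∈ Set.Ioo (0 : ℝ) 1) {o u : V} (hou : o ≠ u) :
    markLaw V {m | ((m o).1 : ℝ) < p ∧ ¬ ((m u).1 : ℝ) < p} ≠ 0 := by
  have m1 : MeasurableSet (Set.Iio (⟨p, hp.1.le, hp.2.le⟩ : unitInterval) ×ˢ
    (Set.univ : Set unitInterval)) := measurableSet_Iio.prod .univ
  have m2 : MeasurableSet (Set.Ici (⟨p, hp.1.le, hp.2.le⟩ : unitInterval) ×ˢ
    (Set.univ : Set unitInterval)) := measurableSet_Ici.prod .univ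
  have := Measure.prod_prod (μ := (volume : Measure (unitInterval × unitInterval)))
    (ν := (volume : Measure (unitInterval × unitInterval)))
    (Set.Iio (⟨p, hp.1.le, hp.2.le⟩ : unitInterval) ×ˢ Set.univ)
    (Set.Ici (⟨p, hp.1.le, hp.2.le⟩ : unitInterval) ×ˢ Set.univ)
  rw [← Measure.infinitePi_map_eval_prod
    (P := fun _ : V => (volume : Measure (unitInterval × unitInterval))) hou,
    Measure.map_apply (by fun_prop) (m1.prod m2)] at this
  refine ne_of_eq_of_ne (Eq.trans (congrArg _ ?_) this) ?_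
  · ext m
    simp [← Subtype.coe_lt_coe, ← Subtype.coe_le_coe]
  · simp [Measure.volume_eq_prod, hp.1, hp.2]

theorem dies_pos (h : Setting G K Γ) {c : Par} (hp : c.p ∈ Set.Ioo (0 : ℝ) 1) (hA : 0 < c.lamA)
    (o : V) (b : Bool) : law K (Dies c o b) ≠ 0 := by
  suffices H : law K (Dies c o true) ≠ 0 by
    rcases b with _ | _
    · intro h0
      refine H (le_antisymm ((dies_le h c o true).trans_eq ?_) zero_le)
      rw [lintegral_dies h, Measure.restrict_eq_zero.2 h0, lintegral_zero_measure]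
    · exact H
  obtain ⟨u, hu⟩ := (K o).support_nonempty
  have hou : o ≠ u := (h.supp o u hu).ne
  obtain ⟨δ, d0, d1, d2⟩ := exists_small K c.lamA.coe_nonneg c.lamB.coe_nonneg 1
    (ε := 1 / 4) (by simp)
  have d3 := fun v => (visit_le h c.lamA c.lamB 0 δ v).trans (d2 0 δ d0.le d1 (by simp) v).2
  have hs : ∀ x, MeasurableSet {φ : V → Fut V | mv c.lamA c.lamB 0 δ (φ x) →
      o ∉ rng c.lamA c.lamB 0 δ (φ x) x ∧ u ∉ rng c.lamA c.lamB 0 δ (φ x) x} := fun x =>
    measurable_pi_apply (X := fun _ : V => Fut V) x ((measurableSet_mv _ _ _ _).imp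
      ((dm_rng _ _ _ _ x).prop fun s => o ∉ s ∧ u ∉ s))
  set E : Set (V → Fut V) := {φ | ∀ y, y ≠ o → y ≠ u → mv c.lamA c.lamB 0 δ (φ y) →
      o ∉ rng c.lamA c.lamB 0 δ (φ y) y ∧ u ∉ rng c.lamA c.lamB 0 δ (φ y) y} with hE
  have mE : MeasurableSet E := by
    simp only [hE, Set.ofPred_forall]
    exact .iInter fun y => .iInter fun _ => .iInter fun _ => by
      simpa only [Set.ofPred_forall] using hs y
  have pE : nu K E ≠ 0 := by
    intro h0
    have a1 := measure_add_measure_compl (μ := nu K) mE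
    rw [h0, zero_add, measure_univ] at a1
    have a2 : nu K Eᶜ ≤ 1 / 4 + 1 / 4 := by
      refine le_trans (measure_mono fun φ a => ?_) ((measure_union_le _ _).trans
        (add_le_add (d3 o) (d3 u)))
      simp only [hE, Set.mem_compl_iff, Set.mem_ofPred_eq, not_forall, not_and_or, not_not] at a
      obtain ⟨y, -, -, a3, a4⟩ := a
      exact a4.imp (fun e => ⟨y, a3, e⟩) fun e => ⟨y, a3, e⟩
    rw [a1, ← ENNReal.add_div, ENNReal.le_div_iff_mul_le (by simp) (by simp)] at a2
    norm_num at a2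
  have a0 : 0 < (c.lamA : ℝ) * δ := mul_pos hA d0
  have m1 : MeasurableSet (Set.Iic ((c.lamA : ℝ) * δ) ×ˢ {η : V → V | η o = u}) :=
    measurableSet_Iic.prod ((measurableSet_singleton u).preimage
      (measurable_pi_apply (X := fun _ : V => V) o))
  have m2 : MeasurableSet (Set.Ioi ((c.lamA : ℝ) * δ) ×ˢ (Set.univ : Set (V → V))) :=
    measurableSet_Ioi.prod .univ
  set s1 : Set (Fut V) := (fun d => (d 0, d 1)) ⁻¹'
    ((Set.Iic ((c.lamA : ℝ) * δ) ×ˢ {η : V → V | η o = u}) ×ˢ
      (Set.Ioi ((c.lamA : ℝ) * δ) ×ˢ (Set.univ : Set (V → V)))) with hs1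
  have m3 : MeasurableSet s1 := (by fun_prop : Measurable fun d : Fut V => (d 0, d 1)) (m1.prod m2)
  have p1 : futLaw K s1 ≠ 0 := by
    rw [hs1, ← Measure.map_apply (by fun_prop) (m1.prod m2), futLaw,
      Measure.infinitePi_map_eval_prod (P := fun _ : ℕ => jumpLaw K) zero_ne_one,
      Measure.prod_prod, jump_box, jumpLaw, Measure.prod_prod, exp_Ioi a0.le]
    exact mul_ne_zero (mul_ne_zero (exp_Iic a0) hu) (by simpa using Real.exp_pos _)
  have m4 : MeasurableSet {d : Fut V | c.lamB * δ < (d 0).1} :=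
    measurableSet_lt measurable_const (by fun_prop)
  have p2 := stay_pos K (a := c.lamB * δ) (by positivity)
  have e1 := nu_inter K u m4 mE fun φ d => by
    simp only [hE, Set.mem_ofPred_eq]
    exact forall_congr' fun y => forall_congr' fun _ => forall_congr' fun a => by
      rw [update_of_ne a]
  have e2 := nu_inter K o m3 ((measurable_pi_apply u m4).inter mE) fun φ d => by
    simp only [hE, Set.mem_ofPred_eq, Set.mem_inter_iff, Set.mem_preimage, update_of_ne hou.symm]
    exact and_congr_right fun _ => forall_congr' fun y => forall_congr' fun a => by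
      rw [update_of_ne a]
  have e3 := mul_ne_zero (mark_pos hp hou) (ne_of_eq_of_ne e2 (mul_ne_zero p1
    (ne_of_eq_of_ne e1 (mul_ne_zero p2 pE))))
  rw [← Measure.prod_prod, ← law_eq] at e3
  refine fun h0 => e3 (le_antisymm (le_trans (measure_mono_ae ?_) h0.le) zero_le)
  filter_upwards [ae_good1 h c] with ω hω ⟨⟨a1, a2⟩, ⟨a3, a4, _⟩, a5, a6⟩
  have ho : isA c ω o = true := by simpa [isA] using a1
  refine ⟨ho, 1, hω.Dead_mono d0.le (by simpa using d1)
    (two_dead hω ho (by simpa [isA] using a2) d0.le a3 a4 a5 a6)⟩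

end Pool.Agent.P.MP_6a2a35_pr
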