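import Pool.Agent.P.MP_6a2a35_pr.Defs

/-! Product measure tools: resampling a coordinate, head and tail, lack of memory. -/

namespace Pool.Agent.P.MP_6a2a35_pr

open MeasureTheory ProbabilityTheory Filter Function
open scoped ENNReal NNReal Classical

section general

variable {ι X : Type*} [MeasurableSpace X] (μ : Measure X) [IsProbabilityMeasure μ]

theorem map_update_infinitePi [DecidableEq ι] (x : ι) :
    (μ.prod (Measure.infinitePi fun _ : ι => μ)).map (fun q => update q.2 x q.1) =
      Measure.infinitePi fun _ : ι => μ := by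
  refine Measure.eq_infinitePi _ fun s t ht => ?_
  have hm : Measurable (fun q : X × (ι → X) => update q.2 x q.1) :=
    measurable_update'.comp (measurable_snd.prodMk measurable_fst)
  rw [Measure.map_apply hm (.pi s.countable_toSet fun i _ => ht i)]
  have : (fun q : X × (ι → X) => update q.2 x q.1) ⁻¹' (Set.pi s t) =
      (if x ∈ s then t x else Set.univ) ×ˢ Set.pi (s.erase x : Finset ι) t := by
    ext ⟨a, f⟩
    simp only [Set.mem_preimage, Set.mem_pi, Finset.mem_coe, Set.mem_prod, Finset.mem_erase]
    constructor
    · intro h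
      refine ⟨?_, fun i hi => ?_⟩
      · split_ifs with hx
        · simpa using h x hx
        · trivial
      · simpa [update_of_ne hi.1] using h i hi.2
    · rintro ⟨h1, h2⟩ i hi
      by_cases hix : i = x
      · subst hix; simpa [hi] using h1
      · simpa [update_of_ne hix] using h2 i ⟨hix, hi⟩
  rw [this, Measure.prod_prod, Measure.infinitePi_pi _ (fun i _ => ht i)]
  split_ifs with hx
  · exact Finset.mul_prod_erase s (fun i => μ (t i)) hx
  · simp [Finset.erase_eq_of_notMem hx]

theorem lintegral_resample [DecidableEq ι] (x : ι) {F : (ι → X) → ℝ≥0∞} (hF : Measurable F) :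
    ∫⁻ f, F f ∂(Measure.infinitePi fun _ : ι => μ) =
      ∫⁻ a, ∫⁻ f, F (update f x a) ∂(Measure.infinitePi fun _ : ι => μ) ∂μ := by
  have hm : Measurable (fun q : X × (ι → X) => update q.2 x q.1) :=
    measurable_update'.comp (measurable_snd.prodMk measurable_fst)
  conv_lhs => rw [← map_update_infinitePi μ x]
  rw [lintegral_map hF hm]
  exact lintegral_prod _ (hF.comp hm).aemeasurable

theorem lintegral_resample' [DecidableEq ι] (x : ι) {F : (ι → X) → ℝ≥0∞} (hF : Measurable F) :
    ∫⁻ f, F f ∂(Measure.infinitePi fun _ : ι => μ) =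
      ∫⁻ f, ∫⁻ a, F (update f x a) ∂μ ∂(Measure.infinitePi fun _ : ι => μ) := by
  have hm : Measurable (fun q : X × (ι → X) => update q.2 x q.1) :=
    measurable_update'.comp (measurable_snd.prodMk measurable_fst)
  rw [lintegral_resample μ x hF]
  exact lintegral_lintegral_swap (f := fun a f => F (update f x a)) (hF.comp hm).aemeasurable

/-- Independence of one coordinate from a function not depending on it. -/
theorem lintegral_mul_indep [DecidableEq ι] (x : ι) {f : X → ℝ≥0∞} (hf : Measurable f)
    {F : (ι → X) → ℝ≥0∞} (hF : Measurable F) (h : ∀ g a, F (update g x a) = F g) :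
    ∫⁻ g, f (g x) * F g ∂(Measure.infinitePi fun _ : ι => μ) =
      (∫⁻ a, f a ∂μ) * ∫⁻ g, F g ∂(Measure.infinitePi fun _ : ι => μ) := by
  rw [lintegral_resample μ x (F := fun g => f (g x) * F g)
    ((hf.comp (measurable_pi_apply x)).mul hF)]
  simp only [update_self, h]
  rw [← lintegral_mul_const _ hf]
  exact lintegral_congr fun a => lintegral_const_mul _ hF

def tail (d : ℕ → X) : ℕ → X := fun n => d (n + 1)

theorem measurable_tail : Measurable (tail : (ℕ → X) → ℕ → X) :=
  measurable_pi_lambda _ fun n => measurable_pi_apply (n + 1)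

theorem map_tail : (Measure.infinitePi fun _ : ℕ => μ).map tail =
    Measure.infinitePi fun _ : ℕ => μ :=
  Measure.map_infinitePi_infinitePi_of_inj (P := fun _ : ℕ => μ) (f := fun n : ℕ => n + 1)
    (add_left_injective 1)

/-- Head and tail are independent. -/
theorem lintegral_head_tail {F : X × (ℕ → X) → ℝ≥0∞} (hF : Measurable F) :
    ∫⁻ d, F (d 0, tail d) ∂(Measure.infinitePi fun _ : ℕ => μ) =
      ∫⁻ a, ∫⁻ d, F (a, d) ∂(Measure.infinitePi fun _ : ℕ => μ) ∂μ := by
  rw [lintegral_resample μ 0 (F := fun d => F (d 0, tail d))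
    (hF.comp ((measurable_pi_apply 0).prodMk measurable_tail))]
  refine lintegral_congr fun a => ?_
  have : ∀ d : ℕ → X, tail (update d 0 a) = tail d := by
    intro d; funext n; simp [tail]
  simp only [update_self, this]
  conv_rhs => rw [← map_tail μ]
  exact (lintegral_map (hF.comp measurable_prodMk_left) measurable_tail).symm

end general

instance : IsProbabilityMeasure (expMeasure 1) := isProbabilityMeasure_expMeasure one_pos

theorem lintegral_exp {F : ℝ → ℝ≥0∞} (hF : Measurable F) :
    ∫⁻ e, F e ∂(expMeasure 1) =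
      ∫⁻ e, (if 0 ≤ e then ENNReal.ofReal (Real.exp (-e)) else 0) * F e := by
  have hm : Measurable (gammaPDF 1 1) := (measurable_gammaPDFReal 1 1).ennreal_ofReal
  rw [expMeasure, gammaMeasure, lintegral_withDensity_eq_lintegral_mul _ hm hF]
  refine lintegral_congr fun e => ?_
  have := exponentialPDF_eq 1 e
  simp only [exponentialPDF, exponentialPDFReal] at this
  simp only [Pi.mul_apply, gammaPDF, this]
  split_ifs <;> simp

theorem exp_le_volume (s : Set ℝ) (hs : MeasurableSet s) : expMeasure 1 s ≤ volume s := by
  rw [← lintegral_indicator_one hs, ← lintegral_indicator_one hs,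
    lintegral_exp (measurable_one.indicator hs)]
  refine lintegral_mono fun e => ?_
  refine mul_le_of_le_one_left' ?_
  split_ifs with h
  · simpa using h
  · simp

theorem ae_exp_pos : ∀ᵐ e ∂(expMeasure 1), 0 < e := by
  rw [ae_iff]
  have hs : MeasurableSet {e : ℝ | ¬ 0 < e} := (measurableSet_lt measurable_const measurable_id).compl
  rw [← lintegral_indicator_one hs, lintegral_exp (measurable_one.indicator hs)]
  have : ∀ᵐ e ∂(volume : Measure ℝ), e ≠ 0 := by simp [ae_iff]
  rw [← lintegral_zero (μ := (volume : Measure ℝ))]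
  refine lintegral_congr_ae (this.mono fun e he => ?_)
  by_cases h : 0 ≤ e
  · have : 0 < e := lt_of_le_of_ne h he.symm
    simp [this]
  · simp [h]

/-- Lack of memory. -/
theorem lintegral_exp_sub {F : ℝ → ℝ≥0∞} (hF : Measurable F) {a : ℝ} (ha : 0 ≤ a) :
    ∫⁻ e, (if a < e then F (e - a) else 0) ∂(expMeasure 1) =
      ENNReal.ofReal (Real.exp (-a)) * ∫⁻ e, F e ∂(expMeasure 1) := by
  have h1 : Measurable fun e => if a < e then F (e - a) else 0 :=
    Measurable.ite (measurableSet_lt measurable_const measurable_id)
      (hF.comp (measurable_id.sub_const a)) measurable_const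
  rw [lintegral_exp h1, lintegral_exp hF, ← lintegral_add_right_eq_self _ a,
    ← lintegral_const_mul]
  · have : ∀ᵐ e ∂(volume : Measure ℝ), e ≠ 0 := by simp [ae_iff]
    refine lintegral_congr_ae (this.mono fun e he => ?_)
    by_cases h : 0 ≤ e
    · have h2 : 0 < e := lt_of_le_of_ne h he.symm
      have h3 : 0 ≤ e + a := by linarith
      simp only [h3, if_true, lt_add_iff_pos_left, h2, add_sub_cancel_right, h]
      rw [← mul_assoc, ← ENNReal.ofReal_mul (Real.exp_pos _).le, ← Real.exp_add]
      congr 3; ring
    · have : ¬ 0 < e := fun h' => h h'.le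
      simp [h, this]
  · exact (Measurable.ite (measurableSet_le measurable_const measurable_id)
      (by fun_prop) measurable_const).mul hF

end Pool.Agent.P.MP_6a2a35_pr
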