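import Pool.Agent.P.MP_6a2a35_pr.Meas

/-! Case analysis of one step and invariants. -/

namespace Pool.Agent.P.MP_6a2a35_pr

open Function
open scoped ENNReal NNReal Classical

variable {V : Type*} {ty : V → Bool} {br : V → ℝ} {cap : Bool → ℝ≥0∞} {σ : V → Loc V} {m : V}
  {η : V → V} {W : Finset V}

def Foe (ty : V → Bool) (σ : V → Loc V) (m v z : V) : Prop :=
  (σ m).Active ∧ (σ z).Active ∧ (σ z).pos = v ∧ ty z ≠ ty m

def Mate (ty : V → Bool) (cap : Bool → ℝ≥0∞) (σ : V → Loc V) (m v z : V) : Prop :=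
  (σ m).Active ∧ (σ z).Active ∧ (σ z).pos = v ∧ ty z = ty m ∧
    z ≠ m ∧ ((σ z).cl.card : ℝ≥0∞) ≤ cap (ty m) ∧ ((σ m).cl.card : ℝ≥0∞) ≤ cap (ty m)

noncomputable def mov (σ : V → Loc V) (m v : V) : V → Loc V :=
  fun y => if y = m then ⟨v, (σ m).cl, (σ m).kil⟩ else σ y

noncomputable def ann (σ : V → Loc V) (a b : V) : V → Loc V :=
  fun y => if y = a then ⟨(σ a).pos, (σ a).cl, (σ b).cl⟩
    else if y = b then ⟨(σ b).pos, (σ b).cl, (σ a).cl⟩ else σ y

noncomputable def mer (σ : V → Loc V) (w l : V) : V → Loc V :=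
  fun y => if y = w then ⟨(σ w).pos, (σ w).cl ∪ (σ l).cl, (σ w).kil⟩
    else if y = l then ⟨(σ l).pos, ∅, (σ l).kil⟩ else σ y

@[simp] theorem mov_cl (v y : V) : (mov σ m v y).cl = (σ y).cl := by
  unfold mov; split_ifs with h <;> simp [h]
@[simp] theorem mov_kil (v y : V) : (mov σ m v y).kil = (σ y).kil := by
  unfold mov; split_ifs with h <;> simp [h]
theorem mov_pos (v y : V) : (mov σ m v y).pos = if y = m then v else (σ y).pos := by
  unfold mov; split_ifs with h <;> simp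
@[simp] theorem mov_active (v y : V) : (mov σ m v y).Active ↔ (σ y).Active := by
  simp [Loc.Active]
@[simp] theorem ann_cl (a b y : V) : (ann σ a b y).cl = (σ y).cl := by
  unfold ann; split_ifs with h h' <;> simp [*]
@[simp] theorem ann_pos (a b y : V) : (ann σ a b y).pos = (σ y).pos := by
  unfold ann; split_ifs with h h' <;> simp [*]
theorem ann_kil (a b y : V) : (ann σ a b y).kil =
    if y = a then (σ b).cl else if y = b then (σ a).cl else (σ y).kil := by
  unfold ann; split_ifs with h h' <;> simp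
@[simp] theorem mer_kil (a b y : V) : (mer σ a b y).kil = (σ y).kil := by
  unfold mer; split_ifs with h h' <;> simp [*]
@[simp] theorem mer_pos (a b y : V) : (mer σ a b y).pos = (σ y).pos := by
  unfold mer; split_ifs with h h' <;> simp [*]
theorem mer_cl (a b y : V) : (mer σ a b y).cl =
    if y = a then (σ a).cl ∪ (σ b).cl else if y = b then ∅ else (σ y).cl := by
  unfold mer; split_ifs with h h' <;> simp

theorem ann_active {a b : V} (ha : (σ a).Active) (hb : (σ b).Active) (y : V) :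
    (ann σ a b y).Active ↔ (σ y).Active ∧ y ≠ a ∧ y ≠ b := by
  simp only [Loc.Active, ann_cl, ann_kil]
  split_ifs with h h'
  · simp [h, hb.1.ne_empty]
  · simp [h', ha.1.ne_empty]
  · simp [h, h']

theorem mer_active {a b : V} (ha : (σ a).Active) (hab : a ≠ b) (y : V) :
    (mer σ a b y).Active ↔ (σ y).Active ∧ y ≠ b := by
  simp only [Loc.Active, mer_cl, mer_kil]
  split_ifs with h h'
  · simp [h, ha.1, ha.2, hab]
  · simp [h']
  · simp [h']

theorem step_spec :
    (∃ z, Foe ty σ m (η (σ m).pos) z ∧ (∀ y, Foe ty σ m (η (σ m).pos) y → y ≠ z → br y < br z) ∧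
      step ty br cap σ m η = ann (mov σ m (η (σ m).pos)) m z) ∨
    (bravest br (Foe ty σ m (η (σ m).pos)) = none ∧ ∃ z, Mate ty cap σ m (η (σ m).pos) z ∧
      (step ty br cap σ m η = mer (mov σ m (η (σ m).pos)) m z ∨
        step ty br cap σ m η = mer (mov σ m (η (σ m).pos)) z m)) ∨
    (bravest br (Foe ty σ m (η (σ m).pos)) = none ∧
      bravest br (Mate ty cap σ m (η (σ m).pos)) = none ∧
      step ty br cap σ m η = mov σ m (η (σ m).pos)) := by
  have e : step ty br cap σ m η = fun y => match bravest br (Foe ty σ m (η (σ m).pos)),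
      bravest br (Mate ty cap σ m (η (σ m).pos)) with
    | some z, _ =>
      if y = m then ⟨η (σ m).pos, (σ m).cl, (σ z).cl⟩
      else if y = z then ⟨(σ z).pos, (σ z).cl, (σ m).cl⟩ else σ y
    | none, some z =>
      if y = m then ⟨η (σ m).pos, if br z < br m then (σ m).cl ∪ (σ z).cl else ∅, ∅⟩
      else if y = z then ⟨(σ z).pos, if br z < br m then ∅ else (σ m).cl ∪ (σ z).cl, ∅⟩ else σ y
    | none, none => if y = m then ⟨η (σ m).pos, (σ m).cl, (σ m).kil⟩ else σ y := rfl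
  rw [e]
  rcases h1 : bravest br (Foe ty σ m (η (σ m).pos)) with _ | z
  · rcases h2 : bravest br (Mate ty cap σ m (η (σ m).pos)) with _ | z
    · exact Or.inr (Or.inr ⟨rfl, rfl, rfl⟩)
    · have h3 := (bravest_eq_some.1 h2).1
      refine Or.inr (Or.inl ⟨rfl, z, h3, ?_⟩)
      obtain ⟨a1, a2, a3, -, a5, -⟩ := h3
      by_cases hb : br z < br m
      · refine Or.inl (funext fun y => ?_)
        simp only [mer, mov, hb, a5, if_true, if_false, a1.2, a2.2]
        split_ifs <;> simp_all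
      · refine Or.inr (funext fun y => ?_)
        simp only [mer, mov, hb, a5, if_true, if_false, a1.2, a2.2, Finset.union_comm]
        split_ifs <;> simp_all
  · have h3 := bravest_eq_some.1 h1
    refine Or.inl ⟨z, h3.1, h3.2, funext fun y => ?_⟩
    have a5 : z ≠ m := fun h => h3.1.2.2.2 (by rw [h])
    simp only [ann, mov, a5, if_true, if_false]
    split_ifs <;> simp_all

theorem bravest_none {P : V → Prop} (hbr : Injective br) (hP : {z | P z}.Finite)
    (h : bravest br P = none) (z : V) : ¬ P z := by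
  intro hz
  obtain ⟨y, hy, h1⟩ := Set.exists_max_image _ br hP ⟨z, hz⟩
  have : bravest br P = some y :=
    bravest_eq_some.2 ⟨hy, fun x hx hxy => lt_of_le_of_ne (h1 x hx) fun h2 => hxy (hbr h2)⟩
  simp [h] at this

theorem Foe.ne {v z : V} (h : Foe ty σ m v z) : z ≠ m := fun h' => h.2.2.2 (by rw [h'])

theorem step_pos (y : V) :
    (step ty br cap σ m η y).pos = if y = m then η (σ m).pos else (σ y).pos := by
  rcases step_spec (ty := ty) (br := br) (cap := cap) (σ := σ) (m := m) (η := η) with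
    ⟨z, -, -, h⟩ | ⟨-, z, -, h | h⟩ | ⟨-, -, h⟩ <;> simp [h, mov_pos]

theorem step_active {y : V} (hy : (step ty br cap σ m η y).Active) : (σ y).Active := by
  rcases step_spec (ty := ty) (br := br) (cap := cap) (σ := σ) (m := m) (η := η) with
    ⟨z, a, -, h⟩ | ⟨-, z, a, h | h⟩ | ⟨-, -, h⟩ <;> rw [h] at hy
  · simpa using ((ann_active (by simpa using a.1) (by simpa using a.2.1) y).1 hy).1
  · simpa using ((mer_active (by simpa using a.1) a.2.2.2.2.1.symm y).1 hy).1
  · simpa using ((mer_active (by simpa using a.2.1) a.2.2.2.2.1 y).1 hy).1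
  · simpa using hy

theorem step_inactive {y : V} (hy : ¬ (σ y).Active) :
    (step ty br cap σ m η y).cl = (σ y).cl ∧ (step ty br cap σ m η y).kil = (σ y).kil := by
  rcases step_spec (ty := ty) (br := br) (cap := cap) (σ := σ) (m := m) (η := η) with
    ⟨z, a, -, h⟩ | ⟨-, z, a, h | h⟩ | ⟨-, -, h⟩ <;> rw [h]
  rotate_right
  · simp
  all_goals
    have b1 : y ≠ m := fun e => hy (e ▸ a.1)
    have b2 : y ≠ z := fun e => hy (e ▸ a.2.1)
    simp [ann_kil, mer_cl, b1, b2]

theorem step_far {y : V} (hy : y ≠ m) (hv : (σ y).pos ≠ η (σ m).pos) :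
    step ty br cap σ m η y = σ y := by
  rcases step_spec (ty := ty) (br := br) (cap := cap) (σ := σ) (m := m) (η := η) with
    ⟨z, a, -, h⟩ | ⟨-, z, a, h | h⟩ | ⟨-, -, h⟩ <;> rw [h]
  rotate_right
  · simp [mov, hy]
  all_goals
    have b2 : y ≠ z := fun e => hv (e ▸ a.2.2.1)
    simp [ann, mer, mov, hy, b2]

theorem step_cap {cap' : Bool → ℝ≥0∞}
    (h : ∀ z, ((σ z).cl.card : ℝ≥0∞) ≤ cap (ty m) ↔ ((σ z).cl.card : ℝ≥0∞) ≤ cap' (ty m)) :
    step ty br cap σ m η = step ty br cap' σ m η := by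
  unfold step
  simp only [h]

/-- Bookkeeping invariants. -/
structure Inv (ty : V → Bool) (cap : Bool → ℝ≥0∞) (W : Finset V) (σ : V → Loc V) : Prop where
  self : ∀ z, (σ z).cl.Nonempty → z ∈ (σ z).cl
  sub : ∀ z, (σ z).cl ⊆ W
  disj : ∀ x z z', x ∈ (σ z).cl → x ∈ (σ z').cl → z = z'
  hom : ∀ x z, x ∈ (σ z).cl → ty x = ty z
  cover : ∀ x ∈ W, ∃ z, x ∈ (σ z).cl
  kill : ∀ z, (σ z).kil ≠ ∅ → ∃ z', ty z' ≠ ty z ∧ (σ z).cl.Nonempty ∧ (σ z).kil = (σ z').cl ∧
    (σ z').kil = (σ z).cl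
  size : ∀ z, ((σ z).cl.card : ℝ≥0∞) ≤ max 1 (2 * cap (ty z))

theorem Inv.mem (h : Inv ty cap W σ) {z : V} (hz : (σ z).cl.Nonempty) : z ∈ W :=
  h.sub z (h.self z hz)

theorem Inv.finite (h : Inv ty cap W σ) {P : V → Prop} (hP : ∀ z, P z → (σ z).Active) :
    {z | P z}.Finite := W.finite_toSet.subset fun z hz => h.mem (hP z hz).1

theorem inv_init : Inv ty cap W (init W) := by
  refine ⟨fun z => ?_, fun z => ?_, fun x z z' => ?_, fun x z => ?_, fun x hx => ⟨x, ?_⟩,
    fun z => ?_, fun z => ?_⟩ <;> simp only [init]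
  · split_ifs <;> simp
  · split_ifs <;> simp [*]
  · split_ifs <;> simp +contextual
  · split_ifs <;> simp +contextual
  · simp [hx]
  · simp
  · split_ifs <;> simp

theorem Inv.mov (h : Inv ty cap W σ) (m v : V) : Inv ty cap W (mov σ m v) :=
  ⟨by simpa using h.self, by simpa using h.sub, by simpa using h.disj, by simpa using h.hom,
    by simpa using h.cover, by simpa using h.kill, by simpa using h.size⟩

theorem Inv.ann (h : Inv ty cap W σ) {a b : V} (ha : (σ a).Active) (hb : (σ b).Active)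
    (hab : ty b ≠ ty a) : Inv ty cap W (ann σ a b) := by
  refine ⟨by simpa using h.self, by simpa using h.sub, by simpa using h.disj,
    by simpa using h.hom, by simpa using h.cover, fun z => ?_, by simpa using h.size⟩
  have h0 : b ≠ a := fun e => hab (by rw [e])
  simp only [ann_cl, ann_kil]
  split_ifs with h1 h2
  · exact fun _ => ⟨b, h1 ▸ hab, h1 ▸ ha.1, rfl, by simp [h0, h1]⟩
  · exact fun _ => ⟨a, h2 ▸ hab.symm, h2 ▸ hb.1, rfl, by simp [h2]⟩
  · intro hz
    obtain ⟨z', a1, a2, a3, a4⟩ := h.kill z hz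
    have b1 : z' ≠ a := fun e => a2.ne_empty (by rw [← a4, e, ha.2])
    have b2 : z' ≠ b := fun e => a2.ne_empty (by rw [← a4, e, hb.2])
    exact ⟨z', a1, a2, a3, by simp [b1, b2, a4]⟩

theorem Inv.mer (h : Inv ty cap W σ) {a b : V} (ha : (σ a).Active) (hb : (σ b).Active)
    (hab : ty b = ty a) (h1 : ((σ a).cl.card : ℝ≥0∞) ≤ cap (ty a))
    (h2 : ((σ b).cl.card : ℝ≥0∞) ≤ cap (ty a)) : Inv ty cap W (mer σ a b) := by
  have key : ∀ x z, x ∈ (MP_6a2a35_pr.mer σ a b z).cl ↔
      (z = a ∧ x ∈ (σ b).cl) ∨ ((z = a ∨ z ≠ b) ∧ x ∈ (σ z).cl) := by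
    intro x z
    rw [mer_cl]
    split_ifs with c1 c2
    · simp [c1, or_comm]
    · subst c2; simp [c1]
    · simp [c1, c2]
  refine ⟨fun z => ?_, fun z x hx => ?_, fun x z z' => ?_, fun x z => ?_, fun x hx => ?_,
    fun z => ?_, fun z => ?_⟩
  · rintro ⟨x, hx⟩
    rw [key] at hx ⊢
    rcases hx with ⟨c1, -⟩ | ⟨c1, c2⟩
    · exact Or.inr ⟨Or.inl c1, c1 ▸ h.self a ha.1⟩
    · exact Or.inr ⟨c1, h.self z ⟨x, c2⟩⟩
  · rcases (key x z).1 hx with ⟨-, c⟩ | ⟨-, c⟩ <;> exact h.sub _ c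
  · rw [key, key]
    rintro (⟨c1, c2⟩ | ⟨c1, c2⟩) (⟨d1, d2⟩ | ⟨d1, d2⟩)
    · rw [c1, d1]
    · rw [c1]; exact (d1.resolve_right fun e => e (h.disj x _ _ d2 c2)).symm
    · rw [d1]; exact c1.resolve_right fun e => e (h.disj x _ _ c2 d2)
    · exact h.disj x _ _ c2 d2
  · rw [key]
    rintro (⟨c1, c2⟩ | ⟨-, c2⟩)
    · rw [h.hom x b c2, hab, c1]
    · exact h.hom x z c2
  · obtain ⟨z, hz⟩ := h.cover x hx
    by_cases c : z = b
    · exact ⟨a, (key x a).2 (Or.inl ⟨rfl, c ▸ hz⟩)⟩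
    · exact ⟨z, (key x z).2 (Or.inr ⟨Or.inr c, hz⟩)⟩
  · rw [mer_kil]
    intro hz
    obtain ⟨z', a1, a2, a3, a4⟩ := h.kill z hz
    have b1 : z' ≠ a := fun e => a2.ne_empty (by rw [← a4, e, ha.2])
    have b2 : z' ≠ b := fun e => a2.ne_empty (by rw [← a4, e, hb.2])
    have b3 : z ≠ a := fun e => hz (by rw [e, ha.2])
    have b4 : z ≠ b := fun e => hz (by rw [e, hb.2])
    exact ⟨z', a1, by simpa [mer_cl, b3, b4] using a2, by simp [mer_cl, b1, b2, a3],
      by simp [mer_cl, b3, b4, a4]⟩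
  · rw [mer_cl]
    split_ifs with c1 c2
    · refine le_max_of_le_right ?_
      rw [c1, two_mul]
      exact le_trans (by exact_mod_cast Finset.card_union_le _ _) (add_le_add h1 h2)
    · simp
    · exact h.size z

theorem Inv.step (h : Inv ty cap W σ) (br : V → ℝ) (m : V) (η : V → V) :
    Inv ty cap W (step ty br cap σ m η) := by
  rcases step_spec (ty := ty) (br := br) (cap := cap) (σ := σ) (m := m) (η := η) with
    ⟨z, a, -, e⟩ | ⟨-, z, a, e | e⟩ | ⟨-, -, e⟩ <;> rw [e]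
  · exact (h.mov _ _).ann (by simpa using a.1) (by simpa using a.2.1) a.2.2.2
  · exact (h.mov _ _).mer (by simpa using a.1) (by simpa using a.2.1) a.2.2.2.1
      (by simpa using a.2.2.2.2.2.2) (by simpa using a.2.2.2.2.2.1)
  · exact (h.mov _ _).mer (by simpa using a.2.1) (by simpa using a.1) a.2.2.2.1.symm
      (by simpa [a.2.2.2.1] using a.2.2.2.2.2.1) (by simpa [a.2.2.2.1] using a.2.2.2.2.2.2)
  · exact h.mov _ _

/-- No reaction is possible. -/
def Stab (ty : V → Bool) (cap : Bool → ℝ≥0∞) (σ : V → Loc V) : Prop :=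
  ∀ z z', (σ z).Active → (σ z').Active → z ≠ z' → (σ z).pos = (σ z').pos →
    ty z = ty z' ∧ ¬ (((σ z).cl.card : ℝ≥0∞) ≤ cap (ty z) ∧ ((σ z').cl.card : ℝ≥0∞) ≤ cap (ty z))

theorem stab_init : Stab ty cap (init W) := fun _ _ _ _ h1 h2 => absurd h2 h1

theorem Stab.step (hbr : Injective br) (hI : Inv ty cap W σ) (h : Stab ty cap σ) (m : V)
    (η : V → V) : Stab ty cap (step ty br cap σ m η) := by
  set v := η (σ m).pos
  have nf : bravest br (Foe ty σ m v) = none → ∀ z, ¬ Foe ty σ m v z :=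
    bravest_none hbr (hI.finite fun z hz => hz.2.1)
  have nm : bravest br (Mate ty cap σ m v) = none → ∀ z, ¬ Mate ty cap σ m v z :=
    bravest_none hbr (hI.finite fun z hz => hz.2.1)
  suffices H : ∀ z z', (MP_6a2a35_pr.step ty br cap σ m η z).Active →
      (MP_6a2a35_pr.step ty br cap σ m η z').Active → z ≠ z' → z' ≠ m →
      (MP_6a2a35_pr.step ty br cap σ m η z).pos = (MP_6a2a35_pr.step ty br cap σ m η z').pos →
      ty z = ty z' ∧ ¬ (((MP_6a2a35_pr.step ty br cap σ m η z).cl.card : ℝ≥0∞) ≤ cap (ty z) ∧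
        ((MP_6a2a35_pr.step ty br cap σ m η z').cl.card : ℝ≥0∞) ≤ cap (ty z)) by
    intro z z' a1 a2 a3 a4
    by_cases c : z' = m
    · obtain ⟨b1, b2⟩ := H z' z a2 a1 a3.symm (c ▸ a3) a4.symm
      exact ⟨b1.symm, fun b3 => b2 (b1 ▸ b3.symm)⟩
    · exact H z z' a1 a2 a3 c a4
  intro y y' a1 a2 a3 a4 a5
  have b1 := step_active a1
  have b2 := step_active a2
  rw [step_pos, step_pos, if_neg a4] at a5
  have mono : ∀ s t : Finset V, ((s ∪ t).card : ℝ≥0∞) ≤ cap (ty y) →
      (s.card : ℝ≥0∞) ≤ cap (ty y) ∧ (t.card : ℝ≥0∞) ≤ cap (ty y) := fun s t hst =>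
    ⟨le_trans (by exact_mod_cast Finset.card_le_card Finset.subset_union_left) hst,
      le_trans (by exact_mod_cast Finset.card_le_card Finset.subset_union_right) hst⟩
  rcases step_spec (ty := ty) (br := br) (cap := cap) (σ := σ) (m := m) (η := η) with
    ⟨z, a, -, e⟩ | ⟨f, z, a, e | e⟩ | ⟨f, g, e⟩ <;> rw [e] at a1 a2 ⊢
  · have c1 := (ann_active (by simpa using a.1) (by simpa using a.2.1) y).1 a1
    rw [if_neg c1.2.1] at a5
    simpa using h y y' b1 b2 a3 a5
  · have c1 := ((mer_active (by simpa using a.1) a.2.2.2.2.1.symm y).1 a1).2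
    have c2 := ((mer_active (by simpa using a.1) a.2.2.2.2.1.symm y').1 a2).2
    simp only [mer_cl, c1, c2, a4, if_false, mov_cl]
    split_ifs at a5 ⊢ with c3
    · obtain ⟨d1, d2⟩ := h z y' a.2.1 b2 c2.symm (a.2.2.1.trans a5)
      rw [a.2.2.2.1, ← c3] at d1 d2
      exact ⟨d1, fun d3 => d2 ⟨(mono _ _ d3.1).2, d3.2⟩⟩
    · exact h y y' b1 b2 a3 a5
  · have c1 := ((mer_active (by simpa using a.2.1) a.2.2.2.2.1 y).1 a1).2
    rw [if_neg c1] at a5
    obtain ⟨d1, d2⟩ := h y y' b1 b2 a3 a5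
    refine ⟨d1, fun d3 => d2 ?_⟩
    simp only [mer_cl, c1, a4, if_false, mov_cl] at d3
    split_ifs at d3 with c3 c4 c4
    · exact absurd (c3.trans c4.symm) a3
    · exact ⟨c3 ▸ (mono _ _ d3.1).1, d3.2⟩
    · exact ⟨d3.1, c4 ▸ (mono _ _ d3.2).1⟩
    · exact d3
  · simp only [mov_cl]
    split_ifs at a5 with c3
    · subst c3
      have d1 : ty y' = ty y := by
        by_contra d1
        exact nf f y' ⟨b1, b2, a5.symm, d1⟩
      exact ⟨d1.symm, fun d3 => nm g y' ⟨b1, b2, a5.symm, d1, a4, d3.2, d3.1⟩⟩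
    · exact h y y' b1 b2 a3 a5

theorem Inv.fold (h : Inv ty cap W σ) (br : V → ℝ) (w : List (V × (V → V))) :
    Inv ty cap W (fold (MP_6a2a35_pr.step ty br cap) σ w) := by
  induction w generalizing σ with
  | nil => exact h
  | cons e w ih => exact ih (h.step br _ _)

theorem Stab.fold (hbr : Injective br) (hI : Inv ty cap W σ) (h : Stab ty cap σ)
    (w : List (V × (V → V))) : Stab ty cap (fold (MP_6a2a35_pr.step ty br cap) σ w) := by
  induction w generalizing σ with
  | nil => exact h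
  | cons e w ih => exact ih (hI.step br _ _) (h.step hbr hI _ _)

theorem fold_active {w : List (V × (V → V))} {y : V}
    (hy : (fold (step ty br cap) σ w y).Active) : (σ y).Active := by
  induction w generalizing σ with
  | nil => exact hy
  | cons e w ih => exact step_active (ih hy)

theorem fold_inactive (w : List (V × (V → V))) {y : V} (hy : ¬ (σ y).Active) :
    (fold (step ty br cap) σ w y).cl = (σ y).cl ∧ (fold (step ty br cap) σ w y).kil = (σ y).kil := by
  induction w generalizing σ with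
  | nil => exact ⟨rfl, rfl⟩
  | cons e w ih =>
    have h1 := ih (σ := step ty br cap σ e.1 e.2) fun h => hy (step_active h)
    have h2 := step_inactive (ty := ty) (br := br) (cap := cap) (m := e.1) (η := e.2) hy
    exact ⟨h1.1.trans h2.1, h1.2.trans h2.2⟩

end Pool.Agent.P.MP_6a2a35_pr
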