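import Pool.Agent.P.MP_6a2a35_pr.Local

/-! Symmetries: invariance of the law and equivariance of the dynamics. -/

namespace Pool.Agent.P.MP_6a2a35_pr

open MeasureTheory ProbabilityTheory Function
open scoped ENNReal NNReal Classical

variable {V : Type*} (g : Equiv.Perm V)

def conj (η : V → V) : V → V := fun v => g (η (g.symm v))
def actF (d : Fut V) : Fut V := fun n => ((d n).1, conj g (d n).2)
def actP (φ : V → Fut V) : V → Fut V := fun x => actF g (φ (g.symm x))
def act (ω : Omega V) : Omega V := (fun x => ω.1 (g.symm x), actP g ω.2)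
def actL (l : Loc V) : Loc V := ⟨g l.pos, l.cl.map g.toEmbedding, l.kil.map g.toEmbedding⟩
def actS (σ : V → Loc V) : V → Loc V := fun x => actL g (σ (g.symm x))

section meas

variable [MeasurableSpace V] [Countable V] [DiscreteMeasurableSpace V] {K : V → PMF V} {g}

theorem mp_conj (hg : ∀ u v, K (g u) (g v) = K u v) :
    MeasurePreserving (conj g) (mapLaw K) (mapLaw K) := by
  have hm : Measurable g := .of_discrete
  have h1 : Measurable fun (η : V → V) v => η (g.symm v) := by fun_prop
  have h2 : Measurable fun (η : V → V) v => g (η v) := by fun_prop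
  refine ⟨h2.comp h1, ?_⟩
  change Measure.map ((fun (η : V → V) v => g (η v)) ∘ fun (η : V → V) v => η (g.symm v)) _ = _
  rw [← Measure.map_map h2 h1, mapLaw, Measure.map_infinitePi_infinitePi_of_inj g.symm.injective,
    Measure.infinitePi_map_pi (f := fun _ v => g v) _ fun _ => hm]
  congr 1
  funext v
  refine Measure.ext_of_singleton fun w => ?_
  have : (fun v => g v) ⁻¹' {w} = {g.symm w} := by
    ext u; simp [Equiv.eq_symm_apply]
  rw [Measure.map_apply hm (measurableSet_singleton w), this,
    PMF.toMeasure_apply_singleton _ _ (measurableSet_singleton _),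
    PMF.toMeasure_apply_singleton _ _ (measurableSet_singleton _), ← hg]
  simp

theorem mp_actF (hg : ∀ u v, K (g u) (g v) = K u v) :
    MeasurePreserving (actF g) (futLaw K) (futLaw K) := by
  have h1 : MeasurePreserving (Prod.map id (conj g)) (jumpLaw K) (jumpLaw K) :=
    (MeasurePreserving.id _).prod (mp_conj hg)
  refine ⟨measurable_pi_lambda _ fun n => h1.measurable.comp (measurable_pi_apply n), ?_⟩
  have := Measure.infinitePi_map_pi (fun _ : ℕ => jumpLaw K) (f := fun _ => Prod.map id (conj g))
    fun _ => h1.measurable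
  simp only [h1.map_eq] at this
  exact this

theorem mp_actP (hg : ∀ u v, K (g u) (g v) = K u v) :
    MeasurePreserving (actP g) (nu K) (nu K) := by
  have h0 := mp_actF hg
  have h1 : Measurable fun (φ : V → Fut V) v => φ (g.symm v) := by fun_prop
  have h2 : Measurable fun (φ : V → Fut V) v => actF g (φ v) :=
    measurable_pi_lambda _ fun n => h0.measurable.comp (measurable_pi_apply n)
  refine ⟨h2.comp h1, ?_⟩
  change Measure.map ((fun (φ : V → Fut V) v => actF g (φ v)) ∘
    fun (φ : V → Fut V) v => φ (g.symm v)) _ = _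
  rw [← Measure.map_map h2 h1, nu, Measure.map_infinitePi_infinitePi_of_inj g.symm.injective,
    Measure.infinitePi_map_pi (f := fun _ => actF g) _ fun _ => h0.measurable]
  simp only [h0.map_eq]

theorem mp_act (hg : ∀ u v, K (g u) (g v) = K u v) :
    MeasurePreserving (act g) (law K) (law K) := by
  have h1 : MeasurePreserving (fun (m : V → unitInterval × unitInterval) x => m (g.symm x))
      (markLaw V) (markLaw V) :=
    ⟨by fun_prop, Measure.map_infinitePi_infinitePi_of_inj g.symm.injective⟩
  exact h1.prod (mp_actP hg)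

end meas

@[simp] theorem arr_actF (d : Fut V) (n : ℕ) : arr (actF g d) n = arr d n := rfl
@[simp] theorem cnt_actF (d : Fut V) (a : ℝ) : cnt (actF g d) a = cnt d a := rfl
@[simp] theorem actP_apply (φ : V → Fut V) (x : V) : actP g φ (g x) = actF g (φ x) := by
  simp [actP]
@[simp] theorem actS_apply (σ : V → Loc V) (x : V) : actS g σ (g x) = actL g (σ x) := by
  simp [actS]
@[simp] theorem actL_pos (l : Loc V) : (actL g l).pos = g l.pos := rfl
@[simp] theorem actL_cl (l : Loc V) : (actL g l).cl = l.cl.map g.toEmbedding := rfl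
@[simp] theorem actL_kil (l : Loc V) : (actL g l).kil = l.kil.map g.toEmbedding := rfl
@[simp] theorem actL_active (l : Loc V) : (actL g l).Active ↔ l.Active := by
  simp [Loc.Active]

theorem path_actF (d : Fut V) (v : V) (n : ℕ) : path (actF g d) (g v) n = g (path d v n) := by
  induction n with
  | zero => rfl
  | succ n ih => simp [path, ih, actF, conj]

theorem bravest_act {br br' : V → ℝ} (hbr : ∀ x, br' (g x) = br x) {P P' : V → Prop}
    (hP : ∀ x, P' (g x) ↔ P x) : bravest br' P' = (bravest br P).map g := by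
  have key : ∀ z, bravest br' P' = some (g z) ↔ bravest br P = some z := by
    intro z
    rw [bravest_eq_some, bravest_eq_some, hP, g.surjective.forall]
    simp [hP, hbr]
  rcases h : bravest br P with _ | z
  · rcases h' : bravest br' P' with _ | z
    · rfl
    · obtain ⟨z, rfl⟩ := g.surjective z
      simp [(key z).1 h'] at h
  · exact (key z).2 h

theorem step_act {ty ty' : V → Bool} (hty : ∀ x, ty' (g x) = ty x) {br br' : V → ℝ}
    (hbr : ∀ x, br' (g x) = br x) (cap : Bool → ℝ≥0∞) (σ : V → Loc V) (m : V) (η : V → V) :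
    step ty' br' cap (actS g σ) (g m) (conj g η) = actS g (step ty br cap σ m η) := by
  funext y
  obtain ⟨y, rfl⟩ := g.surjective y
  have e0 : conj g η (actS g σ (g m)).pos = g (η (σ m).pos) := by simp [conj]
  rw [actS_apply]
  unfold step
  rw [e0, bravest_act g hbr (P := fun z => (σ m).Active ∧ (σ z).Active ∧
      (σ z).pos = η (σ m).pos ∧ ty z ≠ ty m) (by simp [hty]),
    bravest_act g hbr (P := fun z => (σ m).Active ∧ (σ z).Active ∧ (σ z).pos = η (σ m).pos ∧
      ty z = ty m ∧ z ≠ m ∧ ((σ z).cl.card : ℝ≥0∞) ≤ cap (ty m) ∧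
      ((σ m).cl.card : ℝ≥0∞) ≤ cap (ty m)) (by simp [hty])]
  generalize bravest br _ = a
  generalize bravest br _ = b
  rcases a with _ | a <;> rcases b with _ | b <;>
    simp only [Option.map, actS_apply, EmbeddingLike.apply_eq_iff_eq, hbr] <;>
    split_ifs <;> simp [actL, Finset.map_union]

theorem good_act {r r' : V → ℝ} (hr' : ∀ x, r' (g x) = r x) {φ : V → Fut V} {W : Finset V}
    (h : Good r φ W) : Good r' (actP g φ) (W.map g.toEmbedding) := by
  refine ⟨fun x hx => ?_, fun x hx y hy => ?_⟩
  · obtain ⟨x', hx', rfl⟩ := Finset.mem_map.1 hx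
    rw [Equiv.coe_toEmbedding, actP_apply]
    exact ⟨(h.gf x' hx').pos, (h.gf x' hx').fin⟩
  · obtain ⟨x', hx', rfl⟩ := Finset.mem_map.1 hx
    obtain ⟨y', hy', rfl⟩ := Finset.mem_map.1 hy
    simpa [tm, hr'] using h.inj x' hx' y' hy'

theorem word_act {r r' : V → ℝ} (hr : ∀ y, 0 ≤ r y) (hr' : ∀ x, r' (g x) = r x) {φ : V → Fut V}
    {W : Finset V} (h : Good r φ W) (T : ℝ) :
    word r' (actP g φ) (W.map g.toEmbedding) T =
      (word r φ W T).map fun e => (g e.1, conj g e.2) := by
  have h1 := events_isEv hr h T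
  have h0 : ∀ y, 0 ≤ r' y := g.surjective.forall.2 fun y => by rw [hr']; exact hr y
  have ht : ∀ x n, tm r' (actP g φ) (g x, n) = tm r φ (x, n) := fun x n => by simp [tm, hr']
  have h2 : IsEv r' (actP g φ) (W.map g.toEmbedding) 0 T
      ((events r φ W T).map fun e => (g e.1, e.2)) := by
    refine ⟨?_, List.pairwise_map.2 (h1.2.imp fun {e e'} h => by rwa [ht, ht])⟩
    rintro ⟨x, n⟩
    obtain ⟨x, rfl⟩ := g.surjective x
    have := h1.1 (x, n)
    simp only [List.mem_map, Prod.mk.injEq, EmbeddingLike.apply_eq_iff_eq, ht, hr',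
      Finset.mem_map_equiv, Equiv.symm_apply_apply, ← this]
    exact ⟨fun ⟨e, a1, a2, a3⟩ => by rwa [← a2, ← a3], fun a => ⟨_, a, rfl, rfl⟩⟩
  rw [word, (events_isEv h0 (good_act g hr' h) T).unique h2, word, List.map_map, List.map_map]
  refine List.map_congr_left fun e _ => ?_
  simp [actF]

theorem init_act (W : Finset V) : init (W.map g.toEmbedding) = actS g (init W) := by
  funext y
  obtain ⟨y, rfl⟩ := g.surjective y
  simp only [actS_apply, init, actL, Finset.mem_map_equiv, Equiv.symm_apply_apply]
  split_ifs <;> simp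

theorem run_act {ty ty' : V → Bool} (hty : ∀ x, ty' (g x) = ty x) {br br' : V → ℝ}
    (hbr : ∀ x, br' (g x) = br x) {r r' : V → ℝ} (hr : ∀ y, 0 ≤ r y) (hr' : ∀ x, r' (g x) = r x)
    (cap : Bool → ℝ≥0∞) {φ : V → Fut V} {W : Finset V} (h : Good r φ W) (T : ℝ) :
    run ty' br' cap r' (actP g φ) (init (W.map g.toEmbedding)) (W.map g.toEmbedding) T =
      actS g (run ty br cap r φ (init W) W T) := by
  rw [run_eq, run_eq, word_act g hr hr' h, init_act]
  generalize init W = σ
  induction word r φ W T generalizing σ with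
  | nil => rfl
  | cons e w ih => rw [List.map_cons, fold_cons, fold_cons, step_act g hty hbr, ih]

end Pool.Agent.P.MP_6a2a35_pr
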