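import Pool.Agent.P.MP_6a2a35_pr.Prod

/-! First jump decomposition at the level of the product measure. -/

namespace Pool.Agent.P.MP_6a2a35_pr

open MeasureTheory ProbabilityTheory Filter Function
open scoped ENNReal NNReal Classical

variable {V : Type*} [MeasurableSpace V] (K : V → PMF V)

noncomputable def mapLaw : Measure (V → V) := Measure.infinitePi fun v : V => (K v).toMeasure
noncomputable def jumpLaw : Measure (ℝ × (V → V)) := (expMeasure 1).prod (mapLaw K)
noncomputable def futLaw : Measure (Fut V) := Measure.infinitePi fun _ : ℕ => jumpLaw K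
noncomputable def nu : Measure (V → Fut V) := Measure.infinitePi fun _ : V => futLaw K
noncomputable def markLaw (V : Type*) : Measure (V → unitInterval × unitInterval) :=
  Measure.infinitePi fun _ : V => (volume : Measure (unitInterval × unitInterval))

instance : IsProbabilityMeasure (mapLaw K) := by unfold mapLaw; infer_instance
instance : IsProbabilityMeasure (jumpLaw K) := by unfold jumpLaw; infer_instance
instance : IsProbabilityMeasure (futLaw K) := by unfold futLaw; infer_instance
instance : IsProbabilityMeasure (nu K) := by unfold nu; infer_instance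
instance : IsProbabilityMeasure (volume : Measure (unitInterval × unitInterval)) := by
  rw [Measure.volume_eq_prod]; infer_instance
instance (V : Type*) : IsProbabilityMeasure (markLaw V) := by unfold markLaw; infer_instance

theorem law_eq : law K = (markLaw V).prod (nu K) := rfl

instance : IsProbabilityMeasure (law K) := by rw [law_eq]; infer_instance

omit [MeasurableSpace V] in
def sub (a : ℝ) (d : Fut V) : Fut V := update d 0 ((d 0).1 - a, (d 0).2)

omit [MeasurableSpace V] in
noncomputable def subAll (U : Finset V) (a : V → ℝ) (φ : V → Fut V) : V → Fut V :=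
  fun y => if y ∈ U then sub (a y) (φ y) else φ y

omit [MeasurableSpace V] in
noncomputable def theta (W : Finset V) (r : V → ℝ) (x : V) (φ : V → Fut V) : V → Fut V :=
  update (subAll (W.erase x) (fun y => r y * ((φ x 0).1 / r x)) φ) x (tail (φ x))

omit [MeasurableSpace V] in
def First (W : Finset V) (r : V → ℝ) (x : V) (φ : V → Fut V) : Prop :=
  ∀ y ∈ W.erase x, r y * ((φ x 0).1 / r x) < (φ y 0).1

theorem measurable_sub {Z : Type*} [MeasurableSpace Z] {a : Z → ℝ} {d : Z → Fut V}
    (ha : Measurable a) (hd : Measurable d) : Measurable fun z => sub (a z) (d z) := by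
  unfold sub
  exact measurable_update'.comp (hd.prodMk (by fun_prop))

theorem measurable_subAll {Z : Type*} [MeasurableSpace Z] (U : Finset V) {a : Z → V → ℝ}
    {φ : Z → V → Fut V} (ha : Measurable a) (hφ : Measurable φ) :
    Measurable fun z => subAll U (a z) (φ z) := by
  refine measurable_pi_lambda _ fun y => ?_
  unfold subAll
  split_ifs
  · exact measurable_sub (by fun_prop) (by fun_prop)
  · fun_prop

theorem measurable_theta (W : Finset V) (r : V → ℝ) (x : V) : Measurable (theta W r x) := by
  unfold theta
  refine measurable_update'.comp (Measurable.prodMk (measurable_subAll _ ?_ measurable_id)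
    (measurable_tail.comp (measurable_pi_apply x)))
  fun_prop

theorem measurableSet_first (W : Finset V) (r : V → ℝ) (x : V) :
    MeasurableSet {φ | First W r x φ} := by
  unfold First
  simp only [Set.ofPred_forall]
  exact Finset.measurableSet_biInter _ fun y _ => measurableSet_lt (by fun_prop) (by fun_prop)

theorem lintegral_sub_fut {F : Fut V → ℝ≥0∞} (hF : Measurable F) {a : ℝ} (ha : 0 ≤ a) :
    ∫⁻ d, (if a < (d 0).1 then F (sub a d) else 0) ∂futLaw K =
      ENNReal.ofReal (Real.exp (-a)) * ∫⁻ d, F d ∂futLaw K := by
  have hm : Measurable fun q : (ℝ × (V → V)) × Fut V => F (update q.2 0 q.1) :=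
    hF.comp (measurable_update'.comp (measurable_snd.prodMk measurable_fst))
  have hG : Measurable fun h : ℝ × (V → V) => ∫⁻ d, F (update d 0 h) ∂futLaw K :=
    hm.lintegral_prod_right'
  have h1 : Measurable fun d : Fut V => if a < (d 0).1 then F (sub a d) else 0 :=
    Measurable.ite (measurableSet_lt measurable_const (by fun_prop))
      (hF.comp (measurable_sub measurable_const measurable_id)) measurable_const
  have e1 := lintegral_resample (jumpLaw K) 0 h1
  have e2 := lintegral_resample (jumpLaw K) 0 hF
  change ∫⁻ d, _ ∂futLaw K = ∫⁻ a, ∫⁻ f, _ ∂futLaw K ∂jumpLaw K at e1 e2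
  rw [e1, e2]
  have e3 : ∀ h : ℝ × (V → V), ∫⁻ f, (if a < (update f 0 h 0).1 then F (sub a (update f 0 h))
      else 0) ∂futLaw K = if a < h.1 then ∫⁻ d, F (update d 0 (h.1 - a, h.2)) ∂futLaw K
      else 0 := by
    intro h
    simp only [update_self, sub, update_idem]
    split_ifs <;> simp
  simp only [e3]
  rw [jumpLaw, lintegral_prod, lintegral_prod _ hG.aemeasurable,
    ← lintegral_exp_sub hG.lintegral_prod_right' ha]
  · refine lintegral_congr fun e => ?_
    split_ifs <;> simp
  · exact (Measurable.ite (measurableSet_lt measurable_const measurable_fst)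
      (hG.comp (by fun_prop)) measurable_const).aemeasurable

theorem lintegral_subAll (U : Finset V) {a : V → ℝ} (ha : ∀ y, 0 ≤ a y) :
    ∀ {F : (V → Fut V) → ℝ≥0∞}, Measurable F →
    ∫⁻ φ, (if ∀ y ∈ U, a y < (φ y 0).1 then F (subAll U a φ) else 0) ∂nu K =
      ENNReal.ofReal (Real.exp (-∑ y ∈ U, a y)) * ∫⁻ φ, F φ ∂nu K := by
  induction U using Finset.induction_on with
  | empty =>
    intro F _
    have : ∀ φ : V → Fut V, subAll ∅ a φ = φ := fun φ => by funext y; simp [subAll]
    simp [this]
  | insert x U hx ih =>
    intro F hF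
    have hF' : Measurable fun ψ : V → Fut V =>
        if a x < (ψ x 0).1 then F (update ψ x (sub (a x) (ψ x))) else 0 :=
      Measurable.ite (measurableSet_lt measurable_const (by fun_prop))
        (hF.comp (measurable_update'.comp (measurable_id.prodMk
          (measurable_sub measurable_const (measurable_pi_apply x))))) measurable_const
    have e1 := ih hF'
    have e2 : ∀ φ : V → Fut V, (if ∀ y ∈ insert x U, a y < (φ y 0).1
        then F (subAll (insert x U) a φ) else 0) = if ∀ y ∈ U, a y < (φ y 0).1 then
        (if a x < (subAll U a φ x 0).1 then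
          F (update (subAll U a φ) x (sub (a x) (subAll U a φ x))) else 0) else 0 := by
      intro φ
      have h1 : subAll U a φ x = φ x := by simp [subAll, hx]
      have h2 : subAll (insert x U) a φ = update (subAll U a φ) x (sub (a x) (φ x)) := by
        funext y
        by_cases hy : y = x
        · subst hy; simp [subAll]
        · simp [subAll, hy]
      rw [h1, h2]
      simp only [Finset.forall_mem_insert]
      split_ifs <;> simp_all
    simp only [e2]
    rw [e1]
    have e3 := lintegral_resample' (futLaw K) x hF'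
    have e4 := lintegral_resample' (futLaw K) x hF
    change ∫⁻ d, _ ∂nu K = ∫⁻ a, ∫⁻ f, _ ∂futLaw K ∂nu K at e3 e4
    rw [e3, e4]
    simp only [update_self, update_idem]
    have e5 : ∀ f : V → Fut V, ∫⁻ d, (if a x < (d 0).1 then F (update f x (sub (a x) d)) else 0)
        ∂futLaw K = ENNReal.ofReal (Real.exp (-a x)) * ∫⁻ d, F (update f x d) ∂futLaw K :=
      fun f => lintegral_sub_fut K (F := fun d => F (update f x d))
        (hF.comp (measurable_update f)) (ha x)
    simp only [e5]
    rw [lintegral_const_mul' _ _ ENNReal.ofReal_ne_top, ← mul_assoc,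
      ← ENNReal.ofReal_mul (Real.exp_pos _).le, ← Real.exp_add, Finset.sum_insert hx]
    congr 3; ring

theorem ae_jump_pos : ∀ᵐ h ∂jumpLaw K, 0 < h.1 :=
  (measurePreserving_fst (μ := expMeasure 1) (ν := mapLaw K)).quasiMeasurePreserving.ae ae_exp_pos

theorem ae_fut_pos : ∀ᵐ d ∂futLaw K, ∀ n, 0 < (d n).1 :=
  ae_all_iff.2 fun n => (measurePreserving_eval_infinitePi (fun _ : ℕ => jumpLaw K)
    n).quasiMeasurePreserving.ae (ae_jump_pos K)

theorem lintegral_theta (W : Finset V) {r : V → ℝ} (hr : ∀ y, 0 ≤ r y) (x : V)
    {F : (ℝ × (V → V)) × (V → Fut V) → ℝ≥0∞} (hF : Measurable F) :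
    ∫⁻ φ, (if First W r x φ then F (φ x 0, theta W r x φ) else 0) ∂nu K =
      ∫⁻ h, ENNReal.ofReal (Real.exp (-∑ y ∈ W.erase x, r y * (h.1 / r x))) *
        ∫⁻ φ, F (h, φ) ∂nu K ∂jumpLaw K := by
  have h1 : Measurable fun φ : V → Fut V =>
      if First W r x φ then F (φ x 0, theta W r x φ) else 0 :=
    Measurable.ite (measurableSet_first W r x)
      (hF.comp (Measurable.prodMk (by fun_prop) (measurable_theta W r x))) measurable_const
  have e1 := lintegral_resample (futLaw K) x h1
  change ∫⁻ d, _ ∂nu K = ∫⁻ a, ∫⁻ f, _ ∂nu K ∂futLaw K at e1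
  have hm : Measurable fun q : ((ℝ × (V → V)) × Fut V) × (V → Fut V) =>
      F (q.1.1, update q.2 x q.1.2) :=
    hF.comp (Measurable.prodMk (by fun_prop)
      (measurable_update'.comp (measurable_snd.prodMk (by fun_prop))))
  have hH : Measurable fun q : (ℝ × (V → V)) × Fut V =>
      ENNReal.ofReal (Real.exp (-∑ y ∈ W.erase x, r y * (q.1.1 / r x))) *
        ∫⁻ φ, F (q.1, update φ x q.2) ∂nu K :=
    Measurable.mul (by fun_prop) hm.lintegral_prod_right'
  have e2 := lintegral_head_tail (jumpLaw K) hH
  change ∫⁻ d, _ ∂futLaw K = ∫⁻ a, ∫⁻ f, _ ∂futLaw K ∂jumpLaw K at e2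
  rw [e1]
  trans ∫⁻ d, ENNReal.ofReal (Real.exp (-∑ y ∈ W.erase x, r y * ((d 0).1 / r x))) *
        ∫⁻ φ, F (d 0, update φ x (tail d)) ∂nu K ∂futLaw K
  · refine lintegral_congr_ae ((ae_fut_pos K).mono fun d hd => ?_)
    beta_reduce
    rw [← lintegral_subAll K (W.erase x) (fun y => mul_nonneg (hr y) (div_nonneg (hd 0).le (hr x)))
      (F := fun φ => F (d 0, update φ x (tail d)))
      (hF.comp (measurable_const.prodMk (measurable_update_left)))]
    refine lintegral_congr fun φ => ?_
    have h2 : First W r x (update φ x d) ↔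
        ∀ y ∈ W.erase x, r y * ((d 0).1 / r x) < (φ y 0).1 := by
      unfold First
      refine forall₂_congr fun y hy => ?_
      simp [update_of_ne (Finset.ne_of_mem_erase hy)]
    have h3 : theta W r x (update φ x d) =
        update (subAll (W.erase x) (fun y => r y * ((d 0).1 / r x)) φ) x (tail d) := by
      funext y
      by_cases hy : y = x
      · subst hy; simp [theta]
      · simp [theta, subAll, hy]
    simp only [h2, h3, update_self]
  · rw [e2]
    refine lintegral_congr fun h => ?_
    dsimp only
    rw [lintegral_const_mul' _ _ ENNReal.ofReal_ne_top]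
    congr 1
    exact (lintegral_resample (futLaw K) x (hF.comp measurable_prodMk_left)).symm

end Pool.Agent.P.MP_6a2a35_pr
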