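import Pool.Agent.P.MP_6a2a35_pr.Ev

/-! The word of jumps and its behaviour under time shifts. -/

namespace Pool.Agent.P.MP_6a2a35_pr

open Filter Function
open scoped ENNReal NNReal Classical

variable {V : Type*} {r : V → ℝ} {φ : V → Fut V} {W : Finset V}

noncomputable def word (r : V → ℝ) (φ : V → Fut V) (W : Finset V) (T : ℝ) : List (V × (V → V)) :=
  (events r φ W T).map fun e => (e.1, (φ e.1 e.2).2)

def fold {A : Type*} (stp : A → V → (V → V) → A) (σ : A) (w : List (V × (V → V))) : A :=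
  w.foldl (fun τ e => stp τ e.1 e.2) σ

theorem fold_nil {A : Type*} (stp : A → V → (V → V) → A) (σ : A) : fold stp σ [] = σ := rfl

theorem fold_cons {A : Type*} (stp : A → V → (V → V) → A) (σ : A) (e : V × (V → V))
    (w : List (V × (V → V))) : fold stp σ (e :: w) = fold stp (stp σ e.1 e.2) w := rfl

theorem fold_append {A : Type*} (stp : A → V → (V → V) → A) (σ : A)
    (w w' : List (V × (V → V))) : fold stp σ (w ++ w') = fold stp (fold stp σ w) w' :=
  List.foldl_append

theorem run_eq (ty : V → Bool) (br : V → ℝ) (cap : Bool → ℝ≥0∞) (σ : V → Loc V) (T : ℝ) :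
    run ty br cap r φ σ W T = fold (step ty br cap) σ (word r φ W T) := by
  simp [run, fold, word, List.foldl_map]

noncomputable def up (x : V) (e : V × ℕ) : V × ℕ := if e.1 = x then (e.1, e.2 + 1) else e

theorem up_fst (x : V) (e : V × ℕ) : (up x e).1 = e.1 := by unfold up; split_ifs <;> rfl

theorem tm_theta {x : V} {e : V × ℕ} (he : e.1 ∈ W) (h0 : 0 < r e.1) :
    tm r (theta W r x φ) e = tm r φ (up x e) - (φ x 0).1 / r x := by
  obtain ⟨y, n⟩ := e
  by_cases hy : y = x
  · subst hy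
    simp [tm, up, theta, arr_tail, sub_div]
  · have : y ∈ W.erase x := Finset.mem_erase.2 ⟨hy, he⟩
    simp only [tm, up, theta, hy, if_false, update_of_ne hy, subAll, this, if_true, arr_sub]
    rw [sub_div, mul_div_cancel_left₀ _ h0.ne']

theorem snd_theta (x : V) (e : V × ℕ) :
    (theta W r x φ e.1 e.2).2 = (φ (up x e).1 (up x e).2).2 := by
  obtain ⟨y, n⟩ := e
  by_cases hy : y = x
  · subst hy
    simp [up, theta, tail]
  · simp only [up, theta, hy, if_false, update_of_ne hy, subAll]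
    split_ifs
    · rcases n with _ | n <;> simp [sub]
    · rfl

theorem good_theta (hG : Good r φ W) {x : V} (hx : x ∈ W) (hF : First W r x φ) :
    Good r (theta W r x φ) W := by
  refine ⟨fun y hy => ?_, fun y hy z hz hyz h1 h2 n k => ?_⟩
  · by_cases hyx : y = x
    · subst hyx; simpa [theta] using (hG.gf y hy).tail
    · have : y ∈ W.erase x := Finset.mem_erase.2 ⟨hyx, hy⟩
      simpa [theta, update_of_ne hyx, subAll, hyx, hy] using (hG.gf y hy).sub (hF y this)
  · rw [tm_theta (e := (y, n)) hy h1, tm_theta (e := (z, k)) hz h2, Ne, sub_left_inj]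
    have e1 : up x (y, n) = (y, (up x (y, n)).2) := Prod.ext (up_fst _ _) rfl
    have e2 : up x (z, k) = (z, (up x (z, k)).2) := Prod.ext (up_fst _ _) rfl
    rw [e1, e2]
    exact hG.inj y hy z hz hyz h1 h2 _ _

theorem tm_zero (x : V) : tm r φ (x, 0) = (φ x 0).1 / r x := by simp [tm, arr_zero]

theorem word_theta (hr : ∀ y, 0 ≤ r y) (hG : Good r φ W) {x : V} (hx : x ∈ W) (h0 : 0 < r x)
    (hF : First W r x φ) {T : ℝ} (hs : (φ x 0).1 / r x ≤ T) :
    word r φ W T = (x, (φ x 0).2) :: word r (theta W r x φ) W (T - (φ x 0).1 / r x) := by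
  have h1 := events_isEv hr (good_theta hG hx hF) (T - (φ x 0).1 / r x)
  set l := events r (theta W r x φ) W (T - (φ x 0).1 / r x) with hl
  have hs0 : 0 < (φ x 0).1 / r x := div_pos ((hG.gf x hx).pos 0) h0
  have h2 : IsEv r φ W 0 T ((x, 0) :: l.map (up x)) := by
    refine ⟨fun e => ?_, List.pairwise_cons.2 ⟨fun e he => ?_, ?_⟩⟩
    · simp only [List.mem_cons, List.mem_map, h1.1]
      constructor
      · rintro (rfl | ⟨e', ⟨a1, a2, a3, a4⟩, rfl⟩)
        · exact ⟨hx, h0, by rwa [tm_zero], by rwa [tm_zero]⟩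
        · rw [tm_theta a1 a2] at a3 a4
          rw [up_fst]
          exact ⟨a1, a2, by linarith, by linarith⟩
      · obtain ⟨y, n⟩ := e
        rintro ⟨a1, a2, a3, a4⟩
        by_cases hy : y = x
        · subst hy
          rcases n with _ | n
          · exact Or.inl rfl
          · have e1 : up y (y, n) = (y, n + 1) := by simp [up]
            refine Or.inr ⟨(y, n), ⟨a1, a2, ?_, ?_⟩, e1⟩
            · exact tm_pos ((good_theta hG hx hF).gf y a1) a2 n
            · rw [tm_theta (e := (y, n)) a1 a2, e1]; linarith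
        · have e1 : up x (y, n) = (y, n) := by simp [up, hy]
          refine Or.inr ⟨(y, n), ⟨a1, a2, ?_, ?_⟩, e1⟩
          · exact tm_pos ((good_theta hG hx hF).gf y a1) a2 n
          · rw [tm_theta (e := (y, n)) a1 a2, e1]; linarith
    · obtain ⟨e', he', rfl⟩ := List.mem_map.1 he
      obtain ⟨a1, a2, a3, -⟩ := (h1.1 e').1 he'
      rw [tm_theta a1 a2] at a3
      rw [tm_zero]; linarith
    · rw [List.pairwise_map]
      refine h1.2.imp_of_mem fun {e e'} he he' h => ?_
      obtain ⟨a1, a2, -⟩ := (h1.1 e).1 he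
      obtain ⟨b1, b2, -⟩ := (h1.1 e').1 he'
      rw [tm_theta a1 a2, tm_theta b1 b2] at h
      linarith
  rw [word, (events_isEv hr hG T).unique h2, word, ← hl, List.map_cons, List.map_map]
  congr 1
  refine List.map_congr_left fun e _ => ?_
  simp [snd_theta, up_fst]

theorem exists_first (hr : ∀ y, 0 ≤ r y) (hG : Good r φ W) {T : ℝ} (hne : word r φ W T ≠ []) :
    ∃ x ∈ W, 0 < r x ∧ First W r x φ ∧ (φ x 0).1 / r x ≤ T := by
  have h1 := events_isEv hr hG T
  rcases hl : events r φ W T with _ | ⟨e, l⟩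
  · simp [word, hl] at hne
  rw [hl] at h1
  obtain ⟨-, a1, a2, a3, a4, a5, -, a7⟩ := h1.cons hr hG
  rw [mul_zero, (hG.gf _ a1).cnt_nonpos le_rfl] at a5
  have e1 : tm r φ e = (φ e.1 0).1 / r e.1 := by rw [← tm_zero, ← a5]
  refine ⟨e.1, a1, a2, fun y hy => ?_, e1 ▸ a4⟩
  obtain ⟨b1, b2⟩ := Finset.mem_erase.1 hy
  have := a7 y b2 b1
  rw [mul_zero, (hG.gf _ b2).cnt_nonpos le_rfl, e1] at this
  by_contra hc
  have h2 := (hG.gf _ b2).lt_cnt (n := 0).2 ((arr_zero _).trans_le (not_lt.1 hc))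
  omega

theorem word_eq_nil_iff (hr : ∀ y, 0 ≤ r y) (hG : Good r φ W) {T : ℝ} (hT : 0 ≤ T) :
    word r φ W T = [] ↔ ∀ y ∈ W, r y * T < (φ y 0).1 := by
  constructor
  · intro h y hy
    have h1 := events_isEv hr hG T
    rw [List.map_eq_nil_iff.1 h] at h1
    have := h1.nil hr hG hT hy
    rw [mul_zero, (hG.gf _ hy).cnt_nonpos le_rfl] at this
    by_contra hc
    have h2 := (hG.gf _ hy).lt_cnt (n := 0).2 ((arr_zero _).trans_le (not_lt.1 hc))
    omega
  · intro h
    by_contra hc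
    obtain ⟨x, hx, h0, -, h1⟩ := exists_first hr hG hc
    have := h x hx
    rw [div_le_iff₀ h0] at h1
    linarith

theorem word_subAll (hr : ∀ y, 0 ≤ r y) (hG : Good r φ W) {t : ℝ} (ht : 0 ≤ t)
    (h : ∀ y ∈ W, r y * t < (φ y 0).1) (s : ℝ) :
    word r φ W (t + s) = word r (subAll W (fun y => r y * t) φ) W s := by
  have htm : ∀ e : V × ℕ, e.1 ∈ W → 0 < r e.1 →
      tm r (subAll W (fun y => r y * t) φ) e = tm r φ e - t := by
    intro e a1 a2
    simp only [tm, subAll, a1, if_true, arr_sub]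
    rw [sub_div, mul_div_cancel_left₀ _ a2.ne']
  have hG' : Good r (subAll W (fun y => r y * t) φ) W := by
    refine ⟨fun y hy => by simpa [subAll, hy] using (hG.gf y hy).sub (h y hy),
      fun y hy z hz hyz h1 h2 n k => ?_⟩
    rw [htm (y, n) hy h1, htm (z, k) hz h2, Ne, sub_left_inj]
    exact hG.inj y hy z hz hyz h1 h2 n k
  have h1 := events_isEv hr hG' s
  have h2 : IsEv r φ W 0 (t + s) (events r (subAll W (fun y => r y * t) φ) W s) := by
    refine ⟨fun e => ?_, h1.2.imp_of_mem fun {e e'} he he' h => ?_⟩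
    · rw [h1.1]
      refine and_congr_right fun a1 => and_congr_right fun a2 => ?_
      have a3 := tm_pos (hG'.gf _ a1) a2 e.2
      rw [htm (e.1, e.2) a1 a2] at a3
      rw [htm e a1 a2]
      exact ⟨fun ⟨b1, b2⟩ => ⟨by linarith, by linarith⟩, fun ⟨b1, b2⟩ => ⟨a3, by linarith⟩⟩
    · obtain ⟨a1, a2, -⟩ := (h1.1 e).1 he
      obtain ⟨b1, b2, -⟩ := (h1.1 e').1 he'
      rw [htm _ a1 a2, htm _ b1 b2] at h
      linarith
  rw [word, (events_isEv hr hG _).unique h2, word]
  refine List.map_congr_left fun e _ => ?_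
  obtain ⟨y, n⟩ := e
  simp only [subAll, Prod.mk.injEq, true_and]
  split_ifs
  · rcases n with _ | n <;> simp [sub]
  · rfl

theorem mem_word (hr : ∀ y, 0 ≤ r y) (hG : Good r φ W) {T : ℝ} {e : V × (V → V)}
    (he : e ∈ word r φ W T) : e.1 ∈ W ∧ 0 < r e.1 := by
  obtain ⟨e', he', rfl⟩ := List.mem_map.1 he
  obtain ⟨a1, a2, -⟩ := ((events_isEv hr hG T).1 e').1 he'
  exact ⟨a1, a2⟩

theorem mem_word' {T : ℝ} {e : V × (V → V)} (he : e ∈ word r φ W T) : e.1 ∈ W := by
  obtain ⟨e', he', rfl⟩ := List.mem_map.1 he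
  simp only [events, List.mem_insertionSort, List.mem_flatMap, Finset.mem_toList,
    List.mem_map] at he'
  obtain ⟨y, hy, k, -, rfl⟩ := he'
  exact hy

end Pool.Agent.P.MP_6a2a35_pr
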